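import Pool.Agent.W_MP_03ad1b_co.Defs

/-!
# Basic facts about minors
-/

set_option autoImplicit false

namespace Pool.Agent.W_MP_03ad1b_co

theorem Minor_conn_singleton {V : Type} (G : SimpleGraph V) (w : V) :
    (G.induce ({w} : Set V)).Connected :=
  SimpleGraph.Connected.of_subsingleton

theorem Minor_disj_eq {W V : Type} {B : W → Set V}
    (h₂ : ∀ w w', w ≠ w' → Disjoint (B w) (B w')) {w w' : W} {x : V} (hx : x ∈ B w)
    (hx' : x ∈ B w') : w = w' := by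
  by_contra hne
  exact Set.disjoint_left.1 (h₂ w w' hne) hx hx'

theorem IsMinor.refl {V : Type} (G : SimpleGraph V) : IsMinor G G := by
  refine ⟨fun w => {w}, fun w => Minor_conn_singleton G w, ?_, ?_⟩
  · intro w w' h
    exact Set.disjoint_singleton.2 h
  · intro w w' h
    exact ⟨w, rfl, w', rfl, h⟩

theorem Minor_reach {W V : Type} {H : SimpleGraph W} {G : SimpleGraph V} {B : W → Set V}
    (h₁ : ∀ w, (G.induce (B w)).Connected)
    (h₃ : ∀ w w', H.Adj w w' → ∃ x ∈ B w, ∃ y ∈ B w', G.Adj x y) (A : Set W) (C : Set V)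
    (hC : ∀ w ∈ A, B w ⊆ C) {a b : A} (p : (H.induce A).Walk a b) :
    ∀ (x : V) (hx : x ∈ B a) (y : V) (hy : y ∈ B b),
      (G.induce C).Reachable ⟨x, hC a a.2 hx⟩ ⟨y, hC b b.2 hy⟩ := by
  have h0 : ∀ (a : A) (x : V) (hx : x ∈ B a) (y : V) (hy : y ∈ B a),
      (G.induce C).Reachable ⟨x, hC a a.2 hx⟩ ⟨y, hC a a.2 hy⟩ := by
    intro a x hx y hy
    have h := (h₁ a).preconnected ⟨x, hx⟩ ⟨y, hy⟩
    exact h.map (SimpleGraph.induceHomOfLE G (hC a a.2)).toHom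
  induction p with
  | nil => exact fun x hx y hy => h0 _ x hx y hy
  | @cons u v w h p ih =>
    intro x hx y hy
    have hadj : H.Adj u v := h
    obtain ⟨s, hs, t, ht, hst⟩ := h₃ u v hadj
    have h1 := h0 u x hx s hs
    have h2 : (G.induce C).Adj ⟨s, hC u u.2 hs⟩ ⟨t, hC v v.2 ht⟩ := hst
    exact h1.trans (h2.reachable.trans (ih t ht y hy))

theorem IsMinor.trans {U W V : Type} {K : SimpleGraph U} {H : SimpleGraph W} {G : SimpleGraph V}
    (h₁ : IsMinor K H) (h₂ : IsMinor H G) : IsMinor K G := by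
  obtain ⟨B₁, a₁, a₂, a₃⟩ := h₁
  obtain ⟨B₂, b₁, b₂, b₃⟩ := h₂
  refine ⟨fun u => ⋃ w ∈ B₁ u, B₂ w, ?_, ?_, ?_⟩
  · intro u
    have hC : ∀ w ∈ B₁ u, B₂ w ⊆ ⋃ w ∈ B₁ u, B₂ w :=
      fun w hw => Set.subset_biUnion_of_mem (u := fun w => B₂ w) hw
    obtain ⟨⟨w, hw⟩⟩ := (a₁ u).nonempty
    obtain ⟨⟨x, hx⟩⟩ := (b₁ w).nonempty
    have : Nonempty (⋃ w ∈ B₁ u, B₂ w : Set V) := ⟨⟨x, hC w hw hx⟩⟩
    refine ⟨?_⟩
    rintro ⟨s, hs⟩ ⟨t, ht⟩
    obtain ⟨ws, hws, hs'⟩ := Set.mem_iUnion₂.1 hs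
    obtain ⟨wt, hwt, ht'⟩ := Set.mem_iUnion₂.1 ht
    obtain ⟨p⟩ := (a₁ u).preconnected ⟨ws, hws⟩ ⟨wt, hwt⟩
    exact Minor_reach b₁ b₃ (B₁ u) _ hC p s hs' t ht'
  · intro u u' h
    rw [Set.disjoint_left]
    intro x hx hx'
    obtain ⟨w, hw, hxw⟩ := Set.mem_iUnion₂.1 hx
    obtain ⟨w', hw', hxw'⟩ := Set.mem_iUnion₂.1 hx'
    have hww : w = w' := Minor_disj_eq b₂ hxw hxw'
    subst hww
    exact h (Minor_disj_eq a₂ hw hw')
  · intro u u' h
    obtain ⟨w, hw, w', hw', hww⟩ := a₃ u u' h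
    obtain ⟨x, hx, y, hy, hxy⟩ := b₃ w w' hww
    exact ⟨x, Set.mem_biUnion hw hx, y, Set.mem_biUnion hw' hy, hxy⟩

theorem IsMinor.of_iso {W V : Type} {H : SimpleGraph W} {G : SimpleGraph V} (e : H ≃g G) :
    IsMinor H G := by
  refine ⟨fun w => {e w}, fun w => Minor_conn_singleton G _, ?_, ?_⟩
  · intro w w' h
    exact Set.disjoint_singleton.2 fun h' => h (e.injective h')
  · intro w w' h
    exact ⟨e w, rfl, e w', rfl, e.map_adj_iff.2 h⟩

/-- A subgraph of an induced subgraph is a minor. -/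
theorem IsMinor.of_le_induce {V : Type} {G : SimpleGraph V} {U : Set V} {H : SimpleGraph U}
    (h : H ≤ G.induce U) : IsMinor H G := by
  refine ⟨fun w => {w.1}, fun w => Minor_conn_singleton G _, ?_, ?_⟩
  · intro w w' h'
    exact Set.disjoint_singleton.2 fun h'' => h' (Subtype.ext h'')
  · intro w w' h'
    exact ⟨w, rfl, w', rfl, h h'⟩

theorem ecount_iso {W V : Type} {H : SimpleGraph W} {G : SimpleGraph V} (e : H ≃g G) :
    ecount H = ecount G := by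
  unfold ecount
  rw [← Nat.card_coe_set_eq, ← Nat.card_coe_set_eq]
  exact Nat.card_congr e.mapEdgeSet

theorem IsMinor.card_le {W V : Type} [Fintype W] [Fintype V] {H : SimpleGraph W}
    {G : SimpleGraph V} (h : IsMinor H G) : Fintype.card W ≤ Fintype.card V := by
  obtain ⟨B, h₁, h₂, h₃⟩ := h
  have h0 : ∀ w, ∃ x, x ∈ B w := fun w => by
    obtain ⟨⟨x, hx⟩⟩ := (h₁ w).nonempty
    exact ⟨x, hx⟩
  choose φ hφ using h0
  refine Fintype.card_le_of_injective φ ?_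
  intro w w' hww
  exact Minor_disj_eq h₂ (hφ w) (hww ▸ hφ w')

theorem IsMinor.ecount_le {W V : Type} [Fintype W] [Fintype V] {H : SimpleGraph W}
    {G : SimpleGraph V} (h : IsMinor H G) : ecount H ≤ ecount G := by
  obtain ⟨B, h₁, h₂, h₃⟩ := h
  have h0 : ∀ e ∈ H.edgeSet, ∃ e' ∈ G.edgeSet, ∃ w w' x y, e = s(w, w') ∧ e' = s(x, y) ∧
      x ∈ B w ∧ y ∈ B w' := by
    intro e
    induction e using Sym2.ind with
    | _ w w' =>
      intro he
      obtain ⟨x, hx, y, hy, hxy⟩ := h₃ w w' he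
      exact ⟨s(x, y), hxy, w, w', x, y, rfl, rfl, hx, hy⟩
  rcases H.edgeSet.eq_empty_or_nonempty with hem | ⟨e₀, he₀⟩
  · simp [ecount, hem]
  have : Nonempty (Sym2 V) := ⟨(h0 e₀ he₀).choose⟩
  choose! φ hφ using h0
  refine Set.ncard_le_ncard_of_injOn φ (fun e he => (hφ e he).1) ?_ (Set.toFinite _)
  intro e he e' he' hee
  obtain ⟨w, w', x, y, h1, h2, h3, h4⟩ := (hφ e he).2
  obtain ⟨v, v', x', y', k1, k2, k3, k4⟩ := (hφ e' he').2
  rw [h2, k2, Sym2.eq_iff] at hee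
  rw [h1, k1, Sym2.eq_iff]
  rcases hee with ⟨rfl, rfl⟩ | ⟨rfl, rfl⟩
  · exact Or.inl ⟨Minor_disj_eq h₂ h3 k3, Minor_disj_eq h₂ h4 k4⟩
  · exact Or.inr ⟨Minor_disj_eq h₂ h3 k4, Minor_disj_eq h₂ h4 k3⟩

/-- A minor with the same numbers of vertices and edges is isomorphic to the graph. -/
theorem IsMinor.iso_of_eq {W V : Type} [Fintype W] [Fintype V] {H : SimpleGraph W}
    {G : SimpleGraph V} (h : IsMinor H G) (hv : Fintype.card W = Fintype.card V)
    (he : ecount H = ecount G) : Nonempty (H ≃g G) := by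
  obtain ⟨B, h₁, h₂, h₃⟩ := h
  have h0 : ∀ w, ∃ x, x ∈ B w := fun w => by
    obtain ⟨⟨x, hx⟩⟩ := (h₁ w).nonempty
    exact ⟨x, hx⟩
  choose φ hφ using h0
  have hinj : Function.Injective φ := fun w w' hww =>
    Minor_disj_eq h₂ (hφ w) (hww ▸ hφ w')
  have hbij : Function.Bijective φ := (Fintype.bijective_iff_injective_and_card φ).2 ⟨hinj, hv⟩
  have hB : ∀ w x, x ∈ B w → x = φ w := by
    intro w x hx
    obtain ⟨w', rfl⟩ := hbij.2 x
    rw [Minor_disj_eq h₂ hx (hφ w')]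
  let e : W ≃ V := Equiv.ofBijective φ hbij
  have hle : H ≤ G.comap e := by
    intro w w' hww
    obtain ⟨x, hx, y, hy, hxy⟩ := h₃ w w' hww
    rw [hB w x hx, hB w' y hy] at hxy
    exact hxy
  have hcount : ecount (G.comap e) = ecount G := ecount_iso (SimpleGraph.Iso.comap e G)
  have hsub : H.edgeSet ⊆ (G.comap e).edgeSet := SimpleGraph.edgeSet_mono hle
  have heq : H.edgeSet = (G.comap e).edgeSet := by
    refine Set.eq_of_subset_of_ncard_le hsub ?_ (Set.toFinite _)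
    unfold ecount at hcount he
    rw [hcount, he]
  have hHG : H = G.comap e := SimpleGraph.edgeSet_injective heq
  rw [hHG]
  exact ⟨SimpleGraph.Iso.comap e G⟩

end Pool.Agent.W_MP_03ad1b_co
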