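import Pool.Agent.W_MP_03ad1b_co.Discrete
import Pool.Agent.W_MP_03ad1b_co.Minor

/-!
# Graphs obtained from an accumulation point of `B`
-/

set_option autoImplicit false

namespace Pool.Agent.W_MP_03ad1b_co

/-- A member of a nonempty family of graphs which minimizes a given quantity. -/
theorem acc_min (P : FinGraph → Prop) (m : FinGraph → ℕ) (h : ∃ M, P M) :
    ∃ M, P M ∧ ∀ M', P M' → m M ≤ m M' := by
  obtain ⟨M, hM, hmin⟩ := (measure m).wf.has_min {M | P M} h
  exact ⟨M, hM, fun M' hM' => not_lt.1 (hmin M' hM')⟩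

/-- Every finite nonempty graph is isomorphic to a `FinGraph`. -/
theorem acc_fin {W : Type} [Fintype W] [Nonempty W] (H : SimpleGraph W) :
    ∃ F : FinGraph, F.v = Fintype.card W ∧ Nonempty (F.G ≃g H) :=
  ⟨⟨Fintype.card W, Fintype.card_pos, H.comap (Fintype.equivFin W).symm⟩, rfl,
    ⟨SimpleGraph.Iso.comap (Fintype.equivFin W).symm H⟩⟩

/-- If no edge leaves `S`, the edges are inside `S` or inside its complement. -/
theorem acc_ecount {V : Type} [Fintype V] (G : SimpleGraph V) (S : Set V)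
    (hS : ∀ a b, G.Adj a b → (a ∈ S ↔ b ∈ S)) :
    ecount G ≤ ecount (G.induce S) + ecount (G.induce Sᶜ) := by
  classical
  have hsub : G.edgeSet ⊆ (Sym2.map (Subtype.val : S → V)) '' (G.induce S).edgeSet ∪
      (Sym2.map (Subtype.val : (Sᶜ : Set V) → V)) '' (G.induce Sᶜ).edgeSet := by
    intro e he
    induction e with
    | _ a b =>
      rw [SimpleGraph.mem_edgeSet] at he
      by_cases ha : a ∈ S
      · left
        refine ⟨s(⟨a, ha⟩, ⟨b, (hS a b he).1 ha⟩), ?_, rfl⟩
        rw [SimpleGraph.mem_edgeSet]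
        exact he
      · right
        refine ⟨s(⟨a, ha⟩, ⟨b, fun hb => ha ((hS a b he).2 hb)⟩), ?_, rfl⟩
        rw [SimpleGraph.mem_edgeSet]
        exact he
  unfold ecount
  calc G.edgeSet.ncard ≤ _ := Set.ncard_le_ncard hsub (Set.toFinite _)
    _ ≤ _ := Set.ncard_union_le _ _
    _ ≤ _ := Nat.add_le_add (Set.ncard_image_le (Set.toFinite _))
        (Set.ncard_image_le (Set.toFinite _))

/-- A graph which is not connected splits into two smaller graphs. -/
theorem acc_split (M : FinGraph) (h : ¬ M.G.Connected) :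
    ∃ M₁ M₂ : FinGraph, IsMinor M₁.G M.G ∧ IsMinor M₂.G M.G ∧ M₁.v + M₂.v = M.v ∧
      ecount M.G ≤ ecount M₁.G + ecount M₂.G := by
  classical
  have hne : Nonempty (Fin M.v) := ⟨⟨0, M.pos⟩⟩
  have hp : ¬ M.G.Preconnected := fun hp => h ⟨hp⟩
  unfold SimpleGraph.Preconnected at hp
  push Not at hp
  obtain ⟨x, y, hxy⟩ := hp
  set S : Set (Fin M.v) := {z | M.G.Reachable x z} with hSdef
  have hxS : x ∈ S := SimpleGraph.Reachable.refl x
  have hyS : y ∈ Sᶜ := hxy
  have hS : ∀ a b, M.G.Adj a b → (a ∈ S ↔ b ∈ S) := fun a b hab =>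
    ⟨fun ha => SimpleGraph.Reachable.trans ha hab.reachable,
      fun hb => SimpleGraph.Reachable.trans hb hab.symm.reachable⟩
  haveI : Nonempty S := ⟨⟨x, hxS⟩⟩
  haveI : Nonempty (Sᶜ : Set (Fin M.v)) := ⟨⟨y, hyS⟩⟩
  obtain ⟨M₁, hv₁, ⟨e₁⟩⟩ := acc_fin (M.G.induce S)
  obtain ⟨M₂, hv₂, ⟨e₂⟩⟩ := acc_fin (M.G.induce Sᶜ)
  refine ⟨M₁, M₂, (IsMinor.of_iso e₁).trans (IsMinor.of_le_induce le_rfl),
    (IsMinor.of_iso e₂).trans (IsMinor.of_le_induce le_rfl), ?_, ?_⟩
  · rw [hv₁, hv₂]
    have := Fintype.card_compl_set S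
    rw [this, Fintype.card_fin]
    have h2 : Fintype.card S ≤ Fintype.card (Fin M.v) := Fintype.card_subtype_le _
    rw [Fintype.card_fin] at h2
    omega
  · rw [ecount_iso e₁, ecount_iso e₂]
    exact acc_ecount M.G S hS

/-- Deleting an edge. -/
theorem acc_delete (M : FinGraph) (h : 0 < ecount M.G) :
    ∃ M' : FinGraph, IsMinor M'.G M.G ∧ M'.v = M.v ∧ ecount M'.G + 1 = ecount M.G := by
  classical
  have hne : M.G.edgeSet.Nonempty := by
    rw [Set.nonempty_iff_ne_empty]
    intro h0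
    simp [ecount, h0] at h
  obtain ⟨e, he⟩ := hne
  refine ⟨⟨M.v, M.pos, M.G.deleteEdges {e}⟩, ?_, rfl, ?_⟩
  · have h1 : IsMinor ((M.G.deleteEdges {e}).induce Set.univ) M.G :=
      IsMinor.of_le_induce (fun a b hab => (M.G.deleteEdges_le {e}) hab)
    exact (IsMinor.of_iso (SimpleGraph.induceUnivIso (M.G.deleteEdges {e})).symm).trans h1
  · unfold ecount
    simp only [SimpleGraph.edgeSet_deleteEdges]
    exact Set.ncard_diff_singleton_add_one he (Set.toFinite _)

/-- Densities close to `β` but different from `β` need many vertices. -/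
theorem acc_large (β η : ℝ) (N : ℕ) (hN : 0 < N)
    (hη : ∀ (p : ℤ) (q : ℕ), q ≤ N → (p : ℝ) - β * q ≠ 0 → η ≤ |(p : ℝ) - β * q|)
    (M : FinGraph) (hne : (ecount M.G : ℝ) - β * M.v ≠ 0)
    (hlt : |(ecount M.G : ℝ) - β * M.v| < η / N * M.v) : N ≤ M.v := by
  by_contra hc
  push Not at hc
  have h1 := hη (ecount M.G) M.v hc.le (by exact_mod_cast hne)
  have h2 : (((ecount M.G : ℕ) : ℤ) : ℝ) = (ecount M.G : ℝ) := by push_cast; rfl
  rw [h2] at h1
  have hN' : (0 : ℝ) < N := by exact_mod_cast hN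
  have hη0 : 0 ≤ η := by
    by_contra hneg
    push Not at hneg
    have h3 : η / N * M.v ≤ 0 :=
      mul_nonpos_of_nonpos_of_nonneg (div_nonpos_of_nonpos_of_nonneg hneg.le hN'.le)
        (Nat.cast_nonneg _)
    have h4 := abs_nonneg ((ecount M.G : ℝ) - β * M.v)
    linarith
  have h3 : η / N * M.v ≤ η := by
    rw [div_mul_eq_mul_div, div_le_iff₀ hN']
    exact mul_le_mul_of_nonneg_left (by exact_mod_cast hc.le) hη0
  linarith

/-- An accumulation point of `B` gives large connected graphs of density almost `β` all of whose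
minors `H` satisfy `e(H) ≤ β v(H) + 1`. -/
theorem acc_graph (β : ℝ) (hβ : β ∈ derivedSet critB) (δ : ℝ) (hδ : 0 < δ) (n₀ : ℕ) :
    ∃ G : FinGraph, n₀ ≤ G.v ∧ G.G.Connected ∧ (β - δ) * (G.v : ℝ) ≤ (ecount G.G : ℝ) ∧
      ∀ H : FinGraph, IsMinor H.G G.G → (ecount H.G : ℝ) ≤ β * (H.v : ℝ) + 1 := by
  classical
  -- `β ≥ 0`
  have hnn : critB ⊆ Set.Ici 0 := by
    rintro b ⟨A, hA, hb⟩
    obtain ⟨G, hG⟩ := hA.nonempty
    exact le_trans (div_nonneg (Nat.cast_nonneg _) (Nat.cast_nonneg _))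
      (hb.1 (Set.mem_image_of_mem _ hG))
  have hβ0 : 0 ≤ β := by
    have h1 : β ∈ closure critB := derivedSet_subset_closure _ hβ
    exact (isClosed_Ici.closure_subset_iff.2 hnn) h1
  set N := max n₀ 1 with hNdef
  have hN : 0 < N := lt_of_lt_of_le Nat.one_pos (le_max_right _ _)
  have hN' : (0 : ℝ) < N := by exact_mod_cast hN
  obtain ⟨η, hη0, hη⟩ := discrete β N
  set e0 : ℝ := min δ (η / N) with he0
  have he0pos : 0 < e0 := lt_min hδ (div_pos hη0 hN')
  obtain ⟨b, hbB, hbne, hbd⟩ : ∃ b ∈ critB, b ≠ β ∧ |b - β| < e0 := by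
    rw [mem_derivedSet, accPt_iff_frequently] at hβ
    have h1 : ∀ᶠ y in nhds β, |y - β| < e0 := by
      have := Metric.ball_mem_nhds β he0pos
      filter_upwards [this] with y hy
      rwa [Metric.mem_ball, Real.dist_eq] at hy
    obtain ⟨y, hy, hy2⟩ := (hβ.and_eventually h1).exists
    exact ⟨y, hy.2, hy.1, hy2⟩
  obtain ⟨A, hA, hAb⟩ := hbB
  have hdens : ∀ H ∈ A, (ecount H.G : ℝ) ≤ b * H.v := by
    intro H hH
    have h1 : H.density ≤ b := hAb.1 (Set.mem_image_of_mem _ hH)
    have hv : (0 : ℝ) < H.v := by exact_mod_cast H.pos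
    unfold FinGraph.density at h1
    rwa [div_le_iff₀ hv] at h1
  rcases lt_or_gt_of_ne hbne with hlt | hgt
  · -- `b < β`
    have hlt2 : β - e0 < b := by
      have := (abs_lt.1 hbd).1
      linarith
    obtain ⟨_, ⟨G, hGA, rfl⟩, hG⟩ := (lt_isLUB_iff hAb).1 hlt2
    set ρ := G.density with hρ
    have hGv : (0 : ℝ) < G.v := by exact_mod_cast G.pos
    obtain ⟨M, ⟨hMG, hMρ⟩, hmin⟩ := acc_min
      (fun M => IsMinor M.G G.G ∧ ρ * M.v ≤ ecount M.G) (fun M => M.v)
      ⟨G, IsMinor.refl _, by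
        rw [hρ, FinGraph.density, div_mul_cancel₀ _ hGv.ne']⟩
    have hMv : (0 : ℝ) < M.v := by exact_mod_cast M.pos
    have hMA : M ∈ A := hA.closed G hGA M hMG
    refine ⟨M, ?_, ?_, ?_, ?_⟩
    · refine le_trans (le_max_left n₀ 1) (acc_large β η N hN hη M ?_ ?_)
      · have := hdens M hMA
        have h2 : b * M.v < β * M.v := mul_lt_mul_of_pos_right hlt hMv
        intro h
        linarith
      · have h1 := hdens M hMA
        have h2 : b * M.v < β * M.v := mul_lt_mul_of_pos_right hlt hMv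
        have h3 : (β - e0) * M.v < ρ * M.v := mul_lt_mul_of_pos_right hG hMv
        have h4 : e0 * M.v ≤ η / N * M.v :=
          mul_le_mul_of_nonneg_right (min_le_right _ _) hMv.le
        rw [abs_lt]
        constructor <;> linarith
    · by_contra hc
      obtain ⟨M₁, M₂, h1, h2, hv, he⟩ := acc_split M hc
      have hv' : (M₁.v : ℝ) + M₂.v = M.v := by exact_mod_cast hv
      have he' : (ecount M.G : ℝ) ≤ ecount M₁.G + ecount M₂.G := by exact_mod_cast he
      have p1 := M₁.pos
      have p2 := M₂.pos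
      by_cases hc1 : ρ * M₁.v ≤ ecount M₁.G
      · have := hmin M₁ ⟨h1.trans hMG, hc1⟩
        omega
      · have hc2 : ρ * M₂.v ≤ ecount M₂.G := by
          push Not at hc1
          have : ρ * M.v = ρ * M₁.v + ρ * M₂.v := by rw [← hv']; ring
          linarith
        have := hmin M₂ ⟨h2.trans hMG, hc2⟩
        omega
    · have h3 : (β - e0) * M.v < ρ * M.v := mul_lt_mul_of_pos_right hG hMv
      have h4 : e0 * M.v ≤ δ * M.v := mul_le_mul_of_nonneg_right (min_le_left _ _) hMv.le
      linarith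
    · intro H hH
      have h1 := hdens H (hA.closed M hMA H hH)
      have hHv : (0 : ℝ) < H.v := by exact_mod_cast H.pos
      have h2 : b * H.v < β * H.v := mul_lt_mul_of_pos_right hlt hHv
      linarith
  · -- `b > β`
    obtain ⟨_, ⟨G, hGA, rfl⟩, hG⟩ := (lt_isLUB_iff hAb).1 hgt
    have hGv : (0 : ℝ) < G.v := by exact_mod_cast G.pos
    obtain ⟨M, ⟨hMG, hMβ⟩, hmin⟩ := acc_min
      (fun M => IsMinor M.G G.G ∧ β * M.v < ecount M.G) (fun M => M.v + ecount M.G)
      ⟨G, IsMinor.refl _, by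
        rwa [FinGraph.density, lt_div_iff₀ hGv] at hG⟩
    have hMv : (0 : ℝ) < M.v := by exact_mod_cast M.pos
    have hMA : M ∈ A := hA.closed G hGA M hMG
    have hMe : 0 < ecount M.G := by
      have : (0 : ℝ) < ecount M.G := lt_of_le_of_lt (mul_nonneg hβ0 hMv.le) hMβ
      exact_mod_cast this
    have hM1 : (ecount M.G : ℝ) ≤ β * M.v + 1 := by
      obtain ⟨M', h1, hv, he⟩ := acc_delete M hMe
      by_contra hc
      push Not at hc
      have he' : (ecount M'.G : ℝ) + 1 = ecount M.G := by exact_mod_cast he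
      have hv' : (M'.v : ℝ) = M.v := by exact_mod_cast hv
      have hx : β * M'.v = β * M.v := by rw [hv']
      have := hmin M' ⟨h1.trans hMG, by linarith⟩
      omega
    refine ⟨M, ?_, ?_, ?_, ?_⟩
    · refine le_trans (le_max_left n₀ 1) (acc_large β η N hN hη M ?_ ?_)
      · intro h
        linarith
      · have h1 := hdens M hMA
        have h2 : b * M.v < (β + e0) * M.v :=
          mul_lt_mul_of_pos_right (by have := (abs_lt.1 hbd).2; linarith) hMv
        have h4 : e0 * M.v ≤ η / N * M.v :=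
          mul_le_mul_of_nonneg_right (min_le_right _ _) hMv.le
        have h5 : 0 < e0 * M.v := mul_pos he0pos hMv
        rw [abs_lt]
        constructor <;> linarith
    · by_contra hc
      obtain ⟨M₁, M₂, h1, h2, hv, he⟩ := acc_split M hc
      have hv' : (M₁.v : ℝ) + M₂.v = M.v := by exact_mod_cast hv
      have he' : (ecount M.G : ℝ) ≤ ecount M₁.G + ecount M₂.G := by exact_mod_cast he
      have p1 := M₁.pos
      have p2 := M₂.pos
      have q1 := h1.ecount_le
      have q2 := h2.ecount_le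
      by_cases hc1 : β * M₁.v < ecount M₁.G
      · have := hmin M₁ ⟨h1.trans hMG, hc1⟩
        omega
      · have hc2 : β * M₂.v < ecount M₂.G := by
          push Not at hc1
          have : β * M.v = β * M₁.v + β * M₂.v := by rw [← hv']; ring
          linarith
        have := hmin M₂ ⟨h2.trans hMG, hc2⟩
        omega
    · have h4 : 0 < δ * M.v := mul_pos hδ hMv
      linarith
    · intro H hH
      by_contra hc
      push Not at hc
      have h1 : β * H.v < ecount H.G := by linarith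
      have h2 := hmin H ⟨hH.trans hMG, h1⟩
      have h3 := hH.card_le
      rw [Fintype.card_fin, Fintype.card_fin] at h3
      have h4 := hH.ecount_le
      have h5 : H.v = M.v := by omega
      have h6 : ecount H.G = ecount M.G := by omega
      have h5' : (H.v : ℝ) = M.v := by exact_mod_cast h5
      have h6' : (ecount H.G : ℝ) = ecount M.G := by exact_mod_cast h6
      have hx : β * H.v = β * M.v := by rw [h5']
      linarith

end Pool.Agent.W_MP_03ad1b_co
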