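import Pool.Agent.W_MP_03ad1b_co.Defs

/-!
# Disjoint bad parts of a connected graph can be glued in a tree-like way
-/

set_option autoImplicit false

namespace Pool.Agent.W_MP_03ad1b_co

section
variable {V : Type}

theorem bad_fib_mono {G : SimpleGraph V} {f h : V → Option V}
    (H : ∀ u v, f u = f v → f u ≠ none → h u = h v ∧ h u ≠ none) : fib G f ≤ fib G h := by
  intro u v huv
  obtain ⟨h1, h2, h3⟩ := huv
  exact ⟨h1, (H u v h2 h3).1, (H u v h2 h3).2⟩

theorem bad_mem_lab [Fintype V] (f : V → Option V) (z : V) : z ∈ lab f ↔ f z = some z := by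
  classical
  simp [lab]

/-- there is a labeling with support `A` and value at least `b` -/
def BadBd [Fintype V] (G : SimpleGraph V) (β : ℝ) (A : Set V) (b : ℝ) : Prop :=
  ∃ f : V → Option V, Model G f ∧ (∀ x, f x ≠ none ↔ x ∈ A) ∧
    b ≤ (ecount (quot G f) : ℝ) - β * (((lab f).card : ℝ) - 1)

theorem bad_merge [Fintype V] {G : SimpleGraph V} {β : ℝ} (hβ : 0 ≤ β) {A A' : Set V} {b b' : ℝ}
    (hA : BadBd G β A b) (hA' : BadBd G β A' b') (hd : Disjoint A A') {a a' : V} (ha : a ∈ A)
    (ha' : a' ∈ A') (hadj : G.Adj a a') : BadBd G β (A ∪ A') (b + b') := by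
  classical
  obtain ⟨f, hf, hs, hb⟩ := hA
  obtain ⟨f', hf', hs', hb'⟩ := hA'
  have hdis : ∀ x, x ∈ A → x ∉ A' := fun x hx hx' => (Set.disjoint_left.1 hd) hx hx'
  obtain ⟨y, hy⟩ : ∃ y, f a = some y := Option.ne_none_iff_exists'.1 ((hs a).2 ha)
  obtain ⟨y', hy'⟩ : ∃ y', f' a' = some y' := Option.ne_none_iff_exists'.1 ((hs' a').2 ha')
  have hyA : y ∈ A := (hs y).1 (by rw [hf.idem a y hy]; simp)
  have hyA' : y' ∈ A' := (hs' y').1 (by rw [hf'.idem a' y' hy']; simp)
  set h : V → Option V := fun x => if x ∈ A then f x else if f' x = some y' then some y else f' x with hh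
  have h_in : ∀ x, x ∈ A → h x = f x := fun x hx => by simp [hh, hx]
  have h_y' : ∀ x, x ∉ A → f' x = some y' → h x = some y := fun x hx hx' => by simp [hh, hx, hx']
  have h_out : ∀ x, x ∉ A → f' x ≠ some y' → h x = f' x := fun x hx hx' => by simp [hh, hx, hx']
  have hA_of : ∀ x z, f x = some z → x ∈ A := fun x z hx => (hs x).1 (by rw [hx]; simp)
  have hA'_of : ∀ x z, f' x = some z → x ∈ A' := fun x z hx => (hs' x).1 (by rw [hx]; simp)
  have hnA : ∀ x, x ∈ A' → x ∉ A := fun x hx hx' => hdis x hx' hx
  have m1 : fib G f ≤ fib G h := by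
    refine bad_fib_mono fun u v huv hu => ?_
    have hu' : u ∈ A := (hs u).1 hu
    have hv' : v ∈ A := (hs v).1 (huv ▸ hu)
    rw [h_in u hu', h_in v hv']
    exact ⟨huv, hu⟩
  have m2 : fib G f' ≤ fib G h := by
    refine bad_fib_mono fun u v huv hu => ?_
    have hu' : u ∉ A := hnA u ((hs' u).1 hu)
    have hv' : v ∉ A := hnA v ((hs' v).1 (huv ▸ hu))
    by_cases hc : f' u = some y'
    · rw [h_y' u hu' hc, h_y' v hv' (huv ▸ hc)]
      simp
    · rw [h_out u hu' hc, h_out v hv' (huv ▸ hc)]
      exact ⟨huv, hu⟩
  have hmod : Model G h := by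
    constructor
    · intro x z hx
      by_cases hxA : x ∈ A
      · rw [h_in x hxA] at hx
        have := hf.idem x z hx
        rw [h_in z (hA_of z z this)]
        exact this
      · by_cases hc : f' x = some y'
        · rw [h_y' x hxA hc] at hx
          have hz : y = z := Option.some.inj hx
          rw [← hz, h_in y hyA]
          exact hf.idem a y hy
        · rw [h_out x hxA hc] at hx
          have h1 := hf'.idem x z hx
          have h2 : z ∉ A := hnA z (hA'_of z z h1)
          have h3 : f' z ≠ some y' := by
            rw [h1]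
            intro h4
            rw [Option.some.inj h4] at hx
            exact hc hx
          rw [h_out z h2 h3]
          exact h1
    · intro x z hx
      by_cases hxA : x ∈ A
      · rw [h_in x hxA] at hx
        exact (hf.conn x z hx).mono m1
      · by_cases hc : f' x = some y'
        · rw [h_y' x hxA hc] at hx
          have hz : y = z := Option.some.inj hx
          rw [← hz]
          have r1 : (fib G h).Reachable x y' := (hf'.conn x y' hc).mono m2
          have r2 : (fib G h).Reachable y' a' := ((hf'.conn a' y' hy').mono m2).symm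
          have r3 : (fib G h).Adj a' a := by
            refine ⟨hadj.symm, ?_, ?_⟩
            · rw [h_y' a' (hnA a' ha') hy', h_in a ha, hy]
            · rw [h_y' a' (hnA a' ha') hy']
              simp
          have r4 : (fib G h).Reachable a y := (hf.conn a y hy).mono m1
          exact ((r1.trans r2).trans r3.reachable).trans r4
        · rw [h_out x hxA hc] at hx
          exact (hf'.conn x z hx).mono m2
  have hsupp : ∀ x, h x ≠ none ↔ x ∈ A ∪ A' := by
    intro x
    by_cases hxA : x ∈ A
    · rw [h_in x hxA]
      exact ⟨fun _ => Or.inl hxA, fun _ => (hs x).2 hxA⟩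
    · by_cases hc : f' x = some y'
      · rw [h_y' x hxA hc]
        exact ⟨fun _ => Or.inr (hA'_of x y' hc), fun _ => by simp⟩
      · rw [h_out x hxA hc, hs' x]
        exact ⟨fun h1 => Or.inr h1, fun h1 => h1.resolve_left hxA⟩
  have hlab : (lab h).card + 1 ≤ (lab f).card + (lab f').card := by
    have h1 : lab h ⊆ lab f ∪ (lab f').erase y' := by
      intro z hz
      rw [bad_mem_lab] at hz
      rw [Finset.mem_union, Finset.mem_erase, bad_mem_lab, bad_mem_lab]
      by_cases hzA : z ∈ A
      · rw [h_in z hzA] at hz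
        exact Or.inl hz
      · by_cases hc : f' z = some y'
        · rw [h_y' z hzA hc] at hz
          exact absurd (Option.some.inj hz ▸ hyA) hzA
        · rw [h_out z hzA hc] at hz
          refine Or.inr ⟨?_, hz⟩
          rintro rfl
          exact hc hz
    have h2 : y' ∈ lab f' := (bad_mem_lab _ _).2 (hf'.idem a' y' hy')
    have h3 := Finset.card_erase_add_one h2
    have h4 := (Finset.card_le_card h1).trans (Finset.card_union_le _ _)
    omega
  have hedge : ecount (quot G f) + ecount (quot G f') ≤ ecount (quot G h) := by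
    have hyy' : y ∉ A' := hdis y hyA
    have hlabA : ∀ u v, (quot G f).Adj u v → u ∈ A := by
      rintro u v ⟨_, c, _, hc, _, _⟩
      have := hf.idem c u hc
      exact hA_of u u this
    have hlabA' : ∀ u v, (quot G f').Adj u v → f' u = some u := by
      rintro u v ⟨_, c, _, hc, _, _⟩
      exact hf'.idem c u hc
    -- the label of a vertex in `A'`
    have hφ : ∀ c u, f' c = some u → h c = some (Equiv.swap y y' u) := by
      intro c u hc
      have hcA : c ∉ A := hnA c (hA'_of c u hc)
      by_cases hu : u = y'
      · subst hu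
        rw [h_y' c hcA hc, Equiv.swap_apply_right]
      · have hne : f' c ≠ some y' := by
          rw [hc]
          intro h1
          exact hu (Option.some.inj h1)
        have huy : u ≠ y := by
          rintro rfl
          exact hyy' (hA'_of u u (hf'.idem c u hc))
        rw [h_out c hcA hne, hc, Equiv.swap_apply_of_ne_of_ne huy hu]
    have s1 : (quot G f).edgeSet ⊆ (quot G h).edgeSet := by
      rw [SimpleGraph.edgeSet_subset_edgeSet]
      rintro u v ⟨huv, c, c', hc, hc', hcc⟩
      refine ⟨huv, c, c', ?_, ?_, hcc⟩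
      · rw [h_in c (hA_of c u hc)]
        exact hc
      · rw [h_in c' (hA_of c' v hc')]
        exact hc'
    have s2 : Sym2.map (Equiv.swap y y') '' (quot G f').edgeSet ⊆ (quot G h).edgeSet := by
      rintro _ ⟨e, he, rfl⟩
      induction e using Sym2.ind with
      | _ u v =>
        rw [SimpleGraph.mem_edgeSet] at he
        rw [Sym2.map_mk, SimpleGraph.mem_edgeSet]
        obtain ⟨huv, c, c', hc, hc', hcc⟩ := he
        exact ⟨fun h1 => huv ((Equiv.swap y y').injective h1), c, c', hφ c u hc, hφ c' v hc', hcc⟩
    have s3 : Disjoint (quot G f).edgeSet (Sym2.map (Equiv.swap y y') '' (quot G f').edgeSet) := by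
      rw [Set.disjoint_left]
      rintro _ h1 ⟨e, he, rfl⟩
      induction e using Sym2.ind with
      | _ u v =>
        rw [SimpleGraph.mem_edgeSet] at he
        rw [Sym2.map_mk, SimpleGraph.mem_edgeSet] at h1
        have k1 := hlabA _ _ h1
        have k2 := hlabA _ _ h1.symm
        have key : ∀ w, f' w = some w → w ≠ y' → (Equiv.swap y y' w) ∉ A := by
          intro w hw hwy
          have hwA : w ∈ A' := hA'_of w w hw
          have hwy2 : w ≠ y := by
            rintro rfl
            exact hyy' hwA
          rw [Equiv.swap_apply_of_ne_of_ne hwy2 hwy]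
          exact hnA w hwA
        by_cases hu : u = y'
        · have hv : v ≠ y' := by
            rintro rfl
            exact he.ne hu
          exact key v (hlabA' v u he.symm) hv k2
        · exact key u (hlabA' u v he) hu k1
    unfold ecount
    have s4 : (Sym2.map (Equiv.swap y y') '' (quot G f').edgeSet).ncard = (quot G f').edgeSet.ncard :=
      Set.ncard_image_of_injective _ (Sym2.map.injective (Equiv.swap y y').injective)
    rw [← s4, ← Set.ncard_union_eq s3 (Set.toFinite _) (Set.toFinite _)]
    exact Set.ncard_le_ncard (Set.union_subset s1 s2) (Set.toFinite _)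
  refine ⟨h, hmod, hsupp, ?_⟩
  have e1 : (ecount (quot G f) : ℝ) + ecount (quot G f') ≤ ecount (quot G h) := by exact_mod_cast hedge
  have e2 : ((lab h).card : ℝ) + 1 ≤ (lab f).card + (lab f').card := by exact_mod_cast hlab
  have e3 : β * (((lab h).card : ℝ) + 1) ≤ β * ((lab f).card + (lab f').card) :=
    mul_le_mul_of_nonneg_left e2 hβ
  linarith

/-- a labeling inside a connected part can be extended to the whole part -/
theorem bad_span [Fintype V] {G : SimpleGraph V} {β : ℝ} {g : V → V}
    (hg : Model G (fun x => some (g x))) {i : V} {b : ℝ} (n : ℕ) :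
    ∀ f : V → Option V, Model G f → (∀ x, f x ≠ none → g x = i) → (lab f).Nonempty →
      b ≤ (ecount (quot G f) : ℝ) - β * (((lab f).card : ℝ) - 1) →
      {x | g x = i ∧ f x = none}.ncard = n → BadBd G β {x | g x = i} b := by
  classical
  induction n with
  | zero =>
    intro f hf hsup hne hb hn
    refine ⟨f, hf, fun x => ⟨fun hx => hsup x hx, fun hx hnone => ?_⟩, hb⟩
    rw [Set.ncard_eq_zero (Set.toFinite _)] at hn
    have : x ∈ {x | g x = i ∧ f x = none} := ⟨hx, hnone⟩
    rw [hn] at this
    exact this
  | succ n ih =>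
    intro f hf hsup hne hb hn
    obtain ⟨x0, hx0, hx0'⟩ : {x | g x = i ∧ f x = none}.Nonempty := by
      rw [← Set.ncard_pos (Set.toFinite _), hn]
      omega
    obtain ⟨y0, hy0⟩ := hne
    rw [bad_mem_lab] at hy0
    have hgy0 : g y0 = i := hsup y0 (by rw [hy0]; simp)
    have r1 : (fib G (fun x => some (g x))).Reachable y0 i := hg.conn y0 i (by rw [hgy0])
    have r2 : (fib G (fun x => some (g x))).Reachable x0 i := hg.conn x0 i (by rw [hx0])
    obtain ⟨p⟩ := r1.trans r2.symm
    obtain ⟨dt, hdt, hd1, hd2⟩ := p.exists_boundary_dart {x | g x = i ∧ f x ≠ none}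
      ⟨hgy0, by rw [hy0]; simp⟩ (fun h => h.2 hx0')
    obtain ⟨hu1, hu2⟩ := hd1
    set u := dt.fst with hu
    set v := dt.snd with hv
    have hadj : (fib G (fun x => some (g x))).Adj u v := dt.adj
    obtain ⟨hG, hguv, _⟩ := hadj
    have hgv : g v = i := by
      rw [← hu1]
      exact (Option.some.inj hguv).symm
    have hfv : f v = none := by
      by_contra hcon
      exact hd2 ⟨hgv, hcon⟩
    obtain ⟨z, hz⟩ := Option.ne_none_iff_exists'.1 hu2
    set f1 : V → Option V := Function.update f v (some z) with hf1
    have f1v : f1 v = some z := by simp [hf1]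
    have f1o : ∀ x, x ≠ v → f1 x = f x := fun x hx => by simp [hf1, hx]
    have hzv : z ≠ v := by
      intro h1
      have h2 := hf.idem u z hz
      rw [h1, hfv] at h2
      simp at h2
    have hnv : ∀ x w, f x = some w → x ≠ v := by
      intro x w hxw h1
      rw [h1, hfv] at hxw
      simp at hxw
    have m1 : fib G f ≤ fib G f1 := by
      refine bad_fib_mono fun s t hst hs => ?_
      obtain ⟨w, hw⟩ := Option.ne_none_iff_exists'.1 hs
      rw [f1o s (hnv s w hw), f1o t (hnv t w (hst ▸ hw))]
      exact ⟨hst, hs⟩
    have huv : u ≠ v := hnv u z hz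
    have hmod : Model G f1 := by
      constructor
      · intro x w hx
        by_cases hxv : x = v
        · rw [hxv, f1v] at hx
          rw [← Option.some.inj hx, f1o z hzv]
          exact hf.idem u z hz
        · rw [f1o x hxv] at hx
          have h1 := hf.idem x w hx
          rw [f1o w (hnv w w h1)]
          exact h1
      · intro x w hx
        by_cases hxv : x = v
        · rw [hxv, f1v] at hx
          rw [← Option.some.inj hx, hxv]
          have h1 : (fib G f1).Adj v u := by
            refine ⟨hG.symm, ?_, ?_⟩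
            · rw [f1v, f1o u huv, hz]
            · rw [f1v]
              simp
          exact h1.reachable.trans ((hf.conn u z hz).mono m1)
        · rw [f1o x hxv] at hx
          exact (hf.conn x w hx).mono m1
    have hlab : lab f1 = lab f := by
      ext w
      rw [bad_mem_lab, bad_mem_lab]
      by_cases hwv : w = v
      · rw [hwv, f1v, hfv]
        constructor
        · intro h1
          exact absurd (Option.some.inj h1) hzv
        · intro h1
          simp at h1
      · rw [f1o w hwv]
    have hq : quot G f ≤ quot G f1 := by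
      rintro s t ⟨hst, c, c', hc, hc', hcc⟩
      refine ⟨hst, c, c', ?_, ?_, hcc⟩
      · rw [f1o c (hnv c s hc)]
        exact hc
      · rw [f1o c' (hnv c' t hc')]
        exact hc'
    have he : ecount (quot G f) ≤ ecount (quot G f1) :=
      Set.ncard_le_ncard (SimpleGraph.edgeSet_subset_edgeSet.2 hq) (Set.toFinite _)
    refine ih f1 hmod ?_ ?_ ?_ ?_
    · intro x hx
      by_cases hxv : x = v
      · rw [hxv]
        exact hgv
      · rw [f1o x hxv] at hx
        exact hsup x hx
    · rw [hlab]
      exact ⟨y0, (bad_mem_lab _ _).2 hy0⟩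
    · rw [hlab]
      have : (ecount (quot G f) : ℝ) ≤ ecount (quot G f1) := by exact_mod_cast he
      linarith
    · have h1 : {x | g x = i ∧ f x = none} = insert v {x | g x = i ∧ f1 x = none} := by
        ext x
        simp only [Set.mem_insert_iff]
        constructor
        · rintro ⟨h1, h2⟩
          by_cases hxv : x = v
          · exact Or.inl hxv
          · right
            refine ⟨h1, ?_⟩
            rw [f1o x hxv]
            exact h2
        · rintro (h1 | ⟨h1, h2⟩)
          · rw [h1]
            exact ⟨hgv, hfv⟩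
          · refine ⟨h1, ?_⟩
            by_cases hxv : x = v
            · rw [hxv]
              exact hfv
            · rw [f1o x hxv] at h2
              exact h2
      have h2 : v ∉ {x | g x = i ∧ f1 x = none} := by
        rintro ⟨_, h2⟩
        rw [f1v] at h2
        simp at h2
      rw [h1, Set.ncard_insert_of_notMem h2 (Set.toFinite _)] at hn
      omega

theorem bad_single [Fintype V] {G : SimpleGraph V} {β : ℝ} {g : V → V}
    (hg : Model G (fun x => some (g x))) {i : V} (hi : g i = i) :
    BadBd G β {x | g x = i} 0 := by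
  classical
  set f : V → Option V := fun x => if x = i then some i else none with hf
  have f1 : f i = some i := by simp [hf]
  have f2 : ∀ x w, f x = some w → x = i ∧ w = i := by
    intro x w hx
    by_cases hxi : x = i
    · refine ⟨hxi, ?_⟩
      rw [hxi, f1] at hx
      exact (Option.some.inj hx).symm
    · simp [hf, hxi] at hx
  have hlab : lab f = {i} := by
    ext w
    rw [bad_mem_lab, Finset.mem_singleton]
    constructor
    · intro h
      exact (f2 w w h).1
    · rintro rfl
      exact f1
  refine bad_span hg _ f ⟨?_, ?_⟩ ?_ ?_ ?_ rfl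
  · intro x w hx
    rw [(f2 x w hx).2]
    exact f1
  · intro x w hx
    rw [(f2 x w hx).1, (f2 x w hx).2]
  · intro x hx
    obtain ⟨w, hw⟩ := Option.ne_none_iff_exists'.1 hx
    rw [(f2 x w hw).1]
    exact hi
  · rw [hlab]
    simp
  · rw [hlab]
    simp

theorem bad_grow [Fintype V] [DecidableEq V] {G : SimpleGraph V} {β : ℝ} (hβ : 0 ≤ β) (hG : G.Connected) {g : V → V}
    (hg : ∀ x, g (g x) = g x) (b : V → ℝ) (hb : ∀ i, g i = i → BadBd G β {x | g x = i} (b i))
    (L : Finset V) (hL : ∀ i, i ∈ L ↔ g i = i) (n : ℕ) :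
    ∀ S : Finset V, S ⊆ L → S.Nonempty → BadBd G β {x | g x ∈ S} (∑ i ∈ S, b i) →
      (L \ S).card = n → BadBd G β Set.univ (∑ i ∈ L, b i) := by
  classical
  induction n with
  | zero =>
    intro S hS hne hbd hn
    rw [Finset.card_eq_zero, Finset.sdiff_eq_empty_iff_subset] at hn
    have hSL : S = L := Finset.Subset.antisymm hS hn
    rw [hSL] at hbd
    have h1 : {x | g x ∈ L} = Set.univ := by
      ext x
      simp only [Set.mem_univ, iff_true]
      exact (hL (g x)).2 (hg x)
    rw [h1] at hbd
    exact hbd
  | succ n ih =>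
    intro S hS hne hbd hn
    obtain ⟨j, hj⟩ : (L \ S).Nonempty := by
      rw [← Finset.card_pos, hn]
      omega
    rw [Finset.mem_sdiff] at hj
    obtain ⟨s, hs⟩ := hne
    have hgs : g s = s := (hL s).1 (hS hs)
    have hgj : g j = j := (hL j).1 hj.1
    obtain ⟨p⟩ := hG.preconnected s j
    obtain ⟨dt, hdt, hd1, hd2⟩ := p.exists_boundary_dart {x | g x ∈ S}
      (by change g s ∈ S; rw [hgs]; exact hs) (by change g j ∉ S; rw [hgj]; exact hj.2)
    change g dt.fst ∈ S at hd1
    change g dt.snd ∉ S at hd2
    set k := g dt.snd with hk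
    have hkL : k ∈ L := (hL k).2 (hg _)
    have hgk : g k = k := (hL k).1 hkL
    have hmerge : BadBd G β ({x | g x ∈ S} ∪ {x | g x = k}) ((∑ i ∈ S, b i) + b k) := by
      refine bad_merge hβ hbd (hb k hgk) ?_ (a := dt.fst) (a' := dt.snd) hd1 hk.symm dt.adj
      rw [Set.disjoint_left]
      intro x hx hx'
      have h1 : g x ∈ S := hx
      have h2 : g x = k := hx'
      rw [h2] at h1
      exact hd2 h1
    refine ih (insert k S) ?_ ⟨k, Finset.mem_insert_self _ _⟩ ?_ ?_
    · intro x hx
      rcases Finset.mem_insert.1 hx with rfl | hx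
      · exact hkL
      · exact hS hx
    · have h1 : {x | g x ∈ insert k S} = {x | g x ∈ S} ∪ {x | g x = k} := by
        ext x
        change g x ∈ insert k S ↔ (g x ∈ S ∨ g x = k)
        rw [Finset.mem_insert, or_comm]
      rw [h1, Finset.sum_insert hd2, add_comm]
      exact hmerge
    · have h1 : L \ insert k S = (L \ S).erase k := by
        ext x
        simp only [Finset.mem_sdiff, Finset.mem_insert, Finset.mem_erase, not_or]
        tauto
      have h2 : k ∈ L \ S := Finset.mem_sdiff.2 ⟨hkL, hd2⟩
      rw [h1, Finset.card_erase_of_mem h2, hn]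
      omega

end

/-- A connected sparse graph has few disjoint connected parts which have a bad minor. -/
theorem bad_count (β : ℝ) (hβ : 1 ≤ β) (η : ℝ) {V : Type} [Fintype V] (G : SimpleGraph V)
    (hG : G.Connected) (hS : Sparse β G) (g : V → V) (hg : Model G (fun x => some (g x)))
    (I : Finset V) (hI : ∀ i ∈ I, g i = i)
    (hbad : ∀ i ∈ I, ∃ f, Model G f ∧ (∀ x, f x ≠ none → g x = i) ∧ (lab f).Nonempty ∧
      η ≤ (ecount (quot G f) : ℝ) - β * (((lab f).card : ℝ) - 1)) :
    (I.card : ℝ) * η ≤ 1 + β := by
  classical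
  have hβ0 : 0 ≤ β := by linarith
  have hgg : ∀ x, g (g x) = g x := fun x => Option.some.inj (hg.idem x (g x) rfl)
  set b : V → ℝ := fun i => if i ∈ I then η else 0 with hb
  have hbd : ∀ i, g i = i → BadBd G β {x | g x = i} (b i) := by
    intro i hi
    by_cases hiI : i ∈ I
    · obtain ⟨f, h1, h2, h3, h4⟩ := hbad i hiI
      have hbi : b i = η := by simp [hb, hiI]
      rw [hbi]
      exact bad_span hg _ f h1 h2 h3 h4 rfl
    · have hbi : b i = 0 := by simp [hb, hiI]
      rw [hbi]
      exact bad_single hg hi
  set L : Finset V := Finset.univ.filter fun i => g i = i with hL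
  have hLm : ∀ i, i ∈ L ↔ g i = i := fun i => by simp [hL]
  obtain ⟨x0⟩ := hG.nonempty
  have hstart : BadBd G β {x | g x ∈ ({g x0} : Finset V)} (∑ i ∈ {g x0}, b i) := by
    have h1 : {x | g x ∈ ({g x0} : Finset V)} = {x | g x = g x0} := by
      ext x
      change g x ∈ ({g x0} : Finset V) ↔ g x = g x0
      rw [Finset.mem_singleton]
    rw [h1, Finset.sum_singleton]
    exact hbd _ (hgg x0)
  obtain ⟨f, hf, _, hfb⟩ := bad_grow hβ0 hG hgg b hbd L hLm _ {g x0}
    (by
      intro x hx
      rw [Finset.mem_singleton] at hx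
      rw [hx]
      exact (hLm _).2 (hgg x0)) ⟨g x0, Finset.mem_singleton_self _⟩ hstart rfl
  have hsum : ∑ i ∈ L, b i = (I.card : ℝ) * η := by
    have h1 : L.filter (fun i => i ∈ I) = I := by
      ext i
      rw [Finset.mem_filter, hLm]
      exact ⟨fun h => h.2, fun h => ⟨hI i h, h⟩⟩
    rw [hb, ← Finset.sum_filter, h1, Finset.sum_const, nsmul_eq_mul]
  rw [hsum] at hfb
  have h2 := hS f hf
  linarith

end Pool.Agent.W_MP_03ad1b_co
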