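import Pool.Agent.W_MP_03ad1b_co.Minor

/-!
# The class of the graphs all of whose minors satisfy `e ≤ β (v - 1)`
-/

set_option autoImplicit false

namespace Pool.Agent.W_MP_03ad1b_co

/-- The class of the graphs all of whose minors `H` satisfy `e(H) ≤ β (v(H) - 1)`. -/
def classC (β : ℝ) : Set FinGraph :=
  {G | ∀ H : FinGraph, IsMinor H.G G.G → (ecount H.G : ℝ) ≤ β * ((H.v : ℝ) - 1)}

theorem ClassC_ecount_le_choose {n : ℕ} (G : SimpleGraph (Fin n)) : ecount G ≤ n.choose 2 := by
  classical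
  unfold ecount
  rw [← SimpleGraph.coe_edgeFinset, Set.ncard_coe_finset]
  simpa using G.card_edgeFinset_le_card_choose_two

theorem ClassC_ecount_top (n : ℕ) : ecount (⊤ : SimpleGraph (Fin n)) = n.choose 2 := by
  classical
  unfold ecount
  rw [← SimpleGraph.coe_edgeFinset, Set.ncard_coe_finset]
  simpa using SimpleGraph.card_edgeFinset_top_eq_card_choose_two (V := Fin n)

theorem ClassC_split {V : Type} (G : SimpleGraph V) [Nonempty V] (h : ¬ G.Connected) :
    ∃ S : Set V, S.Nonempty ∧ Sᶜ.Nonempty ∧ ∀ a b, G.Adj a b → (a ∈ S ↔ b ∈ S) := by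
  have h1 : ¬ G.Preconnected := fun h2 => h ⟨h2⟩
  unfold SimpleGraph.Preconnected at h1
  push Not at h1
  obtain ⟨a, b, hab⟩ := h1
  refine ⟨{y | G.Reachable a y}, ⟨a, SimpleGraph.Reachable.refl a⟩, ⟨b, hab⟩, ?_⟩
  intro x y hxy
  exact ⟨fun hx => hx.trans hxy.reachable, fun hy => hy.trans hxy.symm.reachable⟩

theorem ClassC_ecount_cover {V : Type} [Fintype V] (G : SimpleGraph V) (A B : Set V)
    (h : ∀ a b, G.Adj a b → (a ∈ A ∧ b ∈ A) ∨ (a ∈ B ∧ b ∈ B)) :
    ecount G ≤ ecount (G.induce A) + ecount (G.induce B) := by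
  classical
  unfold ecount
  have h1 : G.edgeSet ⊆ (Sym2.map (Subtype.val : A → V)) '' (G.induce A).edgeSet ∪
      (Sym2.map (Subtype.val : B → V)) '' (G.induce B).edgeSet := by
    intro e
    induction e using Sym2.ind with
    | _ a b =>
      intro he
      rw [SimpleGraph.mem_edgeSet] at he
      rcases h a b he with ⟨ha, hb⟩ | ⟨ha, hb⟩
      · left
        refine ⟨s(⟨a, ha⟩, ⟨b, hb⟩), ?_, rfl⟩
        rw [SimpleGraph.mem_edgeSet]
        exact he
      · right
        refine ⟨s(⟨a, ha⟩, ⟨b, hb⟩), ?_, rfl⟩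
        rw [SimpleGraph.mem_edgeSet]
        exact he
  calc G.edgeSet.ncard ≤ _ := Set.ncard_le_ncard h1 (Set.toFinite _)
    _ ≤ _ := Set.ncard_union_le _ _
    _ ≤ _ := Nat.add_le_add (Set.ncard_image_le (Set.toFinite _)) (Set.ncard_image_le (Set.toFinite _))

theorem classC_proper (β : ℝ) (hβ : 1 ≤ β) : ProperMinorClosed (classC β) := by
  refine ⟨⟨⟨1, one_pos, ⊥⟩, ?_⟩, ?_, ?_⟩
  · intro H hH
    have h1 := hH.card_le
    have h2 := hH.ecount_le
    simp only [Fintype.card_fin] at h1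
    have h3 : ecount (⊥ : SimpleGraph (Fin 1)) = 0 := by simp [ecount]
    have h4 := H.pos
    have h5 : H.v = 1 := by omega
    have h6 : ecount H.G = 0 := by
      have : ecount H.G ≤ ecount (⊥ : SimpleGraph (Fin 1)) := h2
      omega
    rw [h6, h5]
    simp
  · intro h
    obtain ⟨m, hm⟩ := exists_nat_gt (2 * β)
    have hm1 : (2 : ℝ) < m := by linarith
    have hm2 : 2 < m := by exact_mod_cast hm1
    have h1 : (⟨m, by omega, ⊤⟩ : FinGraph) ∈ classC β := by
      rw [h]; trivial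
    have h2 := h1 ⟨m, by omega, ⊤⟩ (IsMinor.refl _)
    simp only [ClassC_ecount_top] at h2
    rw [Nat.cast_choose_two] at h2
    nlinarith
  · intro G hG H hHG K hK
    exact hG K (hK.trans hHG)

theorem ClassC_induce (β : ℝ) (M : FinGraph) (hM : IsExcludedMinor (classC β) M)
    (U : Set (Fin M.v)) (hU : U.Nonempty) (hU' : Uᶜ.Nonempty) :
    (ecount (M.G.induce U) : ℝ) ≤ β * ((U.ncard : ℝ) - 1) := by
  classical
  have hc : U.ncard < M.v := by
    have h1 := Set.ncard_add_ncard_compl U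
    have h2 : 0 < Uᶜ.ncard := (Set.ncard_pos (Set.toFinite _)).2 hU'
    rw [Nat.card_fin] at h1
    omega
  have hc0 : 0 < U.ncard := (Set.ncard_pos (Set.toFinite _)).2 hU
  have hcard : Nat.card U = U.ncard := rfl
  let e : U ≃ Fin U.ncard := Finite.equivFinOfCardEq hcard
  let H : FinGraph := ⟨U.ncard, hc0, (M.G.induce U).comap e.symm⟩
  let i : H.G ≃g M.G.induce U := SimpleGraph.Iso.comap e.symm (M.G.induce U)
  have h1 : IsMinor H.G M.G := (IsMinor.of_iso i).trans (IsMinor.of_le_induce le_rfl)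
  have h2 : ¬ Nonempty (H.G ≃g M.G) := by
    rintro ⟨j⟩
    have h3 := Fintype.card_congr j.toEquiv
    simp only [Fintype.card_fin] at h3
    have h4 : H.v = U.ncard := rfl
    omega
  have h3 := hM.2 H h1 h2 H (IsMinor.refl _)
  rw [ecount_iso i] at h3
  exact h3

theorem ClassC_big (β : ℝ) (M : FinGraph) (hM : IsExcludedMinor (classC β) M) :
    β * ((M.v : ℝ) - 1) < ecount M.G := by
  by_contra hcon
  apply hM.1
  intro H hH
  by_cases hi : Nonempty (H.G ≃g M.G)
  · obtain ⟨i⟩ := hi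
    rw [ecount_iso i]
    have h3 := Fintype.card_congr i.toEquiv
    simp only [Fintype.card_fin] at h3
    rw [h3]
    exact not_lt.1 hcon
  · exact hM.2 H hH hi H (IsMinor.refl _)

theorem classC_excluded (β : ℝ) (hβ : 1 ≤ β) (M : FinGraph)
    (hM : IsExcludedMinor (classC β) M) : TwoConnected M := by
  have hbig := ClassC_big β M hM
  have hv3 : 3 ≤ M.v := by
    by_contra hlt
    have h1 := ClassC_ecount_le_choose M.G
    have h0 := M.pos
    have h2 : M.v = 1 ∨ M.v = 2 := by omega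
    rcases h2 with h2 | h2
    · have h3 : ecount M.G ≤ 0 := h1.trans (by rw [h2]; decide)
      have h4 : (ecount M.G : ℝ) ≤ 0 := by exact_mod_cast h3
      have h5 : (M.v : ℝ) = 1 := by exact_mod_cast h2
      rw [h5] at hbig
      linarith
    · have h3 : ecount M.G ≤ 1 := h1.trans (by rw [h2]; decide)
      have h4 : (ecount M.G : ℝ) ≤ 1 := by exact_mod_cast h3
      have h5 : (M.v : ℝ) = 2 := by exact_mod_cast h2
      rw [h5] at hbig
      linarith
  refine ⟨hv3, ?_, ?_⟩
  · by_contra hcon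
    have : Nonempty (Fin M.v) := ⟨⟨0, M.pos⟩⟩
    obtain ⟨S, hS, hS', hadj⟩ := ClassC_split M.G hcon
    have h1 := ClassC_induce β M hM S hS hS'
    have h2 := ClassC_induce β M hM Sᶜ hS' (by rwa [compl_compl])
    have h3 := ClassC_ecount_cover M.G S Sᶜ (by
      intro a b hab
      by_cases ha : a ∈ S
      · exact Or.inl ⟨ha, (hadj a b hab).1 ha⟩
      · exact Or.inr ⟨ha, fun hb => ha ((hadj a b hab).2 hb)⟩)
    have h4 := Set.ncard_add_ncard_compl S
    rw [Nat.card_fin] at h4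
    have h5 : (ecount M.G : ℝ) ≤ ecount (M.G.induce S) + ecount (M.G.induce Sᶜ) := by
      exact_mod_cast h3
    have h6 : (S.ncard : ℝ) + Sᶜ.ncard = M.v := by exact_mod_cast h4
    have : β * ((M.v : ℝ) - 1) ≤ β * ((M.v : ℝ) - 1) := le_refl _
    nlinarith
  · intro x
    by_contra hcon
    have : Nonempty (({x}ᶜ : Set (Fin M.v))) := by
      have h1 : ∃ y : Fin M.v, y ≠ x := by
        have : Nontrivial (Fin M.v) := Fin.nontrivial_iff_two_le.2 (by omega)
        exact exists_ne x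
      obtain ⟨y, hy⟩ := h1
      exact ⟨⟨y, hy⟩⟩
    obtain ⟨S, hS, hS', hadj⟩ := ClassC_split _ hcon
    set T : Set (Fin M.v) := Subtype.val '' S with hT
    have hxT : x ∉ T := by
      rintro ⟨y, -, hy⟩
      exact y.2 hy
    obtain ⟨s, hs⟩ := hS
    obtain ⟨t, ht⟩ := hS'
    have hsT : (s : Fin M.v) ∈ T := ⟨s, hs, rfl⟩
    have htT : (t : Fin M.v) ∉ T := by
      rintro ⟨y, hy, hyt⟩
      have : y = t := Subtype.ext hyt
      exact ht (this ▸ hy)
    have h1 := ClassC_induce β M hM (insert x T) ⟨x, Or.inl rfl⟩ ⟨t, by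
      rintro (h | h)
      · exact t.2 h
      · exact htT h⟩
    have h2 := ClassC_induce β M hM Tᶜ ⟨x, hxT⟩ (by rw [compl_compl]; exact ⟨s, hsT⟩)
    have h3 := ClassC_ecount_cover M.G (insert x T) Tᶜ (by
      intro a b hab
      by_cases hax : a = x
      · subst hax
        by_cases hb : b ∈ T
        · exact Or.inl ⟨Or.inl rfl, Or.inr hb⟩
        · exact Or.inr ⟨hxT, hb⟩
      · by_cases hbx : b = x
        · subst hbx
          by_cases ha : a ∈ T
          · exact Or.inl ⟨Or.inr ha, Or.inl rfl⟩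
          · exact Or.inr ⟨ha, hxT⟩
        · have h4 := hadj ⟨a, hax⟩ ⟨b, hbx⟩ hab
          have h5 : ∀ c (hc : c ≠ x), c ∈ T ↔ (⟨c, hc⟩ : ({x}ᶜ : Set (Fin M.v))) ∈ S := by
            intro c hc
            constructor
            · rintro ⟨y, hy, hyc⟩
              have : y = ⟨c, hc⟩ := Subtype.ext hyc
              exact this ▸ hy
            · intro h
              exact ⟨_, h, rfl⟩
          by_cases ha : a ∈ T
          · exact Or.inl ⟨Or.inr ha, Or.inr ((h5 b hbx).2 (h4.1 ((h5 a hax).1 ha)))⟩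
          · refine Or.inr ⟨ha, fun hb => ha ?_⟩
            exact (h5 a hax).2 (h4.2 ((h5 b hbx).1 hb)))
    have h4 := Set.ncard_add_ncard_compl T
    rw [Nat.card_fin] at h4
    have h4' : (insert x T).ncard = T.ncard + 1 := Set.ncard_insert_of_notMem hxT (Set.toFinite _)
    have h5 : (ecount M.G : ℝ) ≤ ecount (M.G.induce (insert x T)) + ecount (M.G.induce Tᶜ) := by
      exact_mod_cast h3
    have h6 : (T.ncard : ℝ) + Tᶜ.ncard = M.v := by exact_mod_cast h4
    rw [h4'] at h1
    push_cast at h1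
    nlinarith

end Pool.Agent.W_MP_03ad1b_co
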