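import Pool.Agent.W_MP_03ad1b_co.Defs

/-!
# The number of different neighbourhoods
-/

set_option autoImplicit false

namespace Pool.Agent.W_MP_03ad1b_co

open Classical in
/-- The labeling: vertices of `X` keep their name, the part `i ∈ J` gets the label `α i`. -/
noncomputable def Cliques_fl {V : Type} (g : V → V) (X J : Finset V) (α : V → V) (x : V) :
    Option V :=
  if x ∈ X then some x else if g x ∈ J then some (α (g x)) else none

theorem Cliques_reach {V : Type} {G : SimpleGraph V} {f f' : V → Option V} {z w : V}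
    (h : ∀ x, f x = some z → f' x = some w) {x y : V}
    (hxy : (fib G f).Reachable x y) (hx : f x = some z) : (fib G f').Reachable x y := by
  obtain ⟨p⟩ := hxy
  induction p with
  | nil => exact SimpleGraph.Reachable.refl _
  | cons hadj p ih =>
    rename_i u v w'
    have hv : f v = some z := by rw [← hadj.2.1]; exact hx
    refine SimpleGraph.Reachable.trans (SimpleGraph.Adj.reachable ?_) (ih hv)
    exact ⟨hadj.1, by rw [h _ hx, h _ hv], by rw [h _ hx]; simp⟩

theorem Cliques_nbr_mem {V : Type} {G : SimpleGraph V} {X : Finset V} {g : V → V} {i x : V} :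
    x ∈ nbr G X g i ↔ x ∈ X ∧ ∃ c, g c = i ∧ G.Adj c x := by
  simp [nbr]

theorem Cliques_model {V : Type} {G : SimpleGraph V} {g : V → V}
    (hg : Model G (fun x => some (g x))) {X J : Finset V} {α : V → V}
    (hJX : ∀ x, g x ∈ J → x ∉ X) (hα : ∀ i ∈ J, α i ∈ nbr G X g i) :
    Model G (Cliques_fl g X J α) := by
  have hX : ∀ x ∈ X, Cliques_fl g X J α x = some x := fun x hx => by simp [Cliques_fl, hx]
  have hJ : ∀ x, g x ∈ J → Cliques_fl g X J α x = some (α (g x)) := fun x hx => by
    simp [Cliques_fl, hx, hJX x hx]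
  have hcases : ∀ x y, Cliques_fl g X J α x = some y →
      (x ∈ X ∧ y = x) ∨ (g x ∈ J ∧ y = α (g x)) := by
    intro x y h
    by_cases hx : x ∈ X
    · left; rw [hX x hx] at h; exact ⟨hx, (Option.some.inj h).symm⟩
    · by_cases hx' : g x ∈ J
      · right; rw [hJ x hx'] at h; exact ⟨hx', (Option.some.inj h).symm⟩
      · simp [Cliques_fl, hx, hx'] at h
  constructor
  · intro x y h
    rcases hcases x y h with ⟨h1, rfl⟩ | ⟨h1, rfl⟩
    · exact hX _ h1
    · exact hX _ (Cliques_nbr_mem.1 (hα _ h1)).1
  · intro x y h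
    rcases hcases x y h with ⟨h1, rfl⟩ | ⟨h1, rfl⟩
    · exact SimpleGraph.Reachable.refl _
    · obtain ⟨hαX, c, hc, hadj⟩ := Cliques_nbr_mem.1 (hα _ h1)
      have h2 : (fib G (fun x => some (g x))).Reachable x c := by
        refine (hg.conn x (g x) rfl).trans ?_
        exact (hg.conn c (g x) (by rw [← hc])).symm
      have h3 : (fib G (Cliques_fl g X J α)).Reachable x c := by
        refine Cliques_reach (f := fun x => some (g x)) (z := g x) (w := α (g x)) ?_ h2 rfl
        intro u hu
        have hu' : g u = g x := Option.some.inj hu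
        rw [hJ u (hu' ▸ h1), hu']
      refine h3.trans (SimpleGraph.Adj.reachable ?_)
      have hcJ : g c ∈ J := hc ▸ h1
      refine ⟨hadj, ?_, ?_⟩
      · rw [hJ c hcJ, hX _ hαX, hc]
      · rw [hJ c hcJ]; simp

theorem Cliques_lab {V : Type} [Fintype V] {G : SimpleGraph V} {g : V → V}
    {X J : Finset V} {α : V → V} (hα : ∀ i ∈ J, α i ∈ nbr G X g i) :
    lab (Cliques_fl g X J α) = X := by
  ext y
  simp only [lab, Finset.mem_filter, Finset.mem_univ, true_and]
  constructor
  · intro h
    by_contra hy
    by_cases hy' : g y ∈ J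
    · simp only [Cliques_fl, hy, hy', if_true, if_false] at h
      have h1 := (Cliques_nbr_mem.1 (hα _ hy')).1
      rw [Option.some.inj h] at h1
      exact hy h1
    · simp [Cliques_fl, hy, hy'] at h
  · intro h
    simp [Cliques_fl, h]

open Classical in
/-- restriction to the labels in `S` -/
noncomputable def Cliques_res {V : Type} (f : V → Option V) (S : Finset V) (x : V) : Option V :=
  if ∃ y ∈ S, f x = some y then f x else none

theorem Cliques_res_some {V : Type} {f : V → Option V} {S : Finset V} {x y : V} :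
    Cliques_res f S x = some y ↔ f x = some y ∧ y ∈ S := by
  unfold Cliques_res
  split_ifs with h
  · obtain ⟨z, hz, hfz⟩ := h
    rw [hfz]
    constructor
    · intro h1
      have := Option.some.inj h1
      exact ⟨h1, this ▸ hz⟩
    · exact fun h1 => h1.1
  · constructor
    · intro h1; simp at h1
    · rintro ⟨h1, h2⟩
      exact absurd ⟨y, h2, h1⟩ h

theorem Cliques_res_model {V : Type} {G : SimpleGraph V} {f : V → Option V} (hf : Model G f)
    (S : Finset V) : Model G (Cliques_res f S) := by
  constructor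
  · intro x y h
    rw [Cliques_res_some] at h ⊢
    exact ⟨hf.idem x y h.1, h.2⟩
  · intro x y h
    rw [Cliques_res_some] at h
    refine Cliques_reach (f := f) (z := y) (w := y) ?_ (hf.conn x y h.1) h.1
    intro u hu
    rw [Cliques_res_some]
    exact ⟨hu, h.2⟩

theorem Cliques_res_lab {V : Type} [Fintype V] {f : V → Option V} {S : Finset V}
    (hS : S ⊆ lab f) : lab (Cliques_res f S) = S := by
  ext y
  simp only [lab, Finset.mem_filter, Finset.mem_univ, true_and, Cliques_res_some]
  constructor
  · exact fun h => h.2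
  · intro h
    have := hS h
    simp only [lab, Finset.mem_filter, Finset.mem_univ, true_and] at this
    exact ⟨this, h⟩

theorem Cliques_res_quot {V : Type} {G : SimpleGraph V} {f : V → Option V} {S : Finset V}
    {y z : V} : (quot G (Cliques_res f S)).Adj y z ↔ (quot G f).Adj y z ∧ y ∈ S ∧ z ∈ S := by
  constructor
  · rintro ⟨h1, a, b, ha, hb, hab⟩
    rw [Cliques_res_some] at ha hb
    exact ⟨⟨h1, a, b, ha.1, hb.1, hab⟩, ha.2, hb.2⟩
  · rintro ⟨⟨h1, a, b, ha, hb, hab⟩, h2, h3⟩
    exact ⟨h1, a, b, Cliques_res_some.2 ⟨ha, h2⟩, Cliques_res_some.2 ⟨hb, h3⟩, hab⟩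

open Classical in
/-- degeneracy -/
theorem Cliques_degen {β : ℝ} (hβ : 1 ≤ β) {d : ℕ} (hd : 2 * (β + 1) ≤ d) {V : Type} [Fintype V]
    {G : SimpleGraph V} (hS : Sparse β G) {f : V → Option V} (hf : Model G f) {S : Finset V}
    (hSf : S ⊆ lab f) (hne : S.Nonempty) :
    ∃ x ∈ S, (S.filter fun y => (quot G f).Adj x y).card ≤ d := by
  by_contra hcon
  push Not at hcon
  set Q : SimpleGraph V := quot G (Cliques_res f S) with hQ
  have hsp := hS _ (Cliques_res_model hf S)
  rw [Cliques_res_lab hSf, ← hQ] at hsp
  have hec : ecount Q = Q.edgeFinset.card := by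
    unfold ecount
    rw [Set.ncard_eq_toFinset_card', SimpleGraph.edgeFinset]
  have hsum := Q.sum_degrees_eq_twice_card_edges
  have hdeg : ∀ x ∈ S, d + 1 ≤ Q.degree x := by
    intro x hx
    have h1 := hcon x hx
    refine le_trans h1 ?_
    rw [← SimpleGraph.card_neighborFinset_eq_degree]
    refine Finset.card_le_card (fun y hy => ?_)
    rw [Finset.mem_filter] at hy
    rw [SimpleGraph.mem_neighborFinset, hQ, Cliques_res_quot]
    exact ⟨hy.2, hx, hy.1⟩
  have h2 : S.card * (d + 1) ≤ 2 * ecount Q := by
    rw [hec, ← hsum]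
    calc S.card * (d + 1) = ∑ _x ∈ S, (d + 1) := by simp
      _ ≤ ∑ x ∈ S, Q.degree x := Finset.sum_le_sum hdeg
      _ ≤ ∑ x, Q.degree x :=
        Finset.sum_le_sum_of_subset_of_nonneg (Finset.subset_univ _) (fun _ _ _ => Nat.zero_le _)
  have h3 : (S.card : ℝ) * (d + 1) ≤ 2 * (ecount Q : ℝ) := by exact_mod_cast h2
  have h4 : (1 : ℝ) ≤ S.card := by exact_mod_cast hne.card_pos
  nlinarith

/-- `N` is a clique -/
def Cliques_isC {V : Type} (Q : SimpleGraph V) (N : Finset V) : Prop :=
  ∀ x ∈ N, ∀ y ∈ N, x ≠ y → Q.Adj x y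

open Classical in
/-- the number of cliques of a degenerate graph -/
theorem Cliques_count {V : Type} (Q : SimpleGraph V) (d : ℕ) (X : Finset V)
    (hdeg : ∀ S ⊆ X, S.Nonempty → ∃ x ∈ S, (S.filter fun y => Q.Adj x y).card ≤ d) :
    ∀ X' ⊆ X, (X'.powerset.filter (Cliques_isC Q)).card ≤ 2 ^ d * X'.card + 1 := by
  intro X'
  induction X' using Finset.strongInduction with
  | H X' ih =>
    intro hX'
    rcases X'.eq_empty_or_nonempty with rfl | hne
    · simp only [Finset.powerset_empty, Finset.card_empty, mul_zero, zero_add]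
      exact (Finset.card_filter_le _ _).trans (by simp)
    · obtain ⟨x, hx, hxd⟩ := hdeg X' hX' hne
      have h1 := ih (X'.erase x) (Finset.erase_ssubset hx) ((Finset.erase_subset _ _).trans hX')
      set C : Finset (Finset V) := X'.powerset.filter (Cliques_isC Q) with hC
      set C1 : Finset (Finset V) := (X'.erase x).powerset.filter (Cliques_isC Q) with hC1
      have h2 : C ⊆ C1 ∪ ((X'.filter fun y => Q.Adj x y).powerset.image fun N => insert x N) := by
        intro N hN
        rw [hC, Finset.mem_filter, Finset.mem_powerset] at hN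
        rw [Finset.mem_union]
        by_cases hxN : x ∈ N
        · right
          rw [Finset.mem_image]
          refine ⟨N.erase x, ?_, Finset.insert_erase hxN⟩
          rw [Finset.mem_powerset]
          intro y hy
          rw [Finset.mem_erase] at hy
          rw [Finset.mem_filter]
          exact ⟨hN.1 hy.2, hN.2 x hxN y hy.2 (Ne.symm hy.1)⟩
        · left
          rw [hC1, Finset.mem_filter, Finset.mem_powerset]
          refine ⟨fun y hy => ?_, hN.2⟩
          rw [Finset.mem_erase]
          exact ⟨fun h => hxN (h ▸ hy), hN.1 hy⟩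
      have h3 : ((X'.filter fun y => Q.Adj x y).powerset.image fun N => insert x N).card ≤
          2 ^ d := by
        refine Finset.card_image_le.trans ?_
        rw [Finset.card_powerset]
        exact Nat.pow_le_pow_right (by norm_num) hxd
      have h4 := (Finset.card_le_card h2).trans (Finset.card_union_le _ _)
      have h5 : (X'.erase x).card = X'.card - 1 := Finset.card_erase_of_mem hx
      have h6 : 1 ≤ X'.card := hne.card_pos
      obtain ⟨k, hk⟩ := Nat.exists_eq_add_of_le' h6
      rw [h5, hk, Nat.add_sub_cancel] at h1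
      rw [hk]
      calc C.card ≤ C1.card + _ := h4
        _ ≤ (2 ^ d * k + 1) + 2 ^ d := add_le_add h1 h3
        _ = 2 ^ d * (k + 1) + 1 := by ring

open Classical in
/-- Up to few exceptions, the parts have few different neighbourhoods in `X`. -/
theorem few_nbr (β : ℝ) (hβ : 1 ≤ β) (d : ℕ) (hd : 2 * (β + 1) ≤ d) {V : Type} [Fintype V]
    (G : SimpleGraph V) (hS : Sparse β G) (g : V → V) (hg : Model G (fun x => some (g x)))
    (I X : Finset V) (hI : ∀ i ∈ I, g i = i) (hIX : ∀ x, g x ∈ I → x ∉ X) :
    ∃ J ⊆ I, (J.card : ℝ) ≤ β * (X.card : ℝ) + 1 ∧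
      (((I \ J).image (nbr G X g)).card : ℝ) ≤ 2 ^ d * (X.card : ℝ) + 1 := by
  -- choose `J` maximal
  have hex : ∃ J : Finset V, (J ⊆ I ∧ ∃ α : V → V, (∀ i ∈ J, α i ∈ nbr G X g i) ∧
      J.card ≤ ecount (quot G (Cliques_fl g X J α))) ∧
      ∀ J' : Finset V, (J' ⊆ I ∧ ∃ α : V → V, (∀ i ∈ J', α i ∈ nbr G X g i) ∧
      J'.card ≤ ecount (quot G (Cliques_fl g X J' α))) → J'.card ≤ J.card := by
    obtain ⟨J, hJ, hmax⟩ := Finset.exists_max_image
      (Finset.univ.filter fun J : Finset V => (J ⊆ I ∧ ∃ α : V → V, (∀ i ∈ J, α i ∈ nbr G X g i) ∧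
      J.card ≤ ecount (quot G (Cliques_fl g X J α)))) Finset.card
      ⟨∅, by
        rw [Finset.mem_filter]
        refine ⟨Finset.mem_univ _, Finset.empty_subset _, id, ?_, ?_⟩
        · intro i hi; simp at hi
        · simp⟩
    rw [Finset.mem_filter] at hJ
    refine ⟨J, hJ.2, fun J' hJ' => hmax J' ?_⟩
    rw [Finset.mem_filter]
    exact ⟨Finset.mem_univ _, hJ'⟩
  obtain ⟨J, ⟨hJI, α, hα, hJc⟩, hmax⟩ := hex
  have hJX : ∀ x, g x ∈ J → x ∉ X := fun x hx => hIX x (hJI hx)
  have hmod := Cliques_model hg hJX hα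
  have hlab := Cliques_lab (G := G) (g := g) (X := X) (J := J) (α := α) hα
  refine ⟨J, hJI, ?_, ?_⟩
  · have h1 := hS _ hmod
    rw [hlab] at h1
    exact le_trans (by exact_mod_cast hJc) h1
  · -- the neighbourhoods are cliques
    have hcl : ∀ i ∈ I \ J, ∀ x ∈ nbr G X g i, ∀ y ∈ nbr G X g i, x ≠ y →
        (quot G (Cliques_fl g X J α)).Adj x y := by
      intro i hi x hx y hy hxy
      rw [Finset.mem_sdiff] at hi
      by_contra hnot
      set α' : V → V := Function.update α i x with hα'
      have hα'1 : ∀ j ∈ J, α' j = α j := by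
        intro j hj
        rw [hα', Function.update_of_ne]
        rintro rfl
        exact hi.2 hj
      have hα'i : α' i = x := by rw [hα', Function.update_self]
      have hgr : ∀ a u, Cliques_fl g X J α a = some u →
          Cliques_fl g X (insert i J) α' a = some u := by
        intro a u h
        unfold Cliques_fl at h ⊢
        by_cases ha : a ∈ X
        · simpa [ha] using h
        · by_cases ha' : g a ∈ J
          · rw [if_neg ha, if_pos ha'] at h
            rw [if_neg ha, if_pos (Finset.mem_insert_of_mem ha'), hα'1 _ ha', h]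
          · rw [if_neg ha, if_neg ha'] at h
            exact absurd h (by simp)
      have hnew : (quot G (Cliques_fl g X (insert i J) α')).Adj x y := by
        obtain ⟨hyX, c, hc, hadj⟩ := Cliques_nbr_mem.1 hy
        refine ⟨hxy, c, y, ?_, ?_, hadj⟩
        · have hcX : c ∉ X := hIX c (hc ▸ hi.1)
          unfold Cliques_fl
          rw [if_neg hcX, if_pos (by rw [hc]; exact Finset.mem_insert_self _ _), hc, hα'i]
        · unfold Cliques_fl
          rw [if_pos hyX]
      have hss : (quot G (Cliques_fl g X J α)).edgeSet ⊂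
          (quot G (Cliques_fl g X (insert i J) α')).edgeSet := by
        rw [Set.ssubset_iff_of_subset]
        · exact ⟨s(x, y), by rwa [SimpleGraph.mem_edgeSet], by rwa [SimpleGraph.mem_edgeSet]⟩
        · rw [SimpleGraph.edgeSet_subset_edgeSet]
          intro u v huv
          obtain ⟨h1, a, b, ha, hb, hab⟩ := huv
          exact ⟨h1, a, b, hgr a u ha, hgr b v hb, hab⟩
      have hlt := Set.ncard_lt_ncard hss (Set.toFinite _)
      have hcard : (insert i J).card = J.card + 1 := Finset.card_insert_of_notMem hi.2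
      have := hmax (insert i J) ⟨Finset.insert_subset hi.1 hJI, α', ?_, ?_⟩
      · omega
      · intro j hj
        rw [Finset.mem_insert] at hj
        rcases hj with rfl | hj
        · rw [hα'i]; exact hx
        · rw [hα'1 j hj]; exact hα j hj
      · rw [hcard]
        unfold ecount at hJc ⊢
        omega
    have hdeg : ∀ S ⊆ X, S.Nonempty →
        ∃ x ∈ S, (S.filter fun y => (quot G (Cliques_fl g X J α)).Adj x y).card ≤ d := by
      intro S hSX hne
      exact Cliques_degen hβ hd hS hmod (by rw [hlab]; exact hSX) hne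
    have hcount := Cliques_count (quot G (Cliques_fl g X J α)) d X hdeg X (Finset.Subset.refl _)
    have hsub : (I \ J).image (nbr G X g) ⊆ X.powerset.filter
        (Cliques_isC (quot G (Cliques_fl g X J α))) := by
      intro N hN
      rw [Finset.mem_image] at hN
      obtain ⟨i, hi, rfl⟩ := hN
      rw [Finset.mem_filter, Finset.mem_powerset]
      exact ⟨fun x hx => (Cliques_nbr_mem.1 hx).1, hcl i hi⟩
    have := (Finset.card_le_card hsub).trans hcount
    exact_mod_cast this

end Pool.Agent.W_MP_03ad1b_co
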