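import Pool.Agent.W_MP_03ad1b_co.Minor

/-!
# Minors and models
-/

set_option autoImplicit false

namespace Pool.Agent.W_MP_03ad1b_co

/-- A minor gives a model (with the labels in `N` whenever possible). -/
theorem model_of_minor {W V : Type} [Fintype W] [Fintype V] (H : SimpleGraph W)
    (G : SimpleGraph V) (B : W → Set V) (h₁ : ∀ w, (G.induce (B w)).Connected)
    (h₂ : ∀ w w', w ≠ w' → Disjoint (B w) (B w'))
    (h₃ : ∀ w w', H.Adj w w' → ∃ x ∈ B w, ∃ y ∈ B w', G.Adj x y) (N : Set V) :
    ∃ f : V → Option V, Model G f ∧ (∀ x, f x ≠ none → ∃ w, x ∈ B w) ∧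
      (∀ x ∈ N, ∀ y, f x = some y → y ∈ N) ∧ (lab f).card = Fintype.card W ∧
      ecount H ≤ ecount (quot G f) := by
  classical
  have hrep : ∀ w, ∃ y ∈ B w, (∀ x ∈ B w, x ∈ N → y ∈ N) := by
    intro w
    by_cases h : ∃ x ∈ B w, x ∈ N
    · obtain ⟨x, hx, hxN⟩ := h
      exact ⟨x, hx, fun _ _ _ => hxN⟩
    · obtain ⟨⟨y, hy⟩⟩ := (h₁ w).nonempty
      exact ⟨y, hy, fun x hx hxN => absurd ⟨x, hx, hxN⟩ h⟩
  choose rep hrep1 hrep2 using hrep
  have huniq : ∀ x w w', x ∈ B w → x ∈ B w' → w = w' := by
    intro x w w' h h'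
    by_contra hne
    exact Set.disjoint_left.mp (h₂ w w' hne) h h'
  let f : V → Option V := fun x => if h : ∃ w, x ∈ B w then some (rep h.choose) else none
  have hf : ∀ x w, x ∈ B w → f x = some (rep w) := by
    intro x w hx
    have h : ∃ w, x ∈ B w := ⟨w, hx⟩
    show (if h : ∃ w, x ∈ B w then some (rep h.choose) else none) = _
    rw [dif_pos h, huniq x _ w h.choose_spec hx]
  have hfn : ∀ x, (¬ ∃ w, x ∈ B w) → f x = none := fun x h => dif_neg h
  have hf' : ∀ x y, f x = some y → ∃ w, x ∈ B w ∧ y = rep w := by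
    intro x y hxy
    by_cases h : ∃ w, x ∈ B w
    · obtain ⟨w, hw⟩ := h
      refine ⟨w, hw, ?_⟩
      rw [hf x w hw] at hxy
      exact (Option.some.inj hxy).symm
    · exfalso
      rw [hfn x h] at hxy
      cases hxy
  have hinj : Function.Injective rep := by
    intro w w' h
    exact huniq (rep w) w w' (hrep1 w) (h ▸ hrep1 w')
  refine ⟨f, ⟨?_, ?_⟩, ?_, ?_, ?_, ?_⟩
  · intro x y hxy
    obtain ⟨w, hw, rfl⟩ := hf' x y hxy
    exact hf _ w (hrep1 w)
  · intro x y hxy
    obtain ⟨w, hw, rfl⟩ := hf' x y hxy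
    have hr := (h₁ w).preconnected ⟨x, hw⟩ ⟨rep w, hrep1 w⟩
    let φ : G.induce (B w) →g fib G f :=
      { toFun := fun z => z.1
        map_rel' := by
          intro a b hab
          refine ⟨hab, ?_, ?_⟩
          · rw [hf a.1 w a.2, hf b.1 w b.2]
          · rw [hf a.1 w a.2]
            exact Option.some_ne_none _ }
    exact hr.map φ
  · intro x hx
    by_contra h
    exact hx (hfn x h)
  · intro x hxN y hxy
    obtain ⟨w, hw, rfl⟩ := hf' x y hxy
    exact hrep2 w x hw hxN
  · have hl : lab f = Finset.univ.image rep := by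
      ext y
      simp only [lab, Finset.mem_filter, Finset.mem_univ, true_and, Finset.mem_image]
      constructor
      · intro hy
        obtain ⟨w, _, h⟩ := hf' y y hy
        exact ⟨w, h.symm⟩
      · rintro ⟨w, rfl⟩
        exact hf _ w (hrep1 w)
    rw [hl, Finset.card_image_of_injective _ hinj, Finset.card_univ]
  · unfold ecount
    have hsub : Sym2.map rep '' H.edgeSet ⊆ (quot G f).edgeSet := by
      rintro _ ⟨e, he, rfl⟩
      induction e using Sym2.ind with
      | _ w w' =>
        rw [SimpleGraph.mem_edgeSet] at he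
        show s(rep w, rep w') ∈ (quot G f).edgeSet
        rw [SimpleGraph.mem_edgeSet]
        obtain ⟨x, hx, y, hy, hxy⟩ := h₃ w w' he
        exact ⟨fun h => he.ne (hinj h), x, y, hf x w hx, hf y w' hy, hxy⟩
    rw [← Set.ncard_image_of_injective _ (Sym2.map.injective hinj)]
    exact Set.ncard_le_ncard hsub (Set.toFinite _)

/-- A model gives a minor. -/
theorem minor_of_model {V : Type} [Fintype V] (G : SimpleGraph V) (f : V → Option V)
    (hf : Model G f) (n : ℕ) (hn : (lab f).card = n) :
    ∃ H : SimpleGraph (Fin n), IsMinor H G ∧ ecount H = ecount (quot G f) := by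
  classical
  let e : Fin n ≃ {y // y ∈ lab f} := (Finset.equivFinOfCardEq hn).symm
  have hmem : ∀ y, y ∈ lab f ↔ f y = some y := by
    intro y
    simp [lab]
  have hlab : ∀ i, f (e i : V) = some (e i : V) := fun i => (hmem _).1 (e i).2
  have hinj : Function.Injective (fun i => (e i : V)) := by
    intro i j hij
    exact e.injective (Subtype.ext hij)
  refine ⟨(quot G f).comap (fun i => (e i : V)),
    ⟨fun i => {x | f x = some (e i : V)}, ?_, ?_, ?_⟩, ?_⟩
  · intro i
    have key : ∀ x y : V, (fib G f).Walk x y → ∀ hx : f x = some (e i : V),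
        ∃ hy : f y = some (e i : V),
          (G.induce {x | f x = some (e i : V)}).Reachable ⟨x, hx⟩ ⟨y, hy⟩ := by
      intro x y w
      induction w with
      | nil => exact fun hx => ⟨hx, SimpleGraph.Reachable.refl _⟩
      | cons h p ih =>
        intro hx
        have hv := h.2.1.symm.trans hx
        obtain ⟨hy, hr⟩ := ih hv
        refine ⟨hy, SimpleGraph.Reachable.trans (SimpleGraph.Adj.reachable ?_) hr⟩
        exact h.1
    have hto : ∀ x (hx : f x = some (e i : V)),
        (G.induce {x | f x = some (e i : V)}).Reachable ⟨x, hx⟩ ⟨(e i : V), hlab i⟩ := by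
      intro x hx
      obtain ⟨w⟩ := hf.conn x (e i : V) hx
      obtain ⟨_, hr⟩ := key x _ w hx
      exact hr
    have : Nonempty {x | f x = some (e i : V)} := ⟨⟨(e i : V), hlab i⟩⟩
    refine SimpleGraph.Connected.mk ?_
    intro a b
    exact (hto a.1 a.2).trans (hto b.1 b.2).symm
  · intro i j hij
    rw [Set.disjoint_left]
    intro x hx hx'
    apply hij
    apply hinj
    have h1 : f x = some (e i : V) := hx
    have h2 : f x = some (e j : V) := hx'
    exact Option.some.inj (h1.symm.trans h2)
  · intro i j hij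
    obtain ⟨_, a, b, ha, hb, hab⟩ := hij
    exact ⟨a, ha, b, hb, hab⟩
  · unfold ecount
    have himg : Sym2.map (fun i => (e i : V)) '' ((quot G f).comap (fun i => (e i : V))).edgeSet
        = (quot G f).edgeSet := by
      apply Set.Subset.antisymm
      · rintro _ ⟨s, hs, rfl⟩
        induction s using Sym2.ind with
        | _ i j => exact hs
      · intro s hs
        induction s using Sym2.ind with
        | _ y z =>
          rw [SimpleGraph.mem_edgeSet] at hs
          obtain ⟨hne, a, b, ha, hb, hab⟩ := hs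
          have hy : y ∈ lab f := (hmem y).2 (hf.idem a y ha)
          have hz : z ∈ lab f := (hmem z).2 (hf.idem b z hb)
          refine ⟨s(e.symm ⟨y, hy⟩, e.symm ⟨z, hz⟩), ?_, ?_⟩
          · rw [SimpleGraph.mem_edgeSet]
            show (quot G f).Adj (e (e.symm ⟨y, hy⟩) : V) (e (e.symm ⟨z, hz⟩) : V)
            rw [e.apply_symm_apply, e.apply_symm_apply]
            exact ⟨hne, a, b, ha, hb, hab⟩
          · show s((e (e.symm ⟨y, hy⟩) : V), (e (e.symm ⟨z, hz⟩) : V)) = s(y, z)
            rw [e.apply_symm_apply, e.apply_symm_apply]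
    rw [← himg, Set.ncard_image_of_injective _ (Sym2.map.injective hinj)]

end Pool.Agent.W_MP_03ad1b_co
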