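import Pool.Agent.W_MP_03ad1b_co.Group

/-!
# Counting edges
-/

set_option autoImplicit false

namespace Pool.Agent.W_MP_03ad1b_co

open Classical in
/-- The number of ordered pairs of adjacent vertices satisfying `P`. -/
noncomputable def pc {V : Type} [Fintype V] (G : SimpleGraph V) (P : V → V → Prop) : ℕ :=
  (Finset.univ.filter fun p : V × V => G.Adj p.1 p.2 ∧ P p.1 p.2).card

open Classical in
/-- The degree. -/
noncomputable def dg {V : Type} [Fintype V] (G : SimpleGraph V) (x : V) : ℕ :=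
  (Finset.univ.filter fun y => G.Adj x y).card

section

variable {V : Type} [Fintype V]

theorem pc_mono {G : SimpleGraph V} {P Q : V → V → Prop}
    (h : ∀ x y, G.Adj x y → P x y → Q x y) : pc G P ≤ pc G Q := by
  classical
  refine Finset.card_le_card fun p hp => ?_
  simp only [Finset.mem_filter, Finset.mem_univ, true_and] at hp ⊢
  exact ⟨hp.1, h _ _ hp.1 hp.2⟩

theorem pc_or (G : SimpleGraph V) (P Q : V → V → Prop) :
    pc G (fun x y => P x y ∨ Q x y) ≤ pc G P + pc G Q := by
  classical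
  refine le_trans (Finset.card_le_card ?_) (Finset.card_union_le _ _)
  intro p hp
  simp only [Finset.mem_union, Finset.mem_filter, Finset.mem_univ, true_and] at hp ⊢
  rcases hp with ⟨h1, h2 | h2⟩
  · exact Or.inl ⟨h1, h2⟩
  · exact Or.inr ⟨h1, h2⟩

theorem pc_or_disj (G : SimpleGraph V) (P Q : V → V → Prop) (h : ∀ x y, P x y → ¬ Q x y) :
    pc G P + pc G Q ≤ pc G (fun x y => P x y ∨ Q x y) := by
  classical
  rw [pc, pc, ← Finset.card_union_of_disjoint]
  · refine Finset.card_le_card fun p hp => ?_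
    simp only [Finset.mem_union, Finset.mem_filter, Finset.mem_univ, true_and] at hp ⊢
    rcases hp with h1 | h1
    · exact ⟨h1.1, Or.inl h1.2⟩
    · exact ⟨h1.1, Or.inr h1.2⟩
  · rw [Finset.disjoint_left]
    intro p hp hq
    simp only [Finset.mem_filter, Finset.mem_univ, true_and] at hp hq
    exact h _ _ hp.2 hq.2

theorem pc_swap (G : SimpleGraph V) (P : V → V → Prop) :
    pc G (fun x y => P y x) = pc G P := by
  classical
  refine Finset.card_bij (fun p _ => (p.2, p.1)) ?_ ?_ ?_
  · intro p hp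
    simp only [Finset.mem_filter, Finset.mem_univ, true_and] at hp ⊢
    exact ⟨hp.1.symm, hp.2⟩
  · rintro ⟨a, b⟩ _ ⟨c, d⟩ _ h
    simp only [Prod.mk.injEq] at h
    rw [h.1, h.2]
  · rintro ⟨a, b⟩ hp
    simp only [Finset.mem_filter, Finset.mem_univ, true_and] at hp
    exact ⟨(b, a), by simpa using ⟨hp.1.symm, hp.2⟩, rfl⟩

theorem pc_true (G : SimpleGraph V) : pc G (fun _ _ => True) = 2 * ecount G := by
  classical
  have h1 : ecount G = G.edgeFinset.card := by
    rw [ecount, ← SimpleGraph.coe_edgeFinset, Set.ncard_coe_finset]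
  rw [h1, ← SimpleGraph.sum_degrees_eq_twice_card_edges]
  rw [pc, Finset.card_filter]
  rw [← Finset.univ_product_univ, Finset.sum_product]
  refine Finset.sum_congr rfl fun x _ => ?_
  simp only [and_true]
  rw [← SimpleGraph.card_neighborFinset_eq_degree, ← Finset.card_filter]
  congr 1
  ext y
  simp

theorem pc_row (G : SimpleGraph V) (A : Finset V) :
    pc G (fun x _ => x ∈ A) = ∑ x ∈ A, dg G x := by
  classical
  rw [pc, Finset.card_filter, ← Finset.univ_product_univ, Finset.sum_product]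
  rw [← Finset.sum_subset (Finset.subset_univ A)]
  · refine Finset.sum_congr rfl fun x hx => ?_
    rw [dg, Finset.card_filter]
    refine Finset.sum_congr rfl fun y _ => ?_
    simp [hx]
  · intro x _ hx
    refine Finset.sum_eq_zero fun y _ => ?_
    simp [hx]

/-- Splitting according to the label of the first vertex. -/
theorem pc_sum (G : SimpleGraph V) (g : V → V) (S : Finset V) (P : V → V → Prop) :
    pc G (fun x y => g x ∈ S ∧ P x y) = ∑ i ∈ S, pc G (fun x y => g x = i ∧ P x y) := by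
  classical
  rw [pc]
  rw [Finset.card_eq_sum_card_fiberwise (f := fun p : V × V => g p.1) (t := S)]
  · refine Finset.sum_congr rfl fun i hi => ?_
    rw [pc]
    congr 1
    ext p
    simp only [Finset.mem_filter, Finset.mem_univ, true_and]
    constructor
    · rintro ⟨⟨h1, -, h3⟩, h4⟩
      exact ⟨h1, h4, h3⟩
    · rintro ⟨h1, h4, h3⟩
      exact ⟨⟨h1, h4 ▸ hi, h3⟩, h4⟩
  · intro p hp
    simp only [Finset.coe_filter, Finset.mem_univ, true_and, Set.mem_ofPred_eq] at hp
    exact hp.2.1

theorem ecount_mono {G H : SimpleGraph V} (h : G ≤ H) : ecount G ≤ ecount H := by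
  rw [ecount, ecount]
  refine Set.ncard_le_ncard ?_ (Set.toFinite _)
  exact SimpleGraph.edgeSet_mono h

theorem Sparse.mono {β : ℝ} {G H : SimpleGraph V} (h : G ≤ H) (hS : Sparse β H) :
    Sparse β G := by
  intro f hf
  have hle : fib G f ≤ fib H f := fun u v huv => ⟨h huv.1, huv.2⟩
  have hf' : Model H f := ⟨hf.idem, fun x y hxy => (hf.conn x y hxy).mono hle⟩
  refine le_trans ?_ (hS f hf')
  have : ecount (quot G f) ≤ ecount (quot H f) := by
    refine ecount_mono fun u v huv => ?_
    obtain ⟨h1, a, b, ha, hb, hab⟩ := huv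
    exact ⟨h1, a, b, ha, hb, h hab⟩
  exact_mod_cast this

/-- The edges inside a set. -/
theorem pc_inside {β : ℝ} {G : SimpleGraph V} (hS : Sparse β G) (X : Finset V) :
    (pc G (fun x y => x ∈ X ∧ y ∈ X) : ℝ) ≤ 2 * (β * (X.card : ℝ) + 1) := by
  classical
  let f : V → Option V := fun x => if x ∈ X then some x else none
  have hf : ∀ x y, f x = some y ↔ x ∈ X ∧ x = y := by
    intro x y
    simp only [f]
    split_ifs with h
    · simp [h]
    · simp [h]
  have hModel : Model G f := by
    constructor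
    · intro x y hxy
      obtain ⟨hx, rfl⟩ := (hf x y).mp hxy
      exact hxy
    · intro x y hxy
      obtain ⟨hx, rfl⟩ := (hf x y).mp hxy
      exact SimpleGraph.Reachable.refl _
  have hlab : lab f = X := by
    ext y
    rw [Group_mem_lab, hf]
    simp
  have h1 := hS f hModel
  rw [hlab] at h1
  have h2 : pc G (fun x y => x ∈ X ∧ y ∈ X) ≤ pc (quot G f) (fun _ _ => True) := by
    refine Finset.card_le_card fun p hp => ?_
    simp only [Finset.mem_filter, Finset.mem_univ, true_and, and_true] at hp ⊢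
    exact ⟨hp.1.ne, p.1, p.2, (hf _ _).mpr ⟨hp.2.1, rfl⟩, (hf _ _).mpr ⟨hp.2.2, rfl⟩, hp.1⟩
  rw [pc_true] at h2
  have h3 : (pc G (fun x y => x ∈ X ∧ y ∈ X) : ℝ) ≤ 2 * (ecount (quot G f) : ℝ) := by
    exact_mod_cast h2
  linarith

theorem ecount_le_of_sparse {β : ℝ} {G : SimpleGraph V} (hS : Sparse β G) :
    (ecount G : ℝ) ≤ β * (Fintype.card V : ℝ) + 1 := by
  have h := pc_inside hS Finset.univ
  have h2 : pc G (fun x y => x ∈ Finset.univ ∧ y ∈ Finset.univ) = 2 * ecount G := by
    rw [← pc_true]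
    simp
  rw [h2, Finset.card_univ] at h
  push_cast at h
  linarith

theorem sum_dg (G : SimpleGraph V) : ∑ x, dg G x = 2 * ecount G := by
  rw [← pc_row G Finset.univ, ← pc_true]
  simp

end

/-- One of the scales carries a small part of the sum. -/
theorem scales {V : Type} [Fintype V] (u : V → ℕ) (a : ℕ → ℕ) (ha : Monotone a) (J : ℕ)
    (κ : ℝ) (h : ((∑ x, u x : ℕ) : ℝ) < J * κ) :
    ∃ j < J, ∃ M : Finset V, (∀ x, x ∈ M ↔ a j ≤ u x ∧ u x < a (j + 1)) ∧
      ((∑ x ∈ M, u x : ℕ) : ℝ) ≤ κ := by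
  classical
  by_contra hcon
  push Not at hcon
  let M : ℕ → Finset V := fun j => Finset.univ.filter fun x => a j ≤ u x ∧ u x < a (j + 1)
  have hM : ∀ j, ∀ x, x ∈ M j ↔ a j ≤ u x ∧ u x < a (j + 1) := fun j x => by simp [M]
  have h1 : ∀ j ∈ Finset.range J, κ ≤ ((∑ x ∈ M j, u x : ℕ) : ℝ) := fun j hj =>
    (hcon j (Finset.mem_range.mp hj) (M j) (hM j)).le
  have h2 : (J : ℝ) * κ ≤ ∑ j ∈ Finset.range J, ((∑ x ∈ M j, u x : ℕ) : ℝ) := by
    have := Finset.card_nsmul_le_sum (Finset.range J) _ κ h1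
    rwa [Finset.card_range, nsmul_eq_mul] at this
  have h3 : ∑ j ∈ Finset.range J, (∑ x ∈ M j, u x) ≤ ∑ x, u x := by
    rw [← Finset.sum_biUnion]
    · exact Finset.sum_le_sum_of_subset (Finset.subset_univ _)
    · intro i _ j _ hij
      rw [Function.onFun, Finset.disjoint_left]
      intro x hx hx'
      rw [hM] at hx hx'
      rcases lt_or_gt_of_ne hij with h | h
      · have := ha (show i + 1 ≤ j from h)
        omega
      · have := ha (show j + 1 ≤ i from h)
        omega
  have h4 : ∑ j ∈ Finset.range J, ((∑ x ∈ M j, u x : ℕ) : ℝ) ≤ ((∑ x, u x : ℕ) : ℝ) := by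
    exact_mod_cast h3
  linarith

end Pool.Agent.W_MP_03ad1b_co
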