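import Pool.Agent.W_MP_03ad1b_co.Defs

/-!
# Many parts with the same neighbourhood
-/

set_option autoImplicit false

namespace Pool.Agent.W_MP_03ad1b_co

section Pat

variable {V : Type}

theorem Group_transfer {H K : SimpleGraph V} (P : V → Prop)
    (h : ∀ u v, H.Adj u v → P u → K.Adj u v ∧ P v) {x y : V} (hx : P x)
    (hr : H.Reachable x y) : K.Reachable x y ∧ P y := by
  obtain ⟨w⟩ := hr
  induction w with
  | nil => exact ⟨SimpleGraph.Reachable.refl _, hx⟩
  | cons hadj w ih =>
    obtain ⟨h1, h2⟩ := h _ _ hadj hx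
    obtain ⟨h3, h4⟩ := ih h2
    exact ⟨h1.reachable.trans h3, h4⟩

/-- A rooted pattern in the part with label `i`. -/
structure Pat (G : SimpleGraph V) (g : V → V) (N : Finset V) (i : V) (p : V → Option V) :
    Prop where
  supp : ∀ x, p x ≠ none → x ∈ N ∨ g x = i
  idem : ∀ x y, p x = some y → p y = some y
  conn : ∀ x y, p x = some y → y ∉ N → (fib (grp G g N {i}) p).Reachable x y
  root : ∀ x y, p x = some y → y ∈ N →
    ∃ x' ∈ N, p x' = some y ∧ (fib (grp G g N {i}) p).Reachable x x'
  conv : ∀ x ∈ N, ∀ y, p x = some y → y ∈ N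

variable [Fintype V]

open Classical in
/-- The edges of a pattern that have an end in the part. -/
noncomputable def patE (G : SimpleGraph V) (g : V → V) (N : Finset V) (i : V) (p : V → Option V) :
    Finset (Sym2 V) :=
  Finset.univ.filter fun e => e ∈ (quot (grp G g N {i}) p).edgeSet ∧ ∃ v ∈ e, g v = i

open Classical in
/-- The labels of a pattern in the part. -/
noncomputable def patL (g : V → V) (i : V) (p : V → Option V) : Finset V :=
  Finset.univ.filter fun y => p y = some y ∧ g y = i

theorem Group_mem_patE {G : SimpleGraph V} {g : V → V} {N : Finset V} {i : V} {p : V → Option V}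
    {e : Sym2 V} : e ∈ patE G g N i p ↔
      e ∈ (quot (grp G g N {i}) p).edgeSet ∧ ∃ v ∈ e, g v = i := by
  classical
  simp [patE]

theorem Group_mem_patL {g : V → V} {i : V} {p : V → Option V} {y : V} :
    y ∈ patL g i p ↔ p y = some y ∧ g y = i := by
  classical
  simp [patL]

theorem Group_mem_lab {f : V → Option V} {y : V} : y ∈ lab f ↔ f y = some y := by
  classical
  simp [lab]

omit [Fintype V] in
theorem Group_grp_le (G : SimpleGraph V) (g : V → V) (N S : Finset V) : grp G g N S ≤ G :=
  fun _ _ h => h.1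

theorem Group_card_le_ecount (Q : SimpleGraph V) (E : Finset (Sym2 V))
    (h : ∀ e ∈ E, e ∈ Q.edgeSet) : E.card ≤ ecount Q := by
  rw [ecount, ← Set.ncard_coe_finset E]
  exact Set.ncard_le_ncard (fun e he => h e he) (Set.toFinite _)

/-- Gluing patterns with the same root labeling. -/
theorem Group_glue (G : SimpleGraph V) (g : V → V) (hg : Model G (fun x => some (g x)))
    (N T : Finset V) (hN : ∀ x, g x ∈ T → x ∉ N)
    (hadj : ∀ i ∈ T, ∀ x ∈ N, ∃ c, g c = i ∧ G.Adj c x) (T₁ T₂ : Finset V) (h1 : T₁ ⊆ T)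
    (h2 : T₂ ⊆ T) (hd : Disjoint T₁ T₂) (hc : N.card ≤ T₁.card) (p : V → V → Option V)
    (hp : ∀ i ∈ T₂, Pat G g N i (p i)) (ν : V → Option V)
    (hν : ∀ i ∈ T₂, ∀ x ∈ N, p i x = ν x) (hne : T₂.Nonempty) :
    ∃ f, Model G f ∧ (lab f).card ≤ N.card + ∑ i ∈ T₂, (patL g i (p i)).card ∧
      ∑ i ∈ T₂, (patE G g N i (p i)).card ≤ ecount (quot G f) := by
  classical
  -- an injection from `N` to `T₁`
  obtain ⟨j, hj⟩ : ∃ j : N ↪ T₁, True := by
    have : Fintype.card N ≤ Fintype.card T₁ := by simpa using hc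
    exact ⟨(Function.Embedding.nonempty_of_card_le this).some, trivial⟩
  obtain ⟨i₀, hi₀⟩ := hne
  have hν1 : ∀ x ∈ N, ∀ y, ν x = some y → y ∈ N ∧ ν y = some y := by
    intro x hx y hxy
    have h := hp i₀ hi₀
    rw [← hν i₀ hi₀ x hx] at hxy
    have hy := h.conv x hx y hxy
    refine ⟨hy, ?_⟩
    rw [← hν i₀ hi₀ y hy]
    exact h.idem x y hxy
  -- the labeling
  let R : V → V → Prop := fun i y => ∃ h : y ∈ N, ν y = some y ∧ (j ⟨y, h⟩ : V) = i
  have hR : ∀ i y y', R i y → R i y' → y = y' := by
    rintro i y y' ⟨hy, -, h⟩ ⟨hy', -, h'⟩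
    have := j.injective (Subtype.ext (h.trans h'.symm))
    exact congrArg Subtype.val this
  have hRT : ∀ i y, R i y → i ∈ T₁ := by
    rintro i y ⟨hy, -, h⟩
    rw [← h]
    exact (j ⟨y, hy⟩).2
  let f : V → Option V := fun x => if x ∈ N then ν x else if g x ∈ T₂ then p (g x) x else
    if h : ∃ y, R (g x) y then some h.choose else none
  have fN : ∀ x ∈ N, f x = ν x := fun x hx => by simp only [f, if_pos hx]
  have fT2 : ∀ x i, g x = i → i ∈ T₂ → f x = p i x := by
    intro x i hxi hi
    have hx : x ∉ N := hN x (hxi ▸ h2 hi)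
    simp only [f]
    rw [if_neg hx, if_pos (by rw [hxi]; exact hi), hxi]
  have fR : ∀ x y, R (g x) y → f x = some y := by
    intro x y hxy
    have hT1 : g x ∈ T₁ := hRT _ _ hxy
    have hx : x ∉ N := hN x (h1 hT1)
    have hx2 : g x ∉ T₂ := fun h => (Finset.disjoint_left.mp hd) hT1 h
    have hex : ∃ y, R (g x) y := ⟨y, hxy⟩
    simp only [f]
    rw [if_neg hx, if_neg hx2, dif_pos hex]
    rw [hR _ _ _ hex.choose_spec hxy]
  have fcases : ∀ x y, f x = some y → (x ∈ N ∧ ν x = some y) ∨
      (g x ∈ T₂ ∧ p (g x) x = some y) ∨ R (g x) y := by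
    intro x y hxy
    by_cases hx : x ∈ N
    · exact Or.inl ⟨hx, by rw [← fN x hx]; exact hxy⟩
    · by_cases hx2 : g x ∈ T₂
      · exact Or.inr (Or.inl ⟨hx2, by rw [← fT2 x (g x) rfl hx2]; exact hxy⟩)
      · right; right
        simp only [f] at hxy
        rw [if_neg hx, if_neg hx2] at hxy
        by_cases hex : ∃ y, R (g x) y
        · rw [dif_pos hex] at hxy
          have := Option.some.inj hxy
          rw [← this]
          exact hex.choose_spec
        · rw [dif_neg hex] at hxy
          exact absurd hxy (by simp)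
  -- on the vertices seen by the pattern `p i`, it agrees with `f`
  have fp : ∀ i ∈ T₂, ∀ x, (x ∈ N ∨ g x = i) → f x = p i x := by
    rintro i hi x (hx | hx)
    · rw [fN x hx, hν i hi x hx]
    · exact fT2 x i hx hi
  have hle : ∀ i ∈ T₂, fib (grp G g N {i}) (p i) ≤ fib G f := by
    intro i hi u v huv
    obtain ⟨⟨hG, h⟩, he, hn⟩ := huv
    have hu := (hp i hi).supp u hn
    have hv := (hp i hi).supp v (he ▸ hn)
    refine ⟨hG, ?_, ?_⟩
    · rw [fp i hi u hu, fp i hi v hv, he]
    · rw [fp i hi u hu]; exact hn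
  -- a root set is connected
  have hroot1 : ∀ y, y ∈ N → ν y = some y → ∀ c, R (g c) y → (fib G f).Reachable c y := by
    intro y hy hyy c hc
    obtain ⟨c', hc', hadj'⟩ := hadj (g c) (h1 (hRT _ _ hc)) y hy
    have hcc' : (fib G (fun x => some (g x))).Reachable c c' := by
      have a1 := hg.conn c (g c) rfl
      have a2 := hg.conn c' (g c) (by rw [hc'])
      exact a1.trans a2.symm
    have htr := Group_transfer (K := fib G f) (fun u => g u = g c) (by
      intro u v huv hu
      have huv2 : g u = g v := Option.some.inj huv.2.1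
      refine ⟨⟨huv.1, ?_, ?_⟩, by rw [← huv2, hu]⟩
      · rw [fR u y (by rw [hu]; exact hc), fR v y (by rw [← huv2, hu]; exact hc)]
      · rw [fR u y (by rw [hu]; exact hc)]; simp) rfl hcc'
    refine htr.1.trans (SimpleGraph.Adj.reachable ⟨hadj', ?_, ?_⟩)
    · rw [fR c' y (by rw [hc']; exact hc), fN y hy, hyy]
    · rw [fR c' y (by rw [hc']; exact hc)]; simp
  have hroot2 : ∀ x ∈ N, ∀ y, ν x = some y → (fib G f).Reachable x y := by
    intro x hx y hxy
    obtain ⟨hy, hyy⟩ := hν1 x hx y hxy
    have hjT : (j ⟨y, hy⟩ : V) ∈ T₁ := (j ⟨y, hy⟩).2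
    obtain ⟨c, hc, hadj'⟩ := hadj _ (h1 hjT) x hx
    have hRc : R (g c) y := ⟨hy, hyy, hc.symm⟩
    refine SimpleGraph.Reachable.trans (SimpleGraph.Adj.reachable ⟨hadj'.symm, ?_, ?_⟩)
      (hroot1 y hy hyy c hRc)
    · rw [fR c y hRc, fN x hx, hxy]
    · rw [fN x hx, hxy]; simp
  have hModel : Model G f := by
    constructor
    · intro x y hxy
      rcases fcases x y hxy with ⟨hx, h⟩ | ⟨hx, h⟩ | h
      · obtain ⟨hy, hyy⟩ := hν1 x hx y h
        rw [fN y hy, hyy]
      · have hP := hp _ hx
        have hyy := hP.idem x y h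
        have hys := hP.supp y (by rw [hyy]; simp)
        rw [fp _ hx y hys, hyy]
      · obtain ⟨hy, hyy, -⟩ := h
        rw [fN y hy, hyy]
    · intro x y hxy
      rcases fcases x y hxy with ⟨hx, h⟩ | ⟨hx, h⟩ | h
      · exact hroot2 x hx y h
      · have hP := hp _ hx
        by_cases hy : y ∈ N
        · obtain ⟨x', hx', hxy', hr⟩ := hP.root x y h hy
          refine (hr.mono (hle _ hx)).trans (hroot2 x' hx' y ?_)
          rw [← hν _ hx x' hx', hxy']
        · exact (hP.conn x y h hy).mono (hle _ hx)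
      · obtain ⟨hy, hyy, h3⟩ := h
        exact hroot1 y hy hyy x ⟨hy, hyy, h3⟩
  refine ⟨f, hModel, ?_, ?_⟩
  · -- labels
    have hsub : lab f ⊆ N ∪ T₂.biUnion (fun i => patL g i (p i)) := by
      intro y hy
      rw [Group_mem_lab] at hy
      rw [Finset.mem_union, Finset.mem_biUnion]
      rcases fcases y y hy with ⟨hx, h⟩ | ⟨hx, h⟩ | h
      · exact Or.inl hx
      · exact Or.inr ⟨g y, hx, Group_mem_patL.mpr ⟨h, rfl⟩⟩
      · exact Or.inl h.1
    calc (lab f).card ≤ (N ∪ T₂.biUnion (fun i => patL g i (p i))).card := Finset.card_le_card hsub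
      _ ≤ N.card + (T₂.biUnion (fun i => patL g i (p i))).card := Finset.card_union_le _ _
      _ ≤ _ := Nat.add_le_add_left Finset.card_biUnion_le _
  · -- edges
    have hdis : (T₂ : Set V).PairwiseDisjoint (fun i => patE G g N i (p i)) := by
      intro i hi i' hi' hne
      rw [Function.onFun, Finset.disjoint_left]
      intro e he he'
      obtain ⟨he1, v, hv, hvi⟩ := Group_mem_patE.mp he
      obtain ⟨he1', v', hv', hvi'⟩ := Group_mem_patE.mp he'
      -- `v'` is a label of the pattern `p i`
      have hv'supp : v' ∈ N ∨ g v' = i := by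
        revert he1 hv'
        induction e using Sym2.ind with
        | _ a b =>
          intro he1 hv'
          rw [SimpleGraph.mem_edgeSet] at he1
          obtain ⟨-, c, d, hc, hd, -⟩ := he1
          have ha := (hp i hi).supp a (by rw [(hp i hi).idem c a hc]; simp)
          have hb := (hp i hi).supp b (by rw [(hp i hi).idem d b hd]; simp)
          rcases Sym2.mem_iff.mp hv' with rfl | rfl
          · exact ha
          · exact hb
      rcases hv'supp with h | h
      · exact hN v' (by rw [hvi']; exact h2 hi') h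
      · exact hne (h.symm.trans hvi')
    rw [← Finset.card_biUnion hdis]
    apply Group_card_le_ecount
    intro e he
    obtain ⟨i, hi, he⟩ := Finset.mem_biUnion.mp he
    obtain ⟨he1, -⟩ := Group_mem_patE.mp he
    revert he1
    clear he
    induction e using Sym2.ind with
    | _ a b =>
      intro he1
      rw [SimpleGraph.mem_edgeSet] at he1 ⊢
      obtain ⟨hab, c, d, hc, hd, hG⟩ := he1
      have hcs := (hp i hi).supp c (by rw [hc]; simp)
      have hds := (hp i hi).supp d (by rw [hd]; simp)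
      exact ⟨hab, c, d, by rw [fp i hi c hcs, hc], by rw [fp i hi d hds, hd], hG.1⟩

open Classical in
/-- The restriction of a labeling to a part and the roots. -/
noncomputable def patR (g : V → V) (N : Finset V) (f : V → Option V) (i : V) : V → Option V :=
  fun x => if x ∈ N ∨ g x = i then f x else none

omit [Fintype V] in
theorem Group_patR_of {g : V → V} {N : Finset V} {f : V → Option V} {i x : V}
    (h : x ∈ N ∨ g x = i) : patR g N f i x = f x := by
  classical
  simp only [patR, if_pos h]

omit [Fintype V] in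
theorem Group_patR_some {g : V → V} {N : Finset V} {f : V → Option V} {i x y : V}
    (h : patR g N f i x = some y) : (x ∈ N ∨ g x = i) ∧ f x = some y := by
  classical
  simp only [patR] at h
  split_ifs at h with h1
  exact ⟨h1, h⟩

omit [Fintype V] in
/-- The restrictions of a model are patterns. -/
theorem Group_restrict (G : SimpleGraph V) (g : V → V) (N S : Finset V)
    (hN : ∀ x, g x ∈ S → x ∉ N) (f : V → Option V) (hf : Model (grp G g N S) f)
    (hconv : ∀ x ∈ N, ∀ y, f x = some y → y ∈ N) (i : V) (hi : i ∈ S) :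
    Pat G g N i (patR g N f i) := by
  have hD : ∀ x y, f x = some y → y ∉ N → g x = i →
      (fib (grp G g N {i}) (patR g N f i)).Reachable x y ∧ (g y = i ∧ f y = some y) := by
    intro x y hxy hy hx
    refine Group_transfer (H := fib (grp G g N S) f) (fun u => g u = i ∧ f u = some y) ?_
      ⟨hx, hxy⟩ (hf.conn x y hxy)
    rintro u v ⟨⟨hG, hor⟩, he, hn⟩ ⟨hu, huy⟩
    have hvy : f v = some y := he ▸ huy
    have huN : u ∉ N := hN u (hu ▸ hi)
    have hvN : v ∉ N := fun h => hy (hconv v h y hvy)
    have hgv : g u = g v := by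
      rcases hor with ⟨-, h⟩ | ⟨-, h⟩ | ⟨h, -⟩
      · exact h
      · exact absurd h hvN
      · exact absurd h huN
    have hv : g v = i := hgv ▸ hu
    refine ⟨⟨⟨hG, Or.inl ⟨by simp [hu], hgv⟩⟩, ?_, ?_⟩, hv, hvy⟩
    · rw [Group_patR_of (Or.inr hu), Group_patR_of (Or.inr hv), he]
    · rw [Group_patR_of (Or.inr hu)]; exact hn
  constructor
  · intro x hx
    obtain ⟨y, hy⟩ := Option.ne_none_iff_exists'.mp hx
    exact (Group_patR_some hy).1
  · intro x y hxy
    obtain ⟨h1, h2⟩ := Group_patR_some hxy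
    have hyy := hf.idem x y h2
    by_cases hy : y ∈ N
    · rw [Group_patR_of (Or.inl hy), hyy]
    · rcases h1 with h1 | h1
      · exact absurd (hconv x h1 y h2) hy
      · rw [Group_patR_of (Or.inr (hD x y h2 hy h1).2.1), hyy]
  · intro x y hxy hy
    obtain ⟨h1, h2⟩ := Group_patR_some hxy
    rcases h1 with h1 | h1
    · exact absurd (hconv x h1 y h2) hy
    · exact (hD x y h2 hy h1).1
  · intro x y hxy hy
    obtain ⟨h1, h2⟩ := Group_patR_some hxy
    by_cases hxN : x ∈ N
    · exact ⟨x, hxN, hxy, SimpleGraph.Reachable.refl _⟩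
    have hx : g x = i := h1.resolve_left hxN
    obtain ⟨w⟩ := hf.conn x y h2
    clear hxy h1
    induction w with
    | nil => exact absurd hy hxN
    | @cons u v z hadj w ih =>
      obtain ⟨⟨hG, hor⟩, he, hn⟩ := hadj
      have hvz : f v = some z := he ▸ h2
      by_cases hvN : v ∈ N
      · refine ⟨v, hvN, ?_, SimpleGraph.Adj.reachable ⟨⟨hG, Or.inr (Or.inl ⟨?_, hvN⟩)⟩, ?_, ?_⟩⟩
        · rw [Group_patR_of (Or.inl hvN), hvz]
        · simp [hx]
        · rw [Group_patR_of (Or.inr hx), Group_patR_of (Or.inl hvN), he]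
        · rw [Group_patR_of (Or.inr hx)]; exact hn
      · have hgv : g u = g v := by
          rcases hor with ⟨-, h⟩ | ⟨-, h⟩ | ⟨h, -⟩
          · exact h
          · exact absurd h hvN
          · exact absurd h hxN
        have hv : g v = i := hgv ▸ hx
        obtain ⟨x', hx', hx'z, hr⟩ := ih hy hvz hvN hv
        refine ⟨x', hx', hx'z, SimpleGraph.Reachable.trans
          (SimpleGraph.Adj.reachable ⟨⟨hG, Or.inl ⟨by simp [hx], hgv⟩⟩, ?_, ?_⟩) hr⟩
        · rw [Group_patR_of (Or.inr hx), Group_patR_of (Or.inr hv), he]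
        · rw [Group_patR_of (Or.inr hx)]; exact hn
  · intro x hx y hxy
    exact hconv x hx y (Group_patR_some hxy).2

open Classical in
/-- The edges of a model: both ends are roots, or the edge belongs to a pattern. -/
theorem Group_edges (G : SimpleGraph V) (g : V → V) (N S : Finset V)
    (hN : ∀ x, g x ∈ S → x ∉ N) (f : V → Option V) (hf : Model (grp G g N S) f)
    (hconv : ∀ x ∈ N, ∀ y, f x = some y → y ∈ N) :
    ecount (quot (grp G g N S) f) ≤ ((lab f).filter (· ∈ N)).card.choose 2 +
      ∑ i ∈ S, (patE G g N i (patR g N f i)).card := by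
  set R := (lab f).filter (· ∈ N) with hR
  have hsub : (quot (grp G g N S) f).edgeSet ⊆
      ((R.offDiag.image Sym2.mk.uncurry ∪ S.biUnion (fun i => patE G g N i (patR g N f i)) :
        Finset (Sym2 V)) : Set (Sym2 V)) := by
    intro e he
    induction e using Sym2.ind with
    | _ y z =>
      rw [SimpleGraph.mem_edgeSet] at he
      obtain ⟨hyz, a, b, ha, hb, hG, hor⟩ := he
      rw [Finset.mem_coe, Finset.mem_union]
      by_cases hy : y ∈ N
      · by_cases hz : z ∈ N
        · left
          rw [Finset.mem_image]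
          refine ⟨(y, z), ?_, rfl⟩
          rw [Finset.mem_offDiag]
          exact ⟨Finset.mem_filter.mpr ⟨Group_mem_lab.mpr (hf.idem a y ha), hy⟩,
            Finset.mem_filter.mpr ⟨Group_mem_lab.mpr (hf.idem b z hb), hz⟩, hyz⟩
        · right
          have hbN : b ∉ N := fun h => hz (hconv b h z hb)
          have hgb : g b ∈ S := by
            rcases hor with ⟨h, h'⟩ | ⟨-, h⟩ | ⟨-, h⟩
            · exact h' ▸ h
            · exact absurd h hbN
            · exact h
          have hP := Group_restrict G g N S hN f hf hconv (g b) hgb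
          rw [Finset.mem_biUnion]
          refine ⟨g b, hgb, Group_mem_patE.mpr ⟨?_, z, by simp, ?_⟩⟩
          · rw [SimpleGraph.mem_edgeSet]
            have hasup : a ∈ N ∨ g a = g b := by
              rcases hor with ⟨-, h⟩ | ⟨-, h⟩ | ⟨h, -⟩
              · exact Or.inr h
              · exact absurd h hbN
              · exact Or.inl h
            refine ⟨hyz, a, b, by rw [Group_patR_of hasup, ha],
              by rw [Group_patR_of (Or.inr rfl), hb], hG, ?_⟩
            rcases hasup with h | h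
            · exact Or.inr (Or.inr ⟨h, by simp⟩)
            · exact Or.inl ⟨by simp [h], h⟩
          · have h1 := hP.conn b z (by rw [Group_patR_of (Or.inr rfl), hb]) hz
            have h2 := hP.supp z (by rw [hP.idem b z (by rw [Group_patR_of (Or.inr rfl), hb])]; simp)
            exact h2.resolve_left hz
      · right
        have haN : a ∉ N := fun h => hy (hconv a h y ha)
        have hga : g a ∈ S := by
          rcases hor with ⟨h, -⟩ | ⟨h, -⟩ | ⟨h, -⟩
          · exact h
          · exact h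
          · exact absurd h haN
        have hP := Group_restrict G g N S hN f hf hconv (g a) hga
        rw [Finset.mem_biUnion]
        refine ⟨g a, hga, Group_mem_patE.mpr ⟨?_, y, by simp, ?_⟩⟩
        · rw [SimpleGraph.mem_edgeSet]
          have hbsup : b ∈ N ∨ g b = g a := by
            rcases hor with ⟨-, h⟩ | ⟨-, h⟩ | ⟨h, -⟩
            · exact Or.inr h.symm
            · exact Or.inl h
            · exact absurd h haN
          refine ⟨hyz, a, b, by rw [Group_patR_of (Or.inr rfl), ha],
            by rw [Group_patR_of hbsup, hb], hG, ?_⟩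
          rcases hbsup with h | h
          · exact Or.inr (Or.inl ⟨by simp, h⟩)
          · exact Or.inl ⟨by simp, h.symm⟩
        · have h2 := hP.supp y (by rw [hP.idem a y (by rw [Group_patR_of (Or.inr rfl), ha])]; simp)
          exact h2.resolve_left hy
  calc ecount (quot (grp G g N S) f)
      ≤ (R.offDiag.image Sym2.mk.uncurry ∪ S.biUnion (fun i => patE G g N i (patR g N f i))).card := by
        rw [ecount, ← Set.ncard_coe_finset]
        exact Set.ncard_le_ncard hsub (Set.toFinite _)
    _ ≤ (R.offDiag.image Sym2.mk.uncurry).card +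
        (S.biUnion (fun i => patE G g N i (patR g N f i))).card := Finset.card_union_le _ _
    _ ≤ R.card.choose 2 + ∑ i ∈ S, (patE G g N i (patR g N f i)).card := by
        refine Nat.add_le_add ?_ Finset.card_biUnion_le
        rw [Sym2.card_image_offDiag]

open Classical in
/-- The labels of a model: the roots and the labels of the patterns. -/
theorem Group_labels (g : V → V) (N S : Finset V) (hN : ∀ x, g x ∈ S → x ∉ N)
    (f : V → Option V) (hsupp : ∀ x, f x ≠ none → x ∈ N ∨ g x ∈ S) :
    (lab f).card = ((lab f).filter (· ∈ N)).card +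
      ∑ i ∈ S, (patL g i (patR g N f i)).card := by
  have hdis : (S : Set V).PairwiseDisjoint (fun i => patL g i (patR g N f i)) := by
    intro i hi i' hi' hne
    rw [Function.onFun, Finset.disjoint_left]
    intro y hy hy'
    exact hne ((Group_mem_patL.mp hy).2.symm.trans (Group_mem_patL.mp hy').2)
  rw [← Finset.card_biUnion hdis, ← Finset.card_union_of_disjoint]
  · congr 1
    ext y
    rw [Finset.mem_union, Finset.mem_filter, Finset.mem_biUnion, Group_mem_lab]
    constructor
    · intro hy
      rcases hsupp y (by rw [hy]; simp) with h | h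
      · exact Or.inl ⟨hy, h⟩
      · exact Or.inr ⟨g y, h, Group_mem_patL.mpr ⟨by rw [Group_patR_of (Or.inr rfl), hy], rfl⟩⟩
    · rintro (⟨h, -⟩ | ⟨i, hi, h⟩)
      · exact h
      · exact (Group_patR_some (Group_mem_patL.mp h).1).2
  · rw [Finset.disjoint_left]
    intro y hy hy'
    obtain ⟨i, hi, h⟩ := Finset.mem_biUnion.mp hy'
    exact hN y ((Group_mem_patL.mp h).2 ▸ hi) (Finset.mem_filter.mp hy).2

/-- A common neighbourhood of many parts is small. -/
theorem Group_root_card (β : ℝ) (hβ : 1 ≤ β) (G : SimpleGraph V) (hS : Sparse β G) (g : V → V)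
    (hg : Model G (fun x => some (g x))) (N T : Finset V) (hT : ∀ i ∈ T, g i = i)
    (hN : ∀ x, g x ∈ T → x ∉ N) (hadj : ∀ i ∈ T, ∀ x ∈ N, ∃ c, g c = i ∧ G.Adj c x)
    (hc : 2 * β + 2 ≤ (T.card : ℝ)) : (N.card : ℝ) ≤ 2 * β := by
  classical
  let f : V → Option V := fun x => if x ∈ N then some x else if g x ∈ T then some (g x) else none
  have fN : ∀ x ∈ N, f x = some x := fun x hx => by simp only [f, if_pos hx]
  have fT : ∀ x, g x ∈ T → f x = some (g x) := fun x hx => by
    simp only [f, if_neg (hN x hx), if_pos hx]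
  have fcases : ∀ x y, f x = some y → (x ∈ N ∧ x = y) ∨ (g x ∈ T ∧ g x = y) := by
    intro x y hxy
    by_cases hx : x ∈ N
    · rw [fN x hx] at hxy
      exact Or.inl ⟨hx, Option.some.inj hxy⟩
    · by_cases hx2 : g x ∈ T
      · rw [fT x hx2] at hxy
        exact Or.inr ⟨hx2, Option.some.inj hxy⟩
      · simp only [f, if_neg hx, if_neg hx2] at hxy
        exact absurd hxy (by simp)
  have hModel : Model G f := by
    constructor
    · intro x y hxy
      rcases fcases x y hxy with ⟨hx, rfl⟩ | ⟨hx, rfl⟩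
      · exact fN x hx
      · rw [fT (g x) (by rw [hT _ hx]; exact hx), hT _ hx]
    · intro x y hxy
      rcases fcases x y hxy with ⟨hx, rfl⟩ | ⟨hx, rfl⟩
      · exact SimpleGraph.Reachable.refl _
      · refine (Group_transfer (K := fib G f) (fun u => g u = g x) ?_ rfl (hg.conn x (g x) rfl)).1
        intro u v huv hu
        have huv2 : g u = g v := Option.some.inj huv.2.1
        have hv : g v = g x := huv2 ▸ hu
        refine ⟨⟨huv.1, ?_, ?_⟩, hv⟩
        · rw [fT u (by rw [hu]; exact hx), fT v (by rw [hv]; exact hx), huv2]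
        · rw [fT u (by rw [hu]; exact hx)]; simp
  have hlab : (lab f).card ≤ N.card + T.card := by
    refine le_trans (Finset.card_le_card (t := N ∪ T) ?_) (Finset.card_union_le _ _)
    intro y hy
    rw [Group_mem_lab] at hy
    rcases fcases y y hy with ⟨hx, -⟩ | ⟨hx, h⟩
    · exact Finset.mem_union_left _ hx
    · exact Finset.mem_union_right _ (h ▸ hx)
  have hNT : ∀ x ∈ N, ∀ i ∈ T, x ≠ i := by
    rintro x hx i hi rfl
    exact hN x (by rw [hT x hi]; exact hi) hx
  have hedge : N.card * T.card ≤ ecount (quot G f) := by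
    rw [← Finset.card_product, ← Finset.card_image_of_injOn (f := Sym2.mk.uncurry)]
    · apply Group_card_le_ecount
      intro e he
      obtain ⟨⟨x, i⟩, hxi, rfl⟩ := Finset.mem_image.mp he
      obtain ⟨hx, hi⟩ := Finset.mem_product.mp hxi
      show s(x, i) ∈ _
      rw [SimpleGraph.mem_edgeSet]
      obtain ⟨c, hc, hadj'⟩ := hadj i hi x hx
      refine ⟨hNT x hx i hi, x, c, fN x hx, ?_, hadj'.symm⟩
      have hci : g c = i := hc
      rw [fT c (by rw [hci]; exact hi), hci]
    · rintro ⟨x, i⟩ hxi ⟨x', i'⟩ hxi' h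
      obtain ⟨hx, hi⟩ := Finset.mem_product.mp (Finset.mem_coe.mp hxi)
      obtain ⟨hx', hi'⟩ := Finset.mem_product.mp (Finset.mem_coe.mp hxi')
      have h' : s(x, i) = s(x', i') := h
      rcases Sym2.eq_iff.mp h' with ⟨h1, h2⟩ | ⟨h1, h2⟩
      · rw [h1, h2]
      · exact absurd h1 (hNT x hx i' hi')
  have h1 := hS f hModel
  have h2 : ((N.card : ℝ) * (T.card : ℝ)) ≤ (ecount (quot G f) : ℝ) := by exact_mod_cast hedge
  have h3 : ((lab f).card : ℝ) ≤ (N.card : ℝ) + (T.card : ℝ) := by exact_mod_cast hlab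
  by_contra hcon
  push Not at hcon
  have h4 : (N.card : ℝ) * (T.card : ℝ) ≤ β * ((N.card : ℝ) + (T.card : ℝ)) + 1 := by
    have := mul_le_mul_of_nonneg_left h3 (by linarith : (0 : ℝ) ≤ β)
    linarith
  nlinarith [mul_pos (sub_pos.mpr hcon) (by linarith : (0 : ℝ) < (T.card : ℝ) - β)]

end Pat

/-- Many parts attached to the same set `N`: up to few exceptions, these parts and `N` form a graph
all of whose minors `H` satisfy `e(H) ≤ β (v(H) - 1)`. -/
theorem group_good (β : ℝ) (hβ : 1 ≤ β) (η : ℝ) (hη : 0 < η) : ∃ K : ℕ,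
    ∀ (V : Type) [Fintype V] (r : ℕ),
      (∀ (p : ℤ) (q : ℕ), q ≤ r → 0 < (p : ℝ) - β * q → η ≤ (p : ℝ) - β * q) →
      ∀ G : SimpleGraph V, Sparse β G →
      ∀ g : V → V, Model G (fun x => some (g x)) → (∀ i, {x | g x = i}.ncard ≤ r) →
      ∀ N T : Finset V, (∀ i ∈ T, g i = i) → (∀ x, g x ∈ T → x ∉ N) →
      (∀ i ∈ T, ∀ x ∈ N, ∃ c, g c = i ∧ G.Adj c x) →
      (∀ i ∈ T, ∀ f, Model G f → (∀ x, f x ≠ none → g x = i) → (lab f).Nonempty →
        (ecount (quot G f) : ℝ) ≤ β * (((lab f).card : ℝ) - 1)) →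
      K ≤ T.card →
      (N.card : ℝ) ≤ 2 * β ∧ ∃ S ⊆ T, T.card ≤ S.card + K ∧
        ∀ f, Model (grp G g N S) f → (∀ x, f x ≠ none → x ∈ N ∨ g x ∈ S) →
          (∀ x ∈ N, ∀ y, f x = some y → y ∈ N) → (lab f).Nonempty →
          (ecount (quot (grp G g N S) f) : ℝ) ≤ β * (((lab f).card : ℝ) - 1) := by
  classical
  set A : ℕ := ⌊2 * β⌋₊ with hA
  set k₂ : ℕ := ⌊(2 * β ^ 2 + 1) / η⌋₊ + 1 with hk₂
  refine ⟨(A + 1) ^ A * k₂ + k₂ + A + ⌈2 * β⌉₊ + 3, ?_⟩
  intro V _ r hdisc G hS g hg hr N T hT hN hadj hgood hK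
  have hβ0 : 0 ≤ β := by linarith
  have hNc : (N.card : ℝ) ≤ 2 * β := by
    refine Group_root_card β hβ G hS g hg N T hT hN hadj ?_
    have h1 : 2 * β ≤ (⌈2 * β⌉₊ : ℝ) := Nat.le_ceil _
    have h2 : ((⌈2 * β⌉₊ + 3 : ℕ) : ℝ) ≤ (T.card : ℝ) := by
      exact_mod_cast (by omega : ⌈2 * β⌉₊ + 3 ≤ T.card)
    push_cast at h2
    linarith
  refine ⟨hNc, ?_⟩
  have hNA : N.card ≤ A := Nat.le_floor hNc
  let τ : V → (V → Option V) → ℝ := fun i p =>
    ((patE G g N i p).card : ℝ) - β * ((patL g i p).card : ℝ)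
  set bad : Finset V := T.filter (fun i => ∃ p, Pat G g N i p ∧ 0 < τ i p) with hbad
  have hbadT : bad ⊆ T := Finset.filter_subset _ _
  -- there are few bad parts
  have hbadc : bad.card ≤ (A + 1) ^ A * k₂ := by
    by_contra hcon
    push Not at hcon
    have hex : ∀ i ∈ bad, ∃ p, Pat G g N i p ∧ 0 < τ i p := fun i hi =>
      (Finset.mem_filter.mp hi).2
    choose! p hp using hex
    let key : V → ({x // x ∈ N} → Option {y // y ∈ N}) := fun i x =>
      (p i x).bind fun y => if h : y ∈ N then some ⟨y, h⟩ else none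
    have hkey : ∀ i ∈ bad, ∀ x : {x // x ∈ N}, (key i x).map Subtype.val = p i x := by
      intro i hi x
      simp only [key]
      rcases h : p i x with _ | y
      · rfl
      · have hy : y ∈ N := (hp i hi).1.conv x x.2 y h
        simp [hy]
    have hcard : (Finset.univ : Finset ({x // x ∈ N} → Option {y // y ∈ N})).card ≤
        (A + 1) ^ A := by
      rw [Finset.card_univ, Fintype.card_fun, Fintype.card_option, Fintype.card_coe]
      calc (N.card + 1) ^ N.card ≤ (A + 1) ^ N.card := Nat.pow_le_pow_left (by omega) _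
        _ ≤ (A + 1) ^ A := Nat.pow_le_pow_right (by omega) hNA
    obtain ⟨κ, -, hκ⟩ := Finset.exists_lt_card_fiber_of_mul_lt_card_of_maps_to
      (s := bad) (t := Finset.univ) (f := key) (n := k₂) (fun _ _ => Finset.mem_univ _)
      (lt_of_le_of_lt (Nat.mul_le_mul_right _ hcard) hcon)
    obtain ⟨T₂, hT₂, hT₂c⟩ := Finset.exists_subset_card_eq hκ.le
    have hT₂bad : ∀ i ∈ T₂, i ∈ bad := fun i hi => (Finset.mem_filter.mp (hT₂ hi)).1
    have hT₂key : ∀ i ∈ T₂, key i = κ := fun i hi => (Finset.mem_filter.mp (hT₂ hi)).2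
    have hT₂T : T₂ ⊆ T := fun i hi => hbadT (hT₂bad i hi)
    have hne : T₂.Nonempty := by
      rw [← Finset.card_pos, hT₂c, hk₂]
      omega
    obtain ⟨i₀, hi₀⟩ := hne
    obtain ⟨f, hf, hfl, hfe⟩ := Group_glue G g hg N T hN hadj (T \ T₂) T₂
      Finset.sdiff_subset hT₂T Finset.sdiff_disjoint (by
        rw [Finset.card_sdiff_of_subset hT₂T, hT₂c]
        have h1 : 1 ≤ (A + 1) ^ A := Nat.one_le_pow _ _ (by omega)
        omega) p (fun i hi => (hp i (hT₂bad i hi)).1) (p i₀) (by
        intro i hi x hx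
        rw [← hkey i (hT₂bad i hi) ⟨x, hx⟩, ← hkey i₀ (hT₂bad i₀ hi₀) ⟨x, hx⟩, hT₂key i hi,
          hT₂key i₀ hi₀]) ⟨i₀, hi₀⟩
    have hsp := hS f hf
    have h1 : ((lab f).card : ℝ) ≤ (N.card : ℝ) + ∑ i ∈ T₂, ((patL g i (p i)).card : ℝ) := by
      exact_mod_cast hfl
    have h2 : ∑ i ∈ T₂, ((patE G g N i (p i)).card : ℝ) ≤ (ecount (quot G f) : ℝ) := by
      exact_mod_cast hfe
    have h3 : (k₂ : ℝ) * η ≤ ∑ i ∈ T₂, τ i (p i) := by
      rw [← hT₂c, ← nsmul_eq_mul]
      apply Finset.card_nsmul_le_sum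
      intro i hi
      have hpos := (hp i (hT₂bad i hi)).2
      have hle : (patL g i (p i)).card ≤ r := by
        refine le_trans ?_ (hr i)
        rw [← Set.ncard_coe_finset]
        exact Set.ncard_le_ncard (fun y hy => (Group_mem_patL.mp hy).2) (Set.toFinite _)
      have := hdisc ((patE G g N i (p i)).card : ℤ) _ hle (by push_cast; exact hpos)
      push_cast at this
      exact this
    have h4 : ∑ i ∈ T₂, τ i (p i) = ∑ i ∈ T₂, ((patE G g N i (p i)).card : ℝ) -
        β * ∑ i ∈ T₂, ((patL g i (p i)).card : ℝ) := by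
      rw [Finset.mul_sum, ← Finset.sum_sub_distrib]
    have h5 : (2 * β ^ 2 + 1) / η < k₂ := by
      rw [hk₂]
      push_cast
      exact Nat.lt_floor_add_one _
    have h6 : 2 * β ^ 2 + 1 < k₂ * η := by
      rwa [div_lt_iff₀ hη] at h5
    have h7 : β * ((lab f).card : ℝ) ≤
        β * ((N.card : ℝ) + ∑ i ∈ T₂, ((patL g i (p i)).card : ℝ)) :=
      mul_le_mul_of_nonneg_left h1 hβ0
    have h8 : β * (N.card : ℝ) ≤ β * (2 * β) := mul_le_mul_of_nonneg_left hNc hβ0
    nlinarith
  refine ⟨T \ bad, Finset.sdiff_subset, ?_, ?_⟩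
  · have := Finset.card_sdiff_add_card_eq_card hbadT
    omega
  intro f hf hsupp hconv hne
  set S := T \ bad with hSdef
  have hST : S ⊆ T := Finset.sdiff_subset
  have hNS : ∀ x, g x ∈ S → x ∉ N := fun x hx => hN x (hST hx)
  have hP : ∀ i ∈ S, Pat G g N i (patR g N f i) := fun i hi =>
    Group_restrict G g N S hNS f hf hconv i hi
  have hτ : ∀ i ∈ S, ((patE G g N i (patR g N f i)).card : ℝ) ≤
      β * ((patL g i (patR g N f i)).card : ℝ) := by
    intro i hi
    by_contra hcon
    push Not at hcon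
    have hib : i ∉ bad := (Finset.mem_sdiff.mp hi).2
    exact hib (Finset.mem_filter.mpr ⟨hST hi, _, hP i hi, sub_pos.mpr hcon⟩)
  have hE := Group_edges G g N S hNS f hf hconv
  have hL := Group_labels g N S hNS f hsupp
  set R := (lab f).filter (· ∈ N) with hR
  have hE' : (ecount (quot (grp G g N S) f) : ℝ) ≤ (R.card : ℝ) * ((R.card : ℝ) - 1) / 2 +
      ∑ i ∈ S, ((patE G g N i (patR g N f i)).card : ℝ) := by
    have : (ecount (quot (grp G g N S) f) : ℝ) ≤ ((R.card.choose 2 : ℕ) : ℝ) +
        ∑ i ∈ S, ((patE G g N i (patR g N f i)).card : ℝ) := by exact_mod_cast hE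
    rwa [Nat.cast_choose_two] at this
  have hL' : ((lab f).card : ℝ) = (R.card : ℝ) +
      ∑ i ∈ S, ((patL g i (patR g N f i)).card : ℝ) := by exact_mod_cast hL
  rcases R.eq_empty_or_nonempty with hRe | hRne
  · -- no root: all labels are in parts
    rw [hRe] at hE' hL'
    simp only [Finset.card_empty, Nat.cast_zero, zero_mul, zero_div, zero_add] at hE' hL'
    have hNnone : ∀ x ∈ N, f x = none := by
      intro x hx
      by_contra hcon
      obtain ⟨y, hy⟩ := Option.ne_none_iff_exists'.mp hcon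
      have : y ∈ R := Finset.mem_filter.mpr
        ⟨Group_mem_lab.mpr (hf.idem x y hy), hconv x hx y hy⟩
      rw [hRe] at this
      exact absurd this (Finset.notMem_empty _)
    obtain ⟨y, hy⟩ := hne
    rw [Group_mem_lab] at hy
    have hyN : y ∉ N := fun h => by
      rw [hNnone y h] at hy
      exact absurd hy (by simp)
    have hi₁ : g y ∈ S := (hsupp y (by rw [hy]; simp)).resolve_left hyN
    -- the part of `y` contributes one less
    have hkey : ((patE G g N (g y) (patR g N f (g y))).card : ℝ) ≤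
        β * (((patL g (g y) (patR g N f (g y))).card : ℝ) - 1) := by
      set p := patR g N f (g y) with hp
      have hPp := hP _ hi₁
      have hpnot : ∀ x z, p x = some z → z ∉ N := by
        intro x z hxz hz
        have h2 := (Group_patR_some hxz).2
        have h3 := hf.idem x z h2
        rw [hNnone z hz] at h3
        exact absurd h3 (by simp)
      have hpsupp : ∀ x, p x ≠ none → g x = g y := by
        intro x hx
        rcases hPp.supp x hx with h | h
        · exfalso
          apply hx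
          rw [hp, Group_patR_of (Or.inl h), hNnone x h]
        · exact h
      have hmodel : Model G p := by
        constructor
        · exact hPp.idem
        · intro x z hxz
          refine (hPp.conn x z hxz (hpnot x z hxz)).mono ?_
          intro u v huv
          exact ⟨huv.1.1, huv.2⟩
      have hlab : lab p = patL g (g y) p := by
        ext z
        rw [Group_mem_lab, Group_mem_patL]
        exact ⟨fun h => ⟨h, hpsupp z (by rw [h]; simp)⟩, fun h => h.1⟩
      have hyl : y ∈ lab p := by
        rw [Group_mem_lab, hp, Group_patR_of (Or.inr rfl), hy]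
      have h1 := hgood (g y) (hST hi₁) p hmodel hpsupp ⟨y, hyl⟩
      rw [hlab] at h1
      refine le_trans ?_ h1
      have : (patE G g N (g y) p).card ≤ ecount (quot G p) := by
        apply Group_card_le_ecount
        intro e he
        obtain ⟨he1, -⟩ := Group_mem_patE.mp he
        revert he1
        clear he
        induction e using Sym2.ind with
        | _ a b =>
          intro he1
          rw [SimpleGraph.mem_edgeSet] at he1 ⊢
          obtain ⟨hab, c, d, hc, hd, hG⟩ := he1
          exact ⟨hab, c, d, hc, hd, hG.1⟩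
      exact_mod_cast this
    have hsum : ∑ i ∈ S, ((patE G g N i (patR g N f i)).card : ℝ) ≤
        β * ∑ i ∈ S, ((patL g i (patR g N f i)).card : ℝ) - β := by
      rw [← Finset.add_sum_erase S _ hi₁, ← Finset.add_sum_erase S
        (fun i => ((patL g i (patR g N f i)).card : ℝ)) hi₁]
      have h1 : ∑ i ∈ S.erase (g y), ((patE G g N i (patR g N f i)).card : ℝ) ≤
          β * ∑ i ∈ S.erase (g y), ((patL g i (patR g N f i)).card : ℝ) := by
        rw [Finset.mul_sum]
        exact Finset.sum_le_sum fun i hi => hτ i (Finset.mem_of_mem_erase hi)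
      linarith
    rw [hL']
    linarith
  · -- there are roots
    have hR1 : (1 : ℝ) ≤ (R.card : ℝ) := by exact_mod_cast Finset.card_pos.mpr hRne
    have hR2 : (R.card : ℝ) ≤ 2 * β := by
      refine le_trans ?_ hNc
      exact_mod_cast Finset.card_le_card (fun y hy => (Finset.mem_filter.mp hy).2)
    have hsum : ∑ i ∈ S, ((patE G g N i (patR g N f i)).card : ℝ) ≤
        β * ∑ i ∈ S, ((patL g i (patR g N f i)).card : ℝ) := by
      rw [Finset.mul_sum]
      exact Finset.sum_le_sum fun i hi => hτ i hi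
    rw [hL']
    nlinarith [mul_nonneg (sub_nonneg.mpr hR1) (sub_nonneg.mpr hR2)]

end Pool.Agent.W_MP_03ad1b_co
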