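import Pool.Agent.W_MP_03ad1b_co.Defs

/-!
# Sparse graphs of bounded degree fall apart
-/

set_option autoImplicit false

namespace Pool.Agent.W_MP_03ad1b_co

/-- Weighted graphs all of whose subgraphs have a vertex of small degree: a heavy 2-coloured
pointer structure. -/
lemma Hyper_pointers {V : Type} [DecidableEq V] (w : V → V → ℕ) (hs : ∀ i j, w i j = w j i)
    (h0 : ∀ i, w i i = 0) (N : ℕ) (S : Finset V) :
    (∀ T ⊆ S, T.Nonempty → ∃ i ∈ T, (T.filter fun j => 0 < w i j).card ≤ N) →
    ∃ (h : V → V) (c : V → Bool),
      (∀ i ∈ S, h i = i ∨ (h i ∈ S ∧ 0 < w i (h i) ∧ c (h i) ≠ c i)) ∧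
      ∑ i ∈ S, ∑ j ∈ S, w i j ≤ 2 * N * ∑ i ∈ S, w i (h i) := by
  induction S using Finset.strongInduction with
  | H S ih =>
    intro hdeg
    rcases S.eq_empty_or_nonempty with hS | hS
    · subst hS
      exact ⟨id, fun _ => true, by simp, by simp⟩
    · obtain ⟨i, hi, hideg⟩ := hdeg S (Finset.Subset.refl _) hS
      obtain ⟨h', c', hh', hsum'⟩ := ih (S.erase i) (Finset.erase_ssubset hi)
        (fun T hT hne => hdeg T (hT.trans (Finset.erase_subset _ _)) hne)
      have hSi : insert i (S.erase i) = S := Finset.insert_erase hi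
      have hiS' : i ∉ S.erase i := Finset.notMem_erase i S
      have htot : ∑ k ∈ S, ∑ j ∈ S, w k j =
          2 * (∑ j ∈ S.erase i, w i j) + ∑ k ∈ S.erase i, ∑ j ∈ S.erase i, w k j := by
        have h1 : ∀ k, ∑ j ∈ S, w k j = w k i + ∑ j ∈ S.erase i, w k j := by
          intro k
          conv_lhs => rw [← hSi]
          rw [Finset.sum_insert hiS']
        conv_lhs => rw [← hSi]
        rw [Finset.sum_insert hiS', hSi]
        simp only [h1]
        rw [h0 i, Finset.sum_add_distrib]
        have h2 : ∑ k ∈ S.erase i, w k i = ∑ j ∈ S.erase i, w i j :=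
          Finset.sum_congr rfl fun k _ => hs k i
        rw [h2]
        ring
      by_cases hN : ((S.erase i).filter fun j => 0 < w i j).Nonempty
      · obtain ⟨m, hm, hmax⟩ := Finset.exists_max_image _ (w i) hN
        rw [Finset.mem_filter] at hm
        obtain ⟨hmS, hmw⟩ := hm
        have hmi : m ≠ i := Finset.ne_of_mem_erase hmS
        refine ⟨Function.update h' i m, Function.update c' i (!c' m), ?_, ?_⟩
        · intro k hk
          by_cases hki : k = i
          · subst hki
            right
            rw [Function.update_self, Function.update_self, Function.update_of_ne hmi]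
            refine ⟨Finset.mem_of_mem_erase hmS, hmw, ?_⟩
            cases c' m <;> simp
          · rw [Function.update_of_ne hki, Function.update_of_ne hki]
            have hkS : k ∈ S.erase i := Finset.mem_erase.2 ⟨hki, hk⟩
            rcases hh' k hkS with h1 | ⟨h1, h2, h3⟩
            · exact Or.inl h1
            · right
              have h4 : h' k ≠ i := Finset.ne_of_mem_erase h1
              rw [Function.update_of_ne h4]
              exact ⟨Finset.mem_of_mem_erase h1, h2, h3⟩
        · rw [htot]
          have h1 : ∑ j ∈ S.erase i, w i j ≤ N * w i m := by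
            have h2 : ∑ j ∈ S.erase i, w i j =
                ∑ j ∈ (S.erase i).filter (fun j => 0 < w i j), w i j := by
              rw [Finset.sum_filter]
              refine Finset.sum_congr rfl fun j _ => ?_
              split_ifs with h
              · rfl
              · omega
            rw [h2]
            refine (Finset.sum_le_card_nsmul _ _ (w i m) (fun j hj => hmax j hj)).trans ?_
            rw [smul_eq_mul]
            apply Nat.mul_le_mul_right
            refine le_trans (Finset.card_le_card ?_) hideg
            exact Finset.filter_subset_filter _ (Finset.erase_subset _ _)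
          have h3 : ∑ k ∈ S, w k (Function.update h' i m k) =
              w i m + ∑ k ∈ S.erase i, w k (h' k) := by
            conv_lhs => rw [← hSi]
            rw [Finset.sum_insert hiS', Function.update_self]
            congr 1
            refine Finset.sum_congr rfl fun k hk => ?_
            rw [Function.update_of_ne (Finset.ne_of_mem_erase hk)]
          rw [h3]
          calc 2 * (∑ j ∈ S.erase i, w i j) + ∑ k ∈ S.erase i, ∑ j ∈ S.erase i, w k j
              ≤ 2 * (N * w i m) + 2 * N * ∑ k ∈ S.erase i, w k (h' k) :=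
                Nat.add_le_add (Nat.mul_le_mul_left _ h1) hsum'
            _ = 2 * N * (w i m + ∑ k ∈ S.erase i, w k (h' k)) := by ring
      · refine ⟨Function.update h' i i, c', ?_, ?_⟩
        · intro k hk
          by_cases hki : k = i
          · subst hki
            left
            rw [Function.update_self]
          · rw [Function.update_of_ne hki]
            have hkS : k ∈ S.erase i := Finset.mem_erase.2 ⟨hki, hk⟩
            rcases hh' k hkS with h1 | ⟨h1, h2, h3⟩
            · exact Or.inl h1
            · exact Or.inr ⟨Finset.mem_of_mem_erase h1, h2, h3⟩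
        · rw [htot]
          have h1 : ∑ j ∈ S.erase i, w i j = 0 := by
            apply Finset.sum_eq_zero
            intro j hj
            by_contra hcon
            exact hN ⟨j, Finset.mem_filter.2 ⟨hj, Nat.pos_of_ne_zero hcon⟩⟩
          have h3 : ∑ k ∈ S, w k (Function.update h' i i k) =
              ∑ k ∈ S.erase i, w k (h' k) := by
            conv_lhs => rw [← hSi]
            rw [Finset.sum_insert hiS', Function.update_self, h0, zero_add]
            refine Finset.sum_congr rfl fun k hk => ?_
            rw [Function.update_of_ne (Finset.ne_of_mem_erase hk)]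
          rw [h3, h1, mul_zero, zero_add]
          exact hsum'

lemma Hyper_reach {V : Type} {H H' : SimpleGraph V} {Q : V → Prop}
    (hQ : ∀ a b, Q a → H.Adj a b → Q b ∧ H'.Adj a b) {a b : V} (h : H.Reachable a b) (ha : Q a) :
    H'.Reachable a b := by
  obtain ⟨p⟩ := h
  induction p with
  | nil => exact SimpleGraph.Reachable.refl _
  | cons hab p ih =>
    have h1 := hQ _ _ ha hab
    exact (SimpleGraph.Adj.reachable h1.2).trans (ih h1.1)

section

variable {V : Type} [Fintype V]

open Classical in
/-- number of ordered adjacent pairs between two classes -/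
noncomputable def HyperW (G : SimpleGraph V) (g : V → V) (i j : V) : ℕ :=
  if i = j then 0 else
    (Finset.univ.filter fun p : V × V => g p.1 = i ∧ g p.2 = j ∧ G.Adj p.1 p.2).card

open Classical in
/-- the ordered adjacent pairs between different classes -/
noncomputable def HyperC (G : SimpleGraph V) (g : V → V) : Finset (V × V) :=
  Finset.univ.filter fun p : V × V => G.Adj p.1 p.2 ∧ g p.1 ≠ g p.2

lemma HyperW_symm (G : SimpleGraph V) (g : V → V) (i j : V) : HyperW G g i j = HyperW G g j i := by
  classical
  unfold HyperW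
  by_cases h : i = j
  · simp [h]
  · rw [if_neg h, if_neg (Ne.symm h)]
    apply Finset.card_bij (fun p _ => (p.2, p.1))
    · intro p hp
      simp only [Finset.mem_filter, Finset.mem_univ, true_and] at hp ⊢
      exact ⟨hp.2.1, hp.1, hp.2.2.symm⟩
    · rintro ⟨a, b⟩ _ ⟨c, d⟩ _ h
      simp only [Prod.mk.injEq] at h ⊢
      exact ⟨h.2, h.1⟩
    · rintro ⟨a, b⟩ hp
      simp only [Finset.mem_filter, Finset.mem_univ, true_and] at hp
      exact ⟨(b, a), by simp only [Finset.mem_filter, Finset.mem_univ, true_and]; exact ⟨hp.2.1, hp.1, hp.2.2.symm⟩, rfl⟩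

lemma HyperW_pos {G : SimpleGraph V} {g : V → V} {i j : V} (h : 0 < HyperW G g i j) :
    i ≠ j ∧ ∃ a b, g a = i ∧ g b = j ∧ G.Adj a b := by
  classical
  unfold HyperW at h
  by_cases hij : i = j
  · rw [if_pos hij] at h
    exact absurd h (lt_irrefl 0)
  · rw [if_neg hij] at h
    obtain ⟨p, hp⟩ := Finset.card_pos.1 h
    rw [Finset.mem_filter] at hp
    exact ⟨hij, p.1, p.2, hp.2⟩

lemma HyperC_card {G : SimpleGraph V} {g : V → V} {S : Finset V} (hS : ∀ x, g x ∈ S) :
    (HyperC G g).card = ∑ i ∈ S, ∑ j ∈ S, HyperW G g i j := by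
  classical
  rw [← Finset.sum_product', Finset.card_eq_sum_card_fiberwise
    (f := fun p : V × V => (g p.1, g p.2)) (t := S ×ˢ S)]
  · refine Finset.sum_congr rfl fun q _ => ?_
    unfold HyperW HyperC
    by_cases h : q.1 = q.2
    · rw [if_pos h, Finset.card_eq_zero, Finset.filter_eq_empty_iff]
      intro p hp hq
      rw [Finset.mem_filter] at hp
      apply hp.2.2
      have h1 : g p.1 = q.1 := congrArg Prod.fst hq
      have h2 : g p.2 = q.2 := congrArg Prod.snd hq
      rw [h1, h2, h]
    · rw [if_neg h]
      congr 1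
      ext p
      simp only [Finset.mem_filter, Finset.mem_univ, true_and, Prod.ext_iff]
      constructor
      · rintro ⟨⟨h1, h2⟩, h3, h4⟩
        exact ⟨h3, h4, h1⟩
      · rintro ⟨h3, h4, h1⟩
        exact ⟨⟨h1, by rw [h3, h4]; exact h⟩, h3, h4⟩
  · intro p _
    simp only [Finset.coe_product, Set.mem_prod, Finset.mem_coe]
    exact ⟨hS _, hS _⟩

omit [Fintype V] in
lemma Hyper_idem {G : SimpleGraph V} {g : V → V} (hg : Model G (fun x => some (g x))) (x : V) :
    g (g x) = g x := by
  have := hg.idem x (g x) rfl
  simpa using this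

/-- sparse graphs have vertices of small degree -/
lemma Hyper_degenerate {β : ℝ} {N : ℕ} (hN : 2 * (β + 1) ≤ N) {G : SimpleGraph V}
    (hG : Sparse β G) {g : V → V} (hg : Model G (fun x => some (g x))) (T : Finset V)
    (hT : ∀ i ∈ T, g i = i) (hne : T.Nonempty) :
    ∃ i ∈ T, (T.filter fun j => 0 < HyperW G g i j).card ≤ N := by
  classical
  by_contra hcon
  push Not at hcon
  let f : V → Option V := fun x => if g x ∈ T then some (g x) else none
  have hf : ∀ x y, f x = some y ↔ g x = y ∧ y ∈ T := by
    intro x y
    simp only [f]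
    split_ifs with h
    · constructor
      · intro h1
        have h2 : g x = y := Option.some.inj h1
        exact ⟨h2, h2 ▸ h⟩
      · rintro ⟨h1, _⟩
        rw [h1]
    · constructor
      · intro h1
        exact absurd h1 (by simp)
      · rintro ⟨h1, h2⟩
        exact absurd (h1 ▸ h2) h
  have hmodel : Model G f := by
    constructor
    · intro x y hxy
      rw [hf] at hxy ⊢
      exact ⟨hT y hxy.2, hxy.2⟩
    · intro x y hxy
      rw [hf] at hxy
      obtain ⟨rfl, hy⟩ := hxy
      have h1 := hg.conn x (g x) rfl
      refine Hyper_reach (Q := fun a => g a ∈ T) ?_ h1 hy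
      intro a b ha hab
      obtain ⟨h2, h3, _⟩ := hab
      have h4 : g a = g b := Option.some.inj h3
      have h5 : g b ∈ T := h4 ▸ ha
      refine ⟨h5, h2, ?_, ?_⟩
      · simp only [f, if_pos ha, if_pos h5, h4]
      · simp only [f, if_pos ha]
        simp
  have hsp := hG f hmodel
  have hlab : lab f = T := by
    ext y
    unfold lab
    rw [Finset.mem_filter, hf]
    constructor
    · rintro ⟨_, _, h⟩
      exact h
    · intro h
      exact ⟨Finset.mem_univ _, hT y h, h⟩
  rw [hlab] at hsp
  have hdeg : ∀ i ∈ T, N + 1 ≤ (quot G f).degree i := by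
    intro i hi
    refine (hcon i hi).trans_le ?_
    rw [← SimpleGraph.card_neighborFinset_eq_degree]
    apply Finset.card_le_card
    intro j hj
    rw [Finset.mem_filter] at hj
    obtain ⟨hjT, hw⟩ := hj
    obtain ⟨hij, a, b, ha, hb, hab⟩ := HyperW_pos hw
    rw [SimpleGraph.mem_neighborFinset]
    exact ⟨hij, a, b, (hf a i).2 ⟨ha, hi⟩, (hf b j).2 ⟨hb, hjT⟩, hab⟩
  have h1 : T.card * (N + 1) ≤ 2 * ecount (quot G f) := by
    calc T.card * (N + 1) = ∑ i ∈ T, (N + 1) := by rw [Finset.sum_const, smul_eq_mul]
      _ ≤ ∑ i ∈ T, (quot G f).degree i := Finset.sum_le_sum hdeg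
      _ ≤ ∑ i, (quot G f).degree i := Finset.sum_le_sum_of_subset (Finset.subset_univ _)
      _ = 2 * (quot G f).edgeFinset.card := SimpleGraph.sum_degrees_eq_twice_card_edges _
      _ = 2 * ecount (quot G f) := by
          unfold ecount
          rw [← SimpleGraph.coe_edgeFinset, Set.ncard_coe_finset]
  have h2 : (T.card : ℝ) * (N + 1) ≤ 2 * (ecount (quot G f) : ℝ) := by exact_mod_cast h1
  have h3 : (1 : ℝ) ≤ T.card := by exact_mod_cast hne.card_pos
  nlinarith

/-- one round of merging -/
lemma Hyper_round {β : ℝ} {N : ℕ} (hN : 2 * (β + 1) ≤ N) {Δ : ℕ}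
    {G : SimpleGraph V} (hG : Sparse β G) (hΔ : ∀ x, (G.neighborSet x).ncard ≤ Δ) {g : V → V}
    (hg : Model G (fun x => some (g x))) {t : ℕ} (ht : ∀ i, {x | g x = i}.ncard ≤ t) :
    ∃ g' : V → V, Model G (fun x => some (g' x)) ∧ (∀ i, {x | g' x = i}.ncard ≤ t + t * Δ * t) ∧
      4 * N * (HyperC G g').card + (HyperC G g).card ≤ 4 * N * (HyperC G g).card := by
  classical
  have hidem := Hyper_idem hg
  set S : Finset V := Finset.univ.filter fun i => g i = i with hSdef
  have hS : ∀ x, g x ∈ S := fun x => Finset.mem_filter.2 ⟨Finset.mem_univ _, hidem x⟩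
  have hSm : ∀ i ∈ S, g i = i := fun i hi => (Finset.mem_filter.1 hi).2
  obtain ⟨h, c, hh, hsum⟩ := Hyper_pointers (HyperW G g) (HyperW_symm G g)
    (fun i => by simp [HyperW]) N S (fun T hTS hne =>
      Hyper_degenerate hN hG hg T (fun i hi => hSm i (hTS hi)) hne)
  rw [← HyperC_card hS] at hsum
  -- split by colours
  have hsplit : ∑ i ∈ S, HyperW G g i (h i) =
      ∑ i ∈ S.filter (fun i => c i = true ∧ h i ≠ i), HyperW G g i (h i) +
      ∑ i ∈ S.filter (fun i => c i = false ∧ h i ≠ i), HyperW G g i (h i) := by
    have e1 : ∀ b : Bool, ∑ i ∈ S.filter (fun i => c i = b ∧ h i ≠ i), HyperW G g i (h i) =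
        ∑ i ∈ S, if c i = b ∧ h i ≠ i then HyperW G g i (h i) else 0 := fun b =>
      Finset.sum_filter _ _
    rw [e1 true, e1 false, ← Finset.sum_add_distrib]
    refine Finset.sum_congr rfl fun i _ => ?_
    by_cases hi : h i = i
    · simp [hi, HyperW]
    · cases hc : c i <;> simp [hi]
  obtain ⟨b, hb⟩ : ∃ b : Bool, (HyperC G g).card ≤
      4 * N * ∑ i ∈ S.filter (fun i => c i = b ∧ h i ≠ i), HyperW G g i (h i) := by
    by_contra hcon
    push Not at hcon
    have h1 := hcon true
    have h2 := hcon false
    rw [hsplit] at hsum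
    have h3 : 4 * N * ∑ i ∈ S.filter (fun i => c i = true ∧ h i ≠ i), HyperW G g i (h i) +
      4 * N * ∑ i ∈ S.filter (fun i => c i = false ∧ h i ≠ i), HyperW G g i (h i) =
      2 * (2 * N * (∑ i ∈ S.filter (fun i => c i = true ∧ h i ≠ i), HyperW G g i (h i) +
      ∑ i ∈ S.filter (fun i => c i = false ∧ h i ≠ i), HyperW G g i (h i))) := by ring
    omega
  set A : Finset V := S.filter (fun i => c i = b ∧ h i ≠ i) with hAdef
  have hA : ∀ i ∈ A, i ∈ S ∧ c i = b ∧ h i ∈ S ∧ 0 < HyperW G g i (h i) ∧ h i ∉ A := by
    intro i hi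
    rw [hAdef, Finset.mem_filter] at hi
    obtain ⟨h1, h2, h3⟩ := hi
    rcases hh i h1 with h4 | ⟨h4, h5, h6⟩
    · exact absurd h4 h3
    · refine ⟨h1, h2, h4, h5, ?_⟩
      intro h7
      rw [hAdef, Finset.mem_filter] at h7
      exact h6 (h7.2.1.trans h2.symm)
  let g' : V → V := fun x => if g x ∈ A then h (g x) else g x
  have hg'1 : ∀ x, g x ∈ A → g' x = h (g x) := fun x hx => if_pos hx
  have hg'2 : ∀ x, g x ∉ A → g' x = g x := fun x hx => if_neg hx
  have hg'g : ∀ x y, g x = g y → g' x = g' y := by
    intro x y hxy
    simp only [g', hxy]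
  have hle : ∀ a b, (fib G (fun x => some (g x))).Adj a b → (fib G (fun x => some (g' x))).Adj a b := by
    intro a b hab
    obtain ⟨h1, h2, _⟩ := hab
    have h3 : g a = g b := Option.some.inj h2
    exact ⟨h1, congrArg some (hg'g a b h3), by simp⟩
  have hconn0 : ∀ x, (fib G (fun x => some (g' x))).Reachable x (g x) := by
    intro x
    exact Hyper_reach (Q := fun _ => True) (fun a b _ hab => ⟨trivial, hle a b hab⟩)
      (hg.conn x (g x) rfl) trivial
  have hmodel : Model G (fun x => some (g' x)) := by
    constructor
    · intro x y hxy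
      have h1 : g' x = y := Option.some.inj hxy
      have h2 : g' y = y := by
        rw [← h1]
        by_cases hx : g x ∈ A
        · rw [hg'1 x hx]
          obtain ⟨_, _, h3, _, h4⟩ := hA _ hx
          have h5 : g (h (g x)) = h (g x) := hSm _ h3
          rw [hg'2 _ (by rw [h5]; exact h4), h5]
        · rw [hg'2 x hx, hg'2 _ (by rw [hidem]; exact hx), hidem]
      exact congrArg some h2
    · intro x y hxy
      have h1 : g' x = y := Option.some.inj hxy
      rw [← h1]
      by_cases hx : g x ∈ A
      · rw [hg'1 x hx]
        obtain ⟨_, _, h3, h4, h5⟩ := hA _ hx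
        obtain ⟨_, a, b', ha, hb', hab⟩ := HyperW_pos h4
        have h6 : g' a = h (g x) := by rw [hg'1 a (by rw [ha]; exact hx), ha]
        have h7 : g' b' = h (g x) := by rw [hg'2 b' (by rw [hb']; exact h5), hb']
        have h8 : (fib G (fun x => some (g' x))).Adj a b' :=
          ⟨hab, by simp only [h6, h7], by simp⟩
        have h9 : (fib G (fun x => some (g' x))).Reachable x a := by
          have := hconn0 a
          rw [ha] at this
          exact (hconn0 x).trans this.symm
        have h10 : (fib G (fun x => some (g' x))).Reachable b' (h (g x)) := by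
          have := hconn0 b'
          rwa [hb'] at this
        exact h9.trans (h8.reachable.trans h10)
      · rw [hg'2 x hx]
        exact hconn0 x
  refine ⟨g', hmodel, ?_, ?_⟩
  · -- sizes
    intro j
    let B : Finset V := Finset.univ.filter fun x => g x = j
    have hB : B.card ≤ t := by
      have h1 := ht j
      have h2 : {x | g x = j} = (B : Set V) := by
        ext x
        simp [B]
      rw [h2, Set.ncard_coe_finset] at h1
      exact h1
    let I : Finset V := (B.biUnion fun b' => Finset.univ.filter fun a => G.Adj b' a).image g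
    have hI : I.card ≤ t * Δ := by
      refine Finset.card_image_le.trans (Finset.card_biUnion_le.trans ?_)
      have h1 : ∀ b' ∈ B, (Finset.univ.filter fun a => G.Adj b' a).card ≤ Δ := by
        intro b' _
        have h2 := hΔ b'
        have h3 : G.neighborSet b' = ((Finset.univ.filter fun a => G.Adj b' a : Finset V) : Set V) := by
          ext x
          simp
        rw [h3, Set.ncard_coe_finset] at h2
        exact h2
      refine (Finset.sum_le_card_nsmul _ _ Δ h1).trans ?_
      rw [smul_eq_mul]
      exact Nat.mul_le_mul_right _ hB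
    have hsub : {x | g' x = j} ⊆ ((B ∪ I.biUnion fun i => Finset.univ.filter fun x => g x = i :
        Finset V) : Set V) := by
      intro x hx
      have hx' : g' x = j := hx
      rw [Finset.mem_coe, Finset.mem_union]
      by_cases hxA : g x ∈ A
      · right
        rw [hg'1 x hxA] at hx'
        obtain ⟨_, _, _, h4, _⟩ := hA _ hxA
        obtain ⟨_, a, b', ha, hb', hab⟩ := HyperW_pos h4
        rw [Finset.mem_biUnion]
        refine ⟨g x, ?_, by simp⟩
        rw [Finset.mem_image]
        refine ⟨a, ?_, ha⟩
        rw [Finset.mem_biUnion]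
        refine ⟨b', ?_, ?_⟩
        · rw [Finset.mem_filter]
          exact ⟨Finset.mem_univ _, hb'.trans hx'⟩
        · rw [Finset.mem_filter]
          exact ⟨Finset.mem_univ _, hab.symm⟩
      · left
        rw [hg'2 x hxA] at hx'
        rw [Finset.mem_filter]
        exact ⟨Finset.mem_univ _, hx'⟩
    refine (Set.ncard_le_ncard hsub (Finset.finite_toSet _)).trans ?_
    rw [Set.ncard_coe_finset]
    refine (Finset.card_union_le _ _).trans (Nat.add_le_add hB ?_)
    refine Finset.card_biUnion_le.trans ?_
    have h1 : ∀ i ∈ I, (Finset.univ.filter fun x => g x = i).card ≤ t := by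
      intro i _
      have h2 := ht i
      have h3 : {x | g x = i} = ((Finset.univ.filter fun x => g x = i : Finset V) : Set V) := by
        ext x
        simp
      rw [h3, Set.ncard_coe_finset] at h2
      exact h2
    refine (Finset.sum_le_card_nsmul _ _ t h1).trans ?_
    rw [smul_eq_mul]
    exact Nat.mul_le_mul_right _ hI
  · -- crossing pairs
    have hcount : (HyperC G g').card + ∑ i ∈ A, HyperW G g i (h i) ≤ (HyperC G g).card := by
      have h1 : ∑ i ∈ A, HyperW G g i (h i) =
          (A.biUnion fun i => Finset.univ.filter fun p : V × V =>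
            g p.1 = i ∧ g p.2 = h i ∧ G.Adj p.1 p.2).card := by
        rw [Finset.card_biUnion]
        · refine Finset.sum_congr rfl fun i hi => ?_
          have h2 := (HyperW_pos (hA i hi).2.2.2.1).1
          unfold HyperW
          rw [if_neg h2]
        · intro i _ i' _ hii
          rw [Function.onFun, Finset.disjoint_left]
          intro p hp hp'
          rw [Finset.mem_filter] at hp hp'
          exact hii (hp.2.1.symm.trans hp'.2.1)
      rw [h1, ← Finset.card_union_of_disjoint]
      · apply Finset.card_le_card
        intro p hp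
        rw [Finset.mem_union] at hp
        unfold HyperC
        rw [Finset.mem_filter]
        rcases hp with hp | hp
        · unfold HyperC at hp
          rw [Finset.mem_filter] at hp
          exact ⟨Finset.mem_univ _, hp.2.1, fun h2 => hp.2.2 (hg'g _ _ h2)⟩
        · rw [Finset.mem_biUnion] at hp
          obtain ⟨i, hi, hp⟩ := hp
          rw [Finset.mem_filter] at hp
          refine ⟨Finset.mem_univ _, hp.2.2.2, ?_⟩
          rw [hp.2.1, hp.2.2.1]
          exact (HyperW_pos (hA i hi).2.2.2.1).1
      · rw [Finset.disjoint_left]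
        intro p hp hp'
        unfold HyperC at hp
        rw [Finset.mem_filter] at hp
        rw [Finset.mem_biUnion] at hp'
        obtain ⟨i, hi, hp'⟩ := hp'
        rw [Finset.mem_filter] at hp'
        apply hp.2.2
        rw [hg'1 p.1 (by rw [hp'.2.1]; exact hi), hp'.2.1,
          hg'2 p.2 (by rw [hp'.2.2.1]; exact (hA i hi).2.2.2.2), hp'.2.2.1]
    calc 4 * N * (HyperC G g').card + (HyperC G g).card
        ≤ 4 * N * (HyperC G g').card + 4 * N * ∑ i ∈ A, HyperW G g i (h i) :=
          Nat.add_le_add_left hb _
      _ = 4 * N * ((HyperC G g').card + ∑ i ∈ A, HyperW G g i (h i)) := by ring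
      _ ≤ 4 * N * (HyperC G g).card := Nat.mul_le_mul_left _ hcount

end

/-- bounds of the part sizes -/
def Hyper_size (Δ : ℕ) : ℕ → ℕ
  | 0 => 1
  | k + 1 => Hyper_size Δ k + Hyper_size Δ k * Δ * Hyper_size Δ k

/-- The vertices of a sparse graph of maximum degree at most `Δ` can be partitioned into connected
parts of size at most `r`, such that only few edges join different parts. -/
theorem hyperfinite (β : ℝ) (hβ : 1 ≤ β) (Δ : ℕ) (κ : ℝ) (hκ : 0 < κ) :
    ∃ r : ℕ, ∀ (V : Type) [Fintype V] (G : SimpleGraph V), Sparse β G →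
      (∀ x, (G.neighborSet x).ncard ≤ Δ) →
      ∃ g : V → V, Model G (fun x => some (g x)) ∧ (∀ i, {x | g x = i}.ncard ≤ r) ∧
        ({p : V × V | G.Adj p.1 p.2 ∧ g p.1 ≠ g p.2}.ncard : ℝ) ≤ κ * (Fintype.card V : ℝ) := by
  classical
  obtain ⟨N, hN⟩ := exists_nat_ge (2 * (β + 1))
  have hN0 : (0 : ℝ) < N := by linarith
  set q : ℝ := 1 - 1 / (4 * N) with hq
  have hq1 : q < 1 := by
    have : 0 < 1 / (4 * (N : ℝ)) := by positivity
    linarith
  have hq0 : 0 ≤ q := by
    have : 1 / (4 * (N : ℝ)) ≤ 1 := by
      rw [div_le_one (by positivity)]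
      linarith
    linarith
  obtain ⟨k, hk⟩ := exists_pow_lt_of_lt_one (show (0 : ℝ) < κ / (Δ + 1) by positivity) hq1
  refine ⟨Hyper_size Δ k, fun V _ G hG hΔ => ?_⟩
  have main : ∀ m : ℕ, ∃ g : V → V, Model G (fun x => some (g x)) ∧
      (∀ i, {x | g x = i}.ncard ≤ Hyper_size Δ m) ∧
      ((HyperC G g).card : ℝ) ≤ q ^ m * (Δ * Fintype.card V) := by
    intro m
    induction m with
    | zero =>
      refine ⟨id, ?_, ?_, ?_⟩
      · constructor
        · intro x y _
          rfl
        · intro x y hxy
          have h1 : x = y := Option.some.inj hxy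
          rw [h1]
      · intro i
        have : {x : V | id x = i} = {i} := by
          ext x
          simp
        rw [this, Set.ncard_singleton]
        exact le_refl 1
      · rw [pow_zero, one_mul]
        have h1 : (HyperC G id).card ≤ Δ * Fintype.card V := by
          have h2 : HyperC G id ⊆ (Finset.univ : Finset V).biUnion fun x =>
              (Finset.univ.filter fun y => G.Adj x y).image fun y => (x, y) := by
            intro p hp
            unfold HyperC at hp
            rw [Finset.mem_filter] at hp
            rw [Finset.mem_biUnion]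
            refine ⟨p.1, Finset.mem_univ _, ?_⟩
            rw [Finset.mem_image]
            exact ⟨p.2, Finset.mem_filter.2 ⟨Finset.mem_univ _, hp.2.1⟩, rfl⟩
          refine (Finset.card_le_card h2).trans (Finset.card_biUnion_le.trans ?_)
          have h3 : ∀ x ∈ (Finset.univ : Finset V),
              ((Finset.univ.filter fun y => G.Adj x y).image fun y => (x, y)).card ≤ Δ := by
            intro x _
            refine Finset.card_image_le.trans ?_
            have h4 := hΔ x
            have h5 : G.neighborSet x =
                ((Finset.univ.filter fun a => G.Adj x a : Finset V) : Set V) := by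
              ext y
              simp
            rw [h5, Set.ncard_coe_finset] at h4
            exact h4
          refine (Finset.sum_le_card_nsmul _ _ Δ h3).trans ?_
          rw [smul_eq_mul, Finset.card_univ, mul_comm]
        exact_mod_cast h1
    | succ m ih =>
      obtain ⟨g, hg, hgt, hgc⟩ := ih
      obtain ⟨g', hg', hgt', hgc'⟩ := Hyper_round hN hG hΔ hg hgt
      refine ⟨g', hg', hgt', ?_⟩
      have h1 : (4 * N * (HyperC G g').card + (HyperC G g).card : ℝ) ≤
          4 * N * (HyperC G g).card := by exact_mod_cast hgc'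
      have h2 : ((HyperC G g').card : ℝ) ≤ q * (HyperC G g).card := by
        have h3 : q * ((HyperC G g).card : ℝ) =
            (4 * N * (HyperC G g).card - (HyperC G g).card) / (4 * N) := by
          rw [hq]
          field_simp
        rw [h3, le_div_iff₀ (by positivity)]
        linarith
      calc ((HyperC G g').card : ℝ) ≤ q * (HyperC G g).card := h2
        _ ≤ q * (q ^ m * (Δ * Fintype.card V)) := mul_le_mul_of_nonneg_left hgc hq0
        _ = q ^ (m + 1) * (Δ * Fintype.card V) := by ring
  obtain ⟨g, hg, hgt, hgc⟩ := main k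
  refine ⟨g, hg, hgt, ?_⟩
  have h1 : {p : V × V | G.Adj p.1 p.2 ∧ g p.1 ≠ g p.2} = (HyperC G g : Set (V × V)) := by
    ext p
    simp [HyperC]
  rw [h1, Set.ncard_coe_finset]
  refine hgc.trans ?_
  have h2 : q ^ k * Δ ≤ κ := by
    have h3 : q ^ k * (Δ + 1) < κ := by
      rwa [lt_div_iff₀ (by positivity)] at hk
    have h4 : 0 ≤ q ^ k := pow_nonneg hq0 k
    nlinarith
  calc q ^ k * (Δ * Fintype.card V) = q ^ k * Δ * Fintype.card V := by ring
    _ ≤ κ * Fintype.card V := mul_le_mul_of_nonneg_right h2 (Nat.cast_nonneg _)

end Pool.Agent.W_MP_03ad1b_co
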