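import Pool.Agent.W_MP_03ad1b_co.Discrete
import Pool.Agent.W_MP_03ad1b_co.Hyper
import Pool.Agent.W_MP_03ad1b_co.Bad
import Pool.Agent.W_MP_03ad1b_co.Cliques
import Pool.Agent.W_MP_03ad1b_co.Group
import Pool.Agent.W_MP_03ad1b_co.Count

/-!
# The main argument
-/

set_option autoImplicit false

namespace Pool.Agent.W_MP_03ad1b_co

/-- The edges inside a set. -/
def Core_restr {V : Type} (G : SimpleGraph V) (L : Finset V) : SimpleGraph V where
  Adj x y := G.Adj x y ∧ x ∈ L ∧ y ∈ L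
  symm := ⟨fun _ _ h => ⟨h.1.symm, h.2.2, h.2.1⟩⟩
  loopless := ⟨fun _ h => h.1.ne rfl⟩

/-- The property of `r` in `hyperfinite`. -/
def HypProp (β κ : ℝ) (Δ r : ℕ) : Prop :=
  ∀ (V : Type) [Fintype V] (G : SimpleGraph V), Sparse β G →
      (∀ x, (G.neighborSet x).ncard ≤ Δ) →
      ∃ g : V → V, Model G (fun x => some (g x)) ∧ (∀ i, {x | g x = i}.ncard ≤ r) ∧
        ({p : V × V | G.Adj p.1 p.2 ∧ g p.1 ≠ g p.2}.ncard : ℝ) ≤ κ * (Fintype.card V : ℝ)

/-- The property of `η` in `discrete`. -/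
def DiscProp (β η : ℝ) (r : ℕ) : Prop :=
  ∀ (p : ℤ) (q : ℕ), q ≤ r → (p : ℝ) - β * q ≠ 0 → η ≤ |(p : ℝ) - β * q|

/-- The property of `K` in `group_good`. -/
def GroupProp (β η : ℝ) (K : ℕ) : Prop :=
    ∀ (V : Type) [Fintype V] (r : ℕ),
      (∀ (p : ℤ) (q : ℕ), q ≤ r → 0 < (p : ℝ) - β * q → η ≤ (p : ℝ) - β * q) →
      ∀ G : SimpleGraph V, Sparse β G →
      ∀ g : V → V, Model G (fun x => some (g x)) → (∀ i, {x | g x = i}.ncard ≤ r) →
      ∀ N T : Finset V, (∀ i ∈ T, g i = i) → (∀ x, g x ∈ T → x ∉ N) →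
      (∀ i ∈ T, ∀ x ∈ N, ∃ c, g c = i ∧ G.Adj c x) →
      (∀ i ∈ T, ∀ f, Model G f → (∀ x, f x ≠ none → g x = i) → (lab f).Nonempty →
        (ecount (quot G f) : ℝ) ≤ β * (((lab f).card : ℝ) - 1)) →
      K ≤ T.card →
      (N.card : ℝ) ≤ 2 * β ∧ ∃ S ⊆ T, T.card ≤ S.card + K ∧
        ∀ f, Model (grp G g N S) f → (∀ x, f x ≠ none → x ∈ N ∨ g x ∈ S) →
          (∀ x ∈ N, ∀ y, f x = some y → y ∈ N) → (lab f).Nonempty →
          (ecount (quot (grp G g N S) f) : ℝ) ≤ β * (((lab f).card : ℝ) - 1)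

theorem Core_mem_nbr {V : Type} {G : SimpleGraph V} {X : Finset V} {g : V → V} {i x : V} :
    x ∈ nbr G X g i ↔ x ∈ X ∧ ∃ c, g c = i ∧ G.Adj c x := by
  classical
  simp only [nbr, Finset.mem_filter]

theorem Core_first {V : Type} {H : SimpleGraph V} {x y : V} (h : H.Reachable x y)
    (hne : x ≠ y) : ∃ z, H.Adj x z := by
  obtain ⟨w⟩ := h
  cases w with
  | nil => exact absurd rfl hne
  | cons h _ => exact ⟨_, h⟩

open Classical in
/-- The partition of the vertices of small degree. -/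
theorem Core_partition (β κ : ℝ) (Δ Δ' r : ℕ) (hΔ : Δ ≤ Δ') (hr : HypProp β κ Δ r)
    {V : Type} [Fintype V] (G : SimpleGraph V) (hS : Sparse β G) (L X M : Finset V)
    (hL : ∀ x, x ∈ L ↔ dg G x < Δ) (hX : ∀ x, x ∈ X ↔ Δ' ≤ dg G x)
    (hM : ∀ x, x ∈ M ↔ Δ ≤ dg G x ∧ dg G x < Δ') :
    ∃ g : V → V, Model G (fun x => some (g x)) ∧ (∀ i, {x | g x = i}.ncard ≤ r) ∧
      (∀ x, g (g x) = g x) ∧ (∀ x, g x ∈ L.filter (fun i => g i = i) ↔ x ∈ L) ∧
      (∀ x, x ∈ L → x ∉ X) ∧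
      (2 * ecount G : ℝ) ≤ 2 * ((∑ x ∈ M, dg G x : ℕ) : ℝ) + 2 * (β * (X.card : ℝ) + 1) +
        κ * (Fintype.card V : ℝ) +
        ∑ i ∈ L.filter (fun i => g i = i), ((pc G (fun x y => g x = i ∧ g x = g y) : ℝ) +
          2 * (pc G (fun x y => g x = i ∧ y ∈ X) : ℝ)) := by
  have hle : Core_restr G L ≤ G := fun _ _ h => h.1
  obtain ⟨g, hg, hgr, hgc⟩ := hr V (Core_restr G L) (hS.mono hle) (by
    intro x
    by_cases hx : x ∈ L
    · have h1 : (Core_restr G L).neighborSet x ⊆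
          ((Finset.univ.filter fun y => G.Adj x y : Finset V) : Set V) := by
        intro y hy
        have hy' : (Core_restr G L).Adj x y := hy
        simpa using hy'.1
      have h2 := Set.ncard_le_ncard h1 (Set.toFinite _)
      rw [Set.ncard_coe_finset] at h2
      exact h2.trans ((hL x).mp hx).le
    · have h1 : (Core_restr G L).neighborSet x = ∅ := by
        ext y
        simp only [SimpleGraph.mem_neighborSet, Set.mem_empty_iff_false, iff_false]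
        exact fun h => hx h.2.1
      rw [h1, Set.ncard_empty]
      exact Nat.zero_le _)
  have hgg : ∀ x, g (g x) = g x := fun x => Option.some.inj (hg.idem x (g x) rfl)
  have hLg : ∀ x, g x ∈ L ↔ x ∈ L := by
    intro x
    by_cases hxg : g x = x
    · rw [hxg]
    · obtain ⟨z, hz⟩ := Core_first (hg.conn x (g x) rfl) (Ne.symm hxg)
      obtain ⟨z', hz'⟩ := Core_first (hg.conn x (g x) rfl).symm hxg
      exact ⟨fun _ => hz.1.2.1, fun _ => hz'.1.2.1⟩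
  have hgI : ∀ x, g x ∈ L.filter (fun i => g i = i) ↔ x ∈ L := by
    intro x
    rw [Finset.mem_filter, hLg]
    exact ⟨fun h => h.1, fun h => ⟨h, hgg x⟩⟩
  have hLX : ∀ x, x ∈ L → x ∉ X := by
    intro x hx hx'
    have h1 := (hL x).mp hx
    have h2 := (hX x).mp hx'
    omega
  have hfle : fib (Core_restr G L) (fun x => some (g x)) ≤ fib G (fun x => some (g x)) :=
    fun u v huv => ⟨huv.1.1, huv.2⟩
  refine ⟨g, ⟨hg.idem, fun x y hxy => (hg.conn x y hxy).mono hfle⟩, hgr, hgg, hgI, hLX, ?_⟩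
  set I := L.filter (fun i => g i = i) with hI
  have h1 : pc G (fun _ _ => True) ≤ pc G (fun x y => x ∈ M ∨ y ∈ M ∨ (x ∈ X ∧ y ∈ X) ∨
      (x ∈ L ∧ y ∈ L ∧ g x ≠ g y) ∨ (g x ∈ I ∧ g x = g y) ∨ (g x ∈ I ∧ y ∈ X) ∨
      (g y ∈ I ∧ x ∈ X)) := by
    refine pc_mono fun x y _ _ => ?_
    have htri : ∀ z, z ∈ M ∨ z ∈ L ∨ z ∈ X := by
      intro z
      rw [hM, hL, hX]
      omega
    rcases htri x with hx | hx | hx
    · exact Or.inl hx
    · rcases htri y with hy | hy | hy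
      · exact Or.inr (Or.inl hy)
      · by_cases hxy : g x = g y
        · exact Or.inr (Or.inr (Or.inr (Or.inr (Or.inl ⟨(hgI x).mpr hx, hxy⟩))))
        · exact Or.inr (Or.inr (Or.inr (Or.inl ⟨hx, hy, hxy⟩)))
      · exact Or.inr (Or.inr (Or.inr (Or.inr (Or.inr (Or.inl ⟨(hgI x).mpr hx, hy⟩)))))
    · rcases htri y with hy | hy | hy
      · exact Or.inr (Or.inl hy)
      · exact Or.inr (Or.inr (Or.inr (Or.inr (Or.inr (Or.inr ⟨(hgI y).mpr hy, hx⟩)))))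
      · exact Or.inr (Or.inr (Or.inl ⟨hx, hy⟩))
  have h2 : pc G (fun x y => x ∈ M ∨ y ∈ M ∨ (x ∈ X ∧ y ∈ X) ∨
      (x ∈ L ∧ y ∈ L ∧ g x ≠ g y) ∨ (g x ∈ I ∧ g x = g y) ∨ (g x ∈ I ∧ y ∈ X) ∨
      (g y ∈ I ∧ x ∈ X)) ≤ pc G (fun x _ => x ∈ M) + (pc G (fun _ y => y ∈ M) +
        (pc G (fun x y => x ∈ X ∧ y ∈ X) + (pc G (fun x y => x ∈ L ∧ y ∈ L ∧ g x ≠ g y) +
        (pc G (fun x y => g x ∈ I ∧ g x = g y) + (pc G (fun x y => g x ∈ I ∧ y ∈ X) +
        pc G (fun x y => g y ∈ I ∧ x ∈ X)))))) := by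
    refine (pc_or _ _ _).trans (Nat.add_le_add_left ?_ _)
    refine (pc_or _ _ _).trans (Nat.add_le_add_left ?_ _)
    refine (pc_or _ _ _).trans (Nat.add_le_add_left ?_ _)
    refine (pc_or _ _ _).trans (Nat.add_le_add_left ?_ _)
    refine (pc_or _ _ _).trans (Nat.add_le_add_left ?_ _)
    exact pc_or _ _ _
  have h3 : pc G (fun x _ => x ∈ M) = ∑ x ∈ M, dg G x := pc_row G M
  have h4 : pc G (fun _ y => y ∈ M) = ∑ x ∈ M, dg G x := by
    rw [← h3]
    exact pc_swap G (fun x _ => x ∈ M)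
  have h5 := pc_inside hS X
  have h6 : (pc G (fun x y => x ∈ L ∧ y ∈ L ∧ g x ≠ g y) : ℝ) ≤ κ * (Fintype.card V : ℝ) := by
    refine le_trans ?_ hgc
    have : pc G (fun x y => x ∈ L ∧ y ∈ L ∧ g x ≠ g y) ≤
        {p : V × V | (Core_restr G L).Adj p.1 p.2 ∧ g p.1 ≠ g p.2}.ncard := by
      rw [pc, ← Set.ncard_coe_finset]
      refine Set.ncard_le_ncard (fun p hp => ?_) (Set.toFinite _)
      simp only [Finset.coe_filter, Finset.mem_univ, true_and] at hp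
      exact ⟨⟨hp.1, hp.2.1, hp.2.2.1⟩, hp.2.2.2⟩
    exact_mod_cast this
  have h7 : pc G (fun x y => g x ∈ I ∧ g x = g y) =
      ∑ i ∈ I, pc G (fun x y => g x = i ∧ g x = g y) := pc_sum G g I _
  have h8 : pc G (fun x y => g x ∈ I ∧ y ∈ X) =
      ∑ i ∈ I, pc G (fun x y => g x = i ∧ y ∈ X) := pc_sum G g I (fun _ y => y ∈ X)
  have h9 : pc G (fun x y => g y ∈ I ∧ x ∈ X) = pc G (fun x y => g x ∈ I ∧ y ∈ X) :=
    pc_swap G (fun x y => g x ∈ I ∧ y ∈ X)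
  rw [pc_true] at h1
  have h10 : (2 * ecount G : ℝ) ≤ ((pc G (fun x _ => x ∈ M) + (pc G (fun _ y => y ∈ M) +
        (pc G (fun x y => x ∈ X ∧ y ∈ X) + (pc G (fun x y => x ∈ L ∧ y ∈ L ∧ g x ≠ g y) +
        (pc G (fun x y => g x ∈ I ∧ g x = g y) + (pc G (fun x y => g x ∈ I ∧ y ∈ X) +
        pc G (fun x y => g y ∈ I ∧ x ∈ X)))))) : ℕ) : ℝ) := by exact_mod_cast h1.trans h2
  rw [h9, h8, h7, h4, h3] at h10
  push_cast at h10
  rw [Finset.sum_add_distrib, ← Finset.mul_sum]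
  push_cast
  linarith

open Classical in
/-- The final group of parts. -/
theorem Core_group (β κ ε : ℝ) (hβ : 1 ≤ β) (hκ : 0 < κ) (hκε : 4 * κ ≤ ε) {V : Type}
    [Fintype V] (G : SimpleGraph V) (g : V → V) (I X N S : Finset V)
    (hgg : ∀ i ∈ I, g i = i) (hIX : ∀ x, g x ∈ I → x ∉ X) (hSI : S ⊆ I)
    (hNS : ∀ i ∈ S, nbr G X g i = N) (hNX : N ⊆ X) (hSne : S.Nonempty)
    (hN : (N.card : ℝ) ≤ 2 * β) (hSc : 2 * β ^ 2 / κ ≤ (S.card : ℝ))
    (hw : 2 * (β - 3 * κ) * ((∑ i ∈ S, (Finset.univ.filter fun x => g x = i).card : ℕ) : ℝ) ≤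
      ∑ i ∈ S, ((pc G (fun x y => g x = i ∧ g x = g y) : ℝ) +
          2 * (pc G (fun x y => g x = i ∧ y ∈ X) : ℝ)))
    (hprop : ∀ f, Model (grp G g N S) f → (∀ x, f x ≠ none → x ∈ N ∨ g x ∈ S) →
          (∀ x ∈ N, ∀ y, f x = some y → y ∈ N) → (lab f).Nonempty →
          (ecount (quot (grp G g N S) f) : ℝ) ≤ β * (((lab f).card : ℝ) - 1)) :
    ∃ (N U : Finset V) (F : SimpleGraph V), N ⊆ U ∧ U.Nonempty ∧
        (∀ x y, F.Adj x y → x ∈ U ∧ y ∈ U) ∧ (β - ε) * (U.card : ℝ) ≤ (ecount F : ℝ) ∧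
        ∀ f, Model F f → (∀ x, f x ≠ none → x ∈ U) →
          (∀ x ∈ N, ∀ y, f x = some y → y ∈ N) → (lab f).Nonempty →
          (ecount (quot F f) : ℝ) ≤ β * (((lab f).card : ℝ) - 1) := by
  set C : Finset V := Finset.univ.filter fun x => g x ∈ S with hC
  have hCm : ∀ x, x ∈ C ↔ g x ∈ S := fun x => by simp [hC]
  obtain ⟨i₀, hi₀⟩ := hSne
  refine ⟨N, N ∪ C, grp G g N S, Finset.subset_union_left, ⟨i₀, ?_⟩, ?_, ?_, ?_⟩
  · rw [Finset.mem_union, hCm, hgg i₀ (hSI hi₀)]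
    exact Or.inr hi₀
  · rintro x y ⟨-, h | h | h⟩
    · rw [Finset.mem_union, Finset.mem_union, hCm, hCm]
      exact ⟨Or.inr h.1, Or.inr (h.2 ▸ h.1)⟩
    · rw [Finset.mem_union, Finset.mem_union, hCm, hCm]
      exact ⟨Or.inr h.1, Or.inl h.2⟩
    · rw [Finset.mem_union, Finset.mem_union, hCm, hCm]
      exact ⟨Or.inl h.1, Or.inr h.2⟩
  · have hdis : Disjoint N C := by
      rw [Finset.disjoint_left]
      intro x hx hx'
      exact hIX x (hSI ((hCm x).mp hx')) (hNX hx)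
    have hCc : C.card = ∑ i ∈ S, (Finset.univ.filter fun x => g x = i).card := by
      rw [Finset.card_eq_sum_card_fiberwise (f := g) (t := S)]
      · refine Finset.sum_congr rfl fun i hi => ?_
        congr 1
        ext x
        simp only [Finset.mem_filter, Finset.mem_univ, true_and, hCm]
        exact ⟨fun h => h.2, fun h => ⟨h ▸ hi, h⟩⟩
      · intro x hx
        exact (hCm x).mp hx
    rw [← hCc] at hw
    rw [Finset.card_union_of_disjoint hdis]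
    -- the edges of `F`
    have hF : ∑ i ∈ S, ((pc G (fun x y => g x = i ∧ g x = g y) : ℝ) +
          2 * (pc G (fun x y => g x = i ∧ y ∈ X) : ℝ)) ≤ 2 * (ecount (grp G g N S) : ℝ) := by
      have h7 : pc G (fun x y => g x ∈ S ∧ g x = g y) =
          ∑ i ∈ S, pc G (fun x y => g x = i ∧ g x = g y) := pc_sum G g S _
      have h8 : pc G (fun x y => g x ∈ S ∧ y ∈ X) =
          ∑ i ∈ S, pc G (fun x y => g x = i ∧ y ∈ X) := pc_sum G g S (fun _ y => y ∈ X)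
      have h9 : pc G (fun x y => g y ∈ S ∧ x ∈ X) = pc G (fun x y => g x ∈ S ∧ y ∈ X) :=
        pc_swap G (fun x y => g x ∈ S ∧ y ∈ X)
      have hSX : ∀ z, g z ∈ S → z ∉ X := fun z hz => hIX z (hSI hz)
      have ha := pc_or_disj G (fun x y => g x ∈ S ∧ g x = g y)
        (fun x y => (g x ∈ S ∧ y ∈ X) ∨ (g y ∈ S ∧ x ∈ X)) (by
          rintro x y ⟨h1, h2⟩ (⟨h3, h4⟩ | ⟨h3, h4⟩)
          · exact hSX y (h2 ▸ h1) h4
          · exact hSX x h1 h4)
      have hb := pc_or_disj G (fun x y => g x ∈ S ∧ y ∈ X) (fun x y => g y ∈ S ∧ x ∈ X) (by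
          rintro x y ⟨h1, h2⟩ ⟨h3, h4⟩
          exact hSX x h1 h4)
      have hc : pc G (fun x y => (g x ∈ S ∧ g x = g y) ∨ ((g x ∈ S ∧ y ∈ X) ∨
          (g y ∈ S ∧ x ∈ X))) ≤ pc (grp G g N S) (fun _ _ => True) := by
        refine Finset.card_le_card fun p hp => ?_
        simp only [Finset.mem_filter, Finset.mem_univ, true_and, and_true] at hp ⊢
        obtain ⟨hG, h | h | h⟩ := hp
        · exact ⟨hG, Or.inl h⟩
        · refine ⟨hG, Or.inr (Or.inl ⟨h.1, ?_⟩)⟩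
          rw [← hNS _ h.1]
          simp only [nbr, Finset.mem_filter]
          exact ⟨h.2, p.1, rfl, hG⟩
        · refine ⟨hG, Or.inr (Or.inr ⟨?_, h.1⟩)⟩
          rw [← hNS _ h.1]
          simp only [nbr, Finset.mem_filter]
          exact ⟨h.2, p.2, rfl, hG.symm⟩
      rw [pc_true] at hc
      have hd : ∑ i ∈ S, pc G (fun x y => g x = i ∧ g x = g y) +
          2 * ∑ i ∈ S, pc G (fun x y => g x = i ∧ y ∈ X) ≤ 2 * ecount (grp G g N S) := by
        rw [← h7, ← h8]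
        omega
      rw [Finset.sum_add_distrib, ← Finset.mul_sum]
      exact_mod_cast hd
    have hCS : (S.card : ℝ) ≤ (C.card : ℝ) := by
      have : S ⊆ C := fun i hi => (hCm i).mpr (by rw [hgg i (hSI hi)]; exact hi)
      exact_mod_cast Finset.card_le_card this
    have h1 : 2 * β ^ 2 ≤ κ * (C.card : ℝ) := by
      have h2 : 2 * β ^ 2 / κ ≤ (C.card : ℝ) := hSc.trans hCS
      rw [div_le_iff₀ hκ] at h2
      linarith
    push_cast
    have hNpos : (0 : ℝ) ≤ (N.card : ℝ) := Nat.cast_nonneg _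
    have hCpos : (0 : ℝ) ≤ (C.card : ℝ) := Nat.cast_nonneg _
    have h3 : β * (N.card : ℝ) ≤ 2 * β ^ 2 := by nlinarith
    have h4 : 0 ≤ (ε - 4 * κ) * (C.card : ℝ) := mul_nonneg (by linarith) hCpos
    have h5 : 0 ≤ ε * (N.card : ℝ) := mul_nonneg (by linarith) hNpos
    nlinarith
  · intro f hf hsupp hconv hne
    refine hprop f hf (fun x hx => ?_) hconv hne
    have := hsupp x hx
    rw [Finset.mem_union, hCm] at this
    exact this

open Classical in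
theorem Core_main (β κ ε : ℝ) (hβ : 1 ≤ β) (hκ : 0 < κ) (hκ1 : 12 * κ ≤ 1) (hκε : 4 * κ ≤ ε)
    (Δ Δ' r K₀ d : ℕ) (η : ℝ) (hη : 0 < η) (hd : 2 * (β + 1) ≤ d) (hΔ : Δ ≤ Δ')
    (hr : HypProp β κ Δ r) (hdisc : DiscProp β η r) (hK₀ : GroupProp β η K₀) (K' : ℕ)
    (hK' : K' = K₀ + ⌈2 * β ^ 2 / κ⌉₊)
    (hc₁ : (2 * β + 3 * Δ * r * (β + K' * 2 ^ d)) * (4 * (β + 1)) ≤ κ * Δ')
    {V : Type} [Fintype V] (G : SimpleGraph V) (hG : G.Connected) (hS : Sparse β G)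
    (hc₂ : 2 * (2 + 3 * Δ * r * ((1 + β) / η + 1 + K')) ≤ κ * (Fintype.card V : ℝ))
    (M : Finset V) (hM : ∀ x, x ∈ M ↔ Δ ≤ dg G x ∧ dg G x < Δ')
    (hMs : ((∑ x ∈ M, dg G x : ℕ) : ℝ) ≤ κ * (Fintype.card V : ℝ))
    (hdens : (β - κ) * (Fintype.card V : ℝ) ≤ (ecount G : ℝ)) :
    ∃ (N U : Finset V) (F : SimpleGraph V), N ⊆ U ∧ U.Nonempty ∧
        (∀ x y, F.Adj x y → x ∈ U ∧ y ∈ U) ∧ (β - ε) * (U.card : ℝ) ≤ (ecount F : ℝ) ∧
        ∀ f, Model F f → (∀ x, f x ≠ none → x ∈ U) →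
          (∀ x ∈ N, ∀ y, f x = some y → y ∈ N) → (lab f).Nonempty →
          (ecount (quot F f) : ℝ) ≤ β * (((lab f).card : ℝ) - 1) := by
  set n : ℝ := (Fintype.card V : ℝ) with hn
  have hr0 : (0 : ℝ) ≤ (r : ℝ) := Nat.cast_nonneg _
  have hΔ0 : (0 : ℝ) ≤ (Δ : ℝ) := Nat.cast_nonneg _
  have hK'0 : (0 : ℝ) ≤ (K' : ℝ) := Nat.cast_nonneg _
  have hΔr : (0 : ℝ) ≤ 3 * Δ * r := by positivity
  have h2d : (1 : ℝ) ≤ 2 ^ d := one_le_pow₀ (by norm_num)
  have hndiv : (0 : ℝ) ≤ (1 + β) / η := by positivity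
  have hn1 : 1 ≤ n := by
    have h1 : (0 : ℝ) ≤ 3 * Δ * r * ((1 + β) / η + 1 + K') :=
      mul_nonneg hΔr (by positivity)
    nlinarith
  obtain ⟨g, hg, hgr, hgg, hgI, hLX, hcount⟩ := Core_partition β κ Δ Δ' r hΔ hr G hS
    (Finset.univ.filter fun x => dg G x < Δ) (Finset.univ.filter fun x => Δ' ≤ dg G x) M
    (fun x => by simp) (fun x => by simp) hM
  set L : Finset V := Finset.univ.filter fun x => dg G x < Δ with hL
  set X : Finset V := Finset.univ.filter fun x => Δ' ≤ dg G x with hX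
  set I : Finset V := L.filter (fun i => g i = i) with hI
  have hIg : ∀ i ∈ I, g i = i := fun i hi => (Finset.mem_filter.mp hi).2
  have hIX : ∀ x, g x ∈ I → x ∉ X := fun x hx => hLX x ((hgI x).mp hx)
  -- the size of `X`
  have hXc : (X.card : ℝ) * Δ' ≤ 2 * (β + 1) * n := by
    have h1 : X.card * Δ' ≤ 2 * ecount G := by
      calc X.card * Δ' = ∑ _x ∈ X, Δ' := by rw [Finset.sum_const, smul_eq_mul]
        _ ≤ ∑ x ∈ X, dg G x := Finset.sum_le_sum fun x hx => (Finset.mem_filter.mp hx).2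
        _ ≤ ∑ x, dg G x := Finset.sum_le_sum_of_subset (Finset.subset_univ _)
        _ = 2 * ecount G := sum_dg G
    have h2 : (X.card : ℝ) * Δ' ≤ 2 * (ecount G : ℝ) := by exact_mod_cast h1
    have h3 := ecount_le_of_sparse hS
    rw [← hn] at h3
    nlinarith
  -- weights
  let w : V → ℝ := fun i => (pc G (fun x y => g x = i ∧ g x = g y) : ℝ) +
          2 * (pc G (fun x y => g x = i ∧ y ∈ X) : ℝ)
  have hw0 : ∀ i, 0 ≤ w i := fun i => by positivity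
  have hwle : ∀ i ∈ I, w i ≤ 3 * Δ * r := by
    intro i hi
    set C : Finset V := Finset.univ.filter fun x => g x = i with hC
    have hCr : C.card ≤ r := by
      refine le_trans ?_ (hgr i)
      rw [← Set.ncard_coe_finset]
      exact Set.ncard_le_ncard (fun x hx => by simpa [hC] using hx) (Set.toFinite _)
    have h1 : pc G (fun x _ => x ∈ C) ≤ r * Δ := by
      rw [pc_row]
      calc ∑ x ∈ C, dg G x ≤ ∑ _x ∈ C, Δ := by
            refine Finset.sum_le_sum fun x hx => ?_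
            have hxi : g x = i := (Finset.mem_filter.mp hx).2
            have hxL : x ∈ L := (hgI x).mp (by rw [hxi]; exact hi)
            exact (Finset.mem_filter.mp hxL).2.le
        _ = C.card * Δ := by rw [Finset.sum_const, smul_eq_mul]
        _ ≤ r * Δ := Nat.mul_le_mul_right _ hCr
    have h2 : pc G (fun x y => g x = i ∧ g x = g y) ≤ r * Δ :=
      (pc_mono fun x y _ h => by simpa [hC] using h.1).trans h1
    have h3 : pc G (fun x y => g x = i ∧ y ∈ X) ≤ r * Δ :=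
      (pc_mono fun x y _ h => by simpa [hC] using h.1).trans h1
    have h2' : (pc G (fun x y => g x = i ∧ g x = g y) : ℝ) ≤ r * Δ := by exact_mod_cast h2
    have h3' : (pc G (fun x y => g x = i ∧ y ∈ X) : ℝ) ≤ r * Δ := by exact_mod_cast h3
    simp only [w]
    linarith
  -- the bad parts
  set E₁ : Finset V := I.filter (fun i => ∃ f, Model G f ∧ (∀ x, f x ≠ none → g x = i) ∧
    (lab f).Nonempty ∧ β * (((lab f).card : ℝ) - 1) < (ecount (quot G f) : ℝ)) with hE₁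
  have hE₁I : E₁ ⊆ I := Finset.filter_subset _ _
  have hE₁c : (E₁.card : ℝ) ≤ (1 + β) / η := by
    rw [le_div_iff₀ hη]
    refine bad_count β hβ η G hG hS g hg E₁ (fun i hi => hIg i (hE₁I hi)) ?_
    intro i hi
    obtain ⟨f, hf, hsupp, hne, hlt⟩ := (Finset.mem_filter.mp hi).2
    refine ⟨f, hf, hsupp, hne, ?_⟩
    have hpos : 0 < (lab f).card := Finset.card_pos.mpr hne
    have hle : (lab f).card - 1 ≤ r := by
      refine le_trans (Nat.sub_le _ _) (le_trans ?_ (hgr i))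
      rw [← Set.ncard_coe_finset]
      refine Set.ncard_le_ncard (fun y hy => ?_) (Set.toFinite _)
      rw [Finset.mem_coe, Group_mem_lab] at hy
      exact hsupp y (by rw [hy]; simp)
    have hcast : (((lab f).card - 1 : ℕ) : ℝ) = ((lab f).card : ℝ) - 1 := by
      rw [Nat.cast_sub hpos, Nat.cast_one]
    have h1 : 0 < (ecount (quot G f) : ℝ) - β * (((lab f).card - 1 : ℕ) : ℝ) := by
      rw [hcast]
      linarith
    have h2 := hdisc (ecount (quot G f) : ℤ) _ hle (by push_cast at h1 ⊢; exact h1.ne')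
    rw [Int.cast_natCast, abs_of_pos h1, hcast] at h2
    exact h2
  -- the neighbourhoods
  obtain ⟨J, hJ, hJc, hJn⟩ := few_nbr β hβ d hd G hS g hg (I \ E₁) X
    (fun i hi => hIg i (Finset.mem_sdiff.mp hi).1)
    (fun x hx => hIX x (Finset.mem_sdiff.mp hx).1)
  set I₃ : Finset V := (I \ E₁) \ J with hI₃
  have hI₃I : I₃ ⊆ I := fun i hi => (Finset.mem_sdiff.mp (Finset.mem_sdiff.mp hi).1).1
  set 𝒩 : Finset (Finset V) := I₃.image (nbr G X g) with h𝒩
  let T : Finset V → Finset V := fun N => I₃.filter (fun i => nbr G X g i = N)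
  have hT : ∀ N, ∃ S ⊆ T N, (T N).card ≤ S.card + K' ∧ (S.Nonempty → (N.card : ℝ) ≤ 2 * β ∧
      2 * β ^ 2 / κ ≤ (S.card : ℝ) ∧ ∀ f, Model (grp G g N S) f →
        (∀ x, f x ≠ none → x ∈ N ∨ g x ∈ S) → (∀ x ∈ N, ∀ y, f x = some y → y ∈ N) →
        (lab f).Nonempty →
        (ecount (quot (grp G g N S) f) : ℝ) ≤ β * (((lab f).card : ℝ) - 1)) := by
    intro N
    by_cases hcard : K' ≤ (T N).card
    · have hTne : (T N).Nonempty ∨ (T N) = ∅ := (Finset.eq_empty_or_nonempty _).symm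
      have hnbrX : ∀ i ∈ T N, N ⊆ X := by
        intro i hi
        rw [← (Finset.mem_filter.mp hi).2]
        exact fun x hx => (Core_mem_nbr.mp hx).1
      rcases hTne with hTne | hTe
      · obtain ⟨i₀, hi₀⟩ := hTne
        obtain ⟨hNc, S, hST, hSc, hSp⟩ := hK₀ V r (fun p q hq h => by
            have := hdisc p q hq h.ne'
            rwa [abs_of_pos h] at this) G hS g hg hgr N (T N)
          (fun i hi => hIg i (hI₃I (Finset.mem_filter.mp hi).1))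
          (fun x hx hxN => hIX x (hI₃I (Finset.mem_filter.mp hx).1) (hnbrX _ hi₀ hxN))
          (fun i hi x hx => by
            rw [← (Finset.mem_filter.mp hi).2] at hx
            exact (Core_mem_nbr.mp hx).2)
          (fun i hi f hf hsupp hne => by
            by_contra hcon
            push Not at hcon
            have h1 := (Finset.mem_filter.mp hi).1
            have h2 := (Finset.mem_sdiff.mp h1).1
            obtain ⟨h3, h4⟩ := Finset.mem_sdiff.mp h2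
            exact h4 (Finset.mem_filter.mpr ⟨h3, f, hf, hsupp, hne, hcon⟩))
          (by rw [hK'] at hcard; omega)
        refine ⟨S, hST, by rw [hK']; omega, fun _ => ⟨hNc, ?_, hSp⟩⟩
        have h1 : ⌈2 * β ^ 2 / κ⌉₊ ≤ S.card := by rw [hK'] at hcard; omega
        calc 2 * β ^ 2 / κ ≤ (⌈2 * β ^ 2 / κ⌉₊ : ℝ) := Nat.le_ceil _
          _ ≤ (S.card : ℝ) := by exact_mod_cast h1
      · refine ⟨∅, Finset.empty_subset _, by rw [hTe]; simp, fun h => ?_⟩
        exact absurd h (by simp)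
    · exact ⟨∅, Finset.empty_subset _, by push Not at hcard; simp; omega,
        fun h => absurd h (by simp)⟩
  choose S hST hSc hSp using hT
  have hSI : ∀ N, S N ⊆ I := fun N i hi => hI₃I (Finset.mem_filter.mp (hST N hi)).1
  -- the sum of the weights
  have hsum1 : ∑ i ∈ I, w i ≤ ((E₁.card : ℝ) + (J.card : ℝ) + K' * (𝒩.card : ℝ)) *
      (3 * Δ * r) + ∑ N ∈ 𝒩, ∑ i ∈ S N, w i := by
    have h1 : ∑ i ∈ I, w i = ∑ i ∈ E₁, w i + (∑ i ∈ J, w i + ∑ i ∈ I₃, w i) := by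
      rw [← Finset.sum_sdiff hE₁I, ← Finset.sum_sdiff hJ]
      ring
    have h2 : ∑ i ∈ E₁, w i ≤ (E₁.card : ℝ) * (3 * Δ * r) := by
      rw [← nsmul_eq_mul]
      exact Finset.sum_le_card_nsmul _ _ _ fun i hi => hwle i (hE₁I hi)
    have h3 : ∑ i ∈ J, w i ≤ (J.card : ℝ) * (3 * Δ * r) := by
      rw [← nsmul_eq_mul]
      exact Finset.sum_le_card_nsmul _ _ _ fun i hi =>
        hwle i (Finset.mem_sdiff.mp (hJ hi)).1
    have h4 : ∑ i ∈ I₃, w i = ∑ N ∈ 𝒩, ∑ i ∈ T N, w i := by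
      rw [← Finset.sum_fiberwise_of_maps_to (s := I₃) (t := 𝒩) (g := nbr G X g)
        (fun i hi => Finset.mem_image_of_mem _ hi)]
    have h5 : ∀ N ∈ 𝒩, ∑ i ∈ T N, w i ≤ ∑ i ∈ S N, w i + K' * (3 * Δ * r) := by
      intro N _
      rw [← Finset.sum_sdiff (hST N)]
      have h6 : ∑ i ∈ T N \ S N, w i ≤ ((T N \ S N).card : ℝ) * (3 * Δ * r) := by
        rw [← nsmul_eq_mul]
        exact Finset.sum_le_card_nsmul _ _ _ fun i hi =>
          hwle i (hI₃I (Finset.mem_filter.mp (Finset.mem_sdiff.mp hi).1).1)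
      have h7 : ((T N \ S N).card : ℝ) ≤ K' := by
        have := Finset.card_sdiff_add_card_eq_card (hST N)
        have h8 := hSc N
        exact_mod_cast (by omega : (T N \ S N).card ≤ K')
      have h8 := mul_le_mul_of_nonneg_right h7 hΔr
      linarith
    have h6 : ∑ N ∈ 𝒩, ∑ i ∈ T N, w i ≤ ∑ N ∈ 𝒩, (∑ i ∈ S N, w i + K' * (3 * Δ * r)) :=
      Finset.sum_le_sum h5
    rw [Finset.sum_add_distrib, Finset.sum_const, nsmul_eq_mul] at h6
    rw [h1, h4]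
    linarith
  have hsum2 : 2 * (β - 3 * κ) * n ≤ ∑ N ∈ 𝒩, ∑ i ∈ S N, w i := by
    have h1 : (E₁.card : ℝ) + (J.card : ℝ) + K' * (𝒩.card : ℝ) ≤
        ((1 + β) / η + 1 + K') + (β + K' * 2 ^ d) * (X.card : ℝ) := by
      have h2 := mul_le_mul_of_nonneg_left hJn hK'0
      nlinarith
    have h2 := mul_le_mul_of_nonneg_right h1 hΔr
    have h3 : (2 * β + 3 * Δ * r * (β + K' * 2 ^ d)) * (X.card : ℝ) ≤ κ * n / 2 := by
      set c : ℝ := 2 * β + 3 * Δ * r * (β + K' * 2 ^ d) with hc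
      have hc0 : 0 < c := by
        have : 0 ≤ 3 * Δ * r * (β + K' * 2 ^ d) := mul_nonneg hΔr (by positivity)
        linarith
      have hΔ'0 : 0 < (Δ' : ℝ) := by
        by_contra hcon
        push Not at hcon
        nlinarith
      have h4 : c * (X.card : ℝ) * Δ' ≤ (κ * n / 2) * Δ' := by
        nlinarith
      exact le_of_mul_le_mul_right h4 hΔ'0
    have h4 : ∑ i ∈ I, w i = ∑ i ∈ I, ((pc G (fun x y => g x = i ∧ g x = g y) : ℝ) +
          2 * (pc G (fun x y => g x = i ∧ y ∈ X) : ℝ)) := rfl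
    rw [← h4] at hcount
    nlinarith
  -- the sizes
  let m : Finset V → ℝ := fun N =>
    ((∑ i ∈ S N, (Finset.univ.filter fun x => g x = i).card : ℕ) : ℝ)
  have hm : ∑ N ∈ 𝒩, m N ≤ n := by
    have h1 : ∑ N ∈ 𝒩, ∑ i ∈ S N, (Finset.univ.filter fun x => g x = i).card ≤
        Fintype.card V := by
      calc ∑ N ∈ 𝒩, ∑ i ∈ S N, (Finset.univ.filter fun x => g x = i).card
          ≤ ∑ N ∈ 𝒩, ∑ i ∈ T N, (Finset.univ.filter fun x => g x = i).card :=
            Finset.sum_le_sum fun N _ => Finset.sum_le_sum_of_subset (hST N)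
        _ = ∑ i ∈ I₃, (Finset.univ.filter fun x => g x = i).card := by
            rw [← Finset.sum_fiberwise_of_maps_to (s := I₃) (t := 𝒩) (g := nbr G X g)
              (fun i hi => Finset.mem_image_of_mem _ hi)]
        _ ≤ ∑ i, (Finset.univ.filter fun x => g x = i).card :=
            Finset.sum_le_sum_of_subset (Finset.subset_univ _)
        _ = Fintype.card V := by
            rw [← Finset.card_univ,
              Finset.card_eq_sum_card_fiberwise (f := g) (s := Finset.univ) (t := Finset.univ)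
                (fun _ _ => Finset.mem_coe.mpr (Finset.mem_univ _))]
    have h2 : ((∑ N ∈ 𝒩, ∑ i ∈ S N, (Finset.univ.filter fun x => g x = i).card : ℕ) : ℝ) ≤
        n := by rw [hn]; exact_mod_cast h1
    simp only [m]
    exact_mod_cast h2
  -- the good group
  obtain ⟨N, hN𝒩, hNS, hNw⟩ : ∃ N ∈ 𝒩, (S N).Nonempty ∧
      2 * (β - 3 * κ) * m N ≤ ∑ i ∈ S N, w i := by
    set 𝒩' := 𝒩.filter (fun N => (S N).Nonempty) with h𝒩'
    have h1 : ∑ N ∈ 𝒩', ∑ i ∈ S N, w i = ∑ N ∈ 𝒩, ∑ i ∈ S N, w i := by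
      refine Finset.sum_subset (Finset.filter_subset _ _) fun N hN hN' => ?_
      have : ¬ (S N).Nonempty := fun h => hN' (Finset.mem_filter.mpr ⟨hN, h⟩)
      rw [Finset.not_nonempty_iff_eq_empty] at this
      rw [this, Finset.sum_empty]
    have hm0 : ∀ N, 0 ≤ m N := fun N => Nat.cast_nonneg _
    have h2 : ∑ N ∈ 𝒩', m N ≤ ∑ N ∈ 𝒩, m N :=
      Finset.sum_le_sum_of_subset_of_nonneg (Finset.filter_subset _ _) fun N _ _ => hm0 N
    have hpos : 0 < 2 * (β - 3 * κ) := by linarith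
    have h3 : ∑ N ∈ 𝒩', 2 * (β - 3 * κ) * m N ≤ ∑ N ∈ 𝒩', ∑ i ∈ S N, w i := by
      rw [h1, ← Finset.mul_sum]
      calc 2 * (β - 3 * κ) * ∑ N ∈ 𝒩', m N ≤ 2 * (β - 3 * κ) * n :=
            mul_le_mul_of_nonneg_left (h2.trans hm) hpos.le
        _ ≤ _ := hsum2
    have hne : 𝒩'.Nonempty := by
      by_contra hcon
      rw [Finset.not_nonempty_iff_eq_empty] at hcon
      rw [← h1, hcon, Finset.sum_empty] at hsum2
      nlinarith
    obtain ⟨N, hN, h4⟩ := Finset.exists_le_of_sum_le hne h3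
    exact ⟨N, (Finset.mem_filter.mp hN).1, (Finset.mem_filter.mp hN).2, h4⟩
  obtain ⟨hNc, hNcard, hNp⟩ := hSp N hNS
  have hNX : N ⊆ X := by
    obtain ⟨i, hi⟩ := hNS
    rw [← (Finset.mem_filter.mp (hST N hi)).2]
    exact fun x hx => (Core_mem_nbr.mp hx).1
  exact Core_group β κ ε hβ hκ hκε G g I X N (S N) hIg hIX (hSI N)
    (fun i hi => (Finset.mem_filter.mp (hST N hi)).2) hNX hNS hNc hNcard hNw hNp

theorem core (β : ℝ) (hβ : 1 ≤ β) (ε : ℝ) (hε : 0 < ε) : ∃ δ : ℝ, 0 < δ ∧ ∃ n₀ : ℕ,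
    ∀ (V : Type) [Fintype V] (G : SimpleGraph V), G.Connected → Sparse β G →
      n₀ ≤ Fintype.card V → (β - δ) * (Fintype.card V : ℝ) ≤ (ecount G : ℝ) →
      ∃ (N U : Finset V) (F : SimpleGraph V), N ⊆ U ∧ U.Nonempty ∧
        (∀ x y, F.Adj x y → x ∈ U ∧ y ∈ U) ∧ (β - ε) * (U.card : ℝ) ≤ (ecount F : ℝ) ∧
        ∀ f, Model F f → (∀ x, f x ≠ none → x ∈ U) →
          (∀ x ∈ N, ∀ y, f x = some y → y ∈ N) → (lab f).Nonempty →
          (ecount (quot F f) : ℝ) ≤ β * (((lab f).card : ℝ) - 1) := by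
  classical
  obtain ⟨κ, hκ, hκ1, hκε⟩ : ∃ κ : ℝ, 0 < κ ∧ 12 * κ ≤ 1 ∧ 4 * κ ≤ ε := by
    refine ⟨min 1 ε / 12, by positivity, ?_, ?_⟩
    · have := min_le_left (1 : ℝ) ε
      linarith
    · have := min_le_right (1 : ℝ) ε
      linarith
  set d : ℕ := ⌈2 * (β + 1)⌉₊ with hd
  have hdle : 2 * (β + 1) ≤ (d : ℝ) := Nat.le_ceil _
  -- the parameters as functions of the degree bound
  have hR : ∀ Δ : ℕ, ∃ r : ℕ, HypProp β κ Δ r := fun Δ => hyperfinite β hβ Δ κ hκ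
  choose R hR using hR
  have hE : ∀ r : ℕ, ∃ η : ℝ, 0 < η ∧ DiscProp β η r := fun r => discrete β r
  choose E hE0 hE using hE
  have hKK : ∀ r : ℕ, ∃ K : ℕ, GroupProp β (E r) K := fun r => group_good β hβ (E r) (hE0 r)
  choose KK hKK using hKK
  let K' : ℕ → ℕ := fun Δ => KK (R Δ) + ⌈2 * β ^ 2 / κ⌉₊
  let c : ℕ → ℝ := fun Δ =>
    (2 * β + 3 * Δ * R Δ * (β + K' Δ * 2 ^ d)) * (4 * (β + 1))
  let Φ : ℕ → ℕ := fun Δ => Δ + ⌈c Δ / κ⌉₊
  have hΦ1 : ∀ Δ, Δ ≤ Φ Δ := fun Δ => Nat.le_add_right _ _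
  have hΦ2 : ∀ Δ, c Δ ≤ κ * (Φ Δ : ℝ) := by
    intro Δ
    have h1 : c Δ / κ ≤ (⌈c Δ / κ⌉₊ : ℝ) := Nat.le_ceil _
    rw [div_le_iff₀ hκ] at h1
    have h2 : ((Φ Δ : ℕ) : ℝ) = (Δ : ℝ) + (⌈c Δ / κ⌉₊ : ℝ) := by simp [Φ]
    have h3 : (0 : ℝ) ≤ (Δ : ℝ) := Nat.cast_nonneg _
    rw [h2]
    nlinarith
  let a : ℕ → ℕ := fun j => Φ^[j] 0
  have ha : ∀ j, a (j + 1) = Φ (a j) := fun j => Function.iterate_succ_apply' Φ j 0
  have hamono : Monotone a := monotone_nat_of_le_succ fun j => by rw [ha]; exact hΦ1 _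
  set J : ℕ := ⌊2 * (β + 1) / κ⌋₊ + 1 with hJ
  let b : ℕ → ℝ := fun Δ => 2 * (2 + 3 * Δ * R Δ * ((1 + β) / E (R Δ) + 1 + K' Δ))
  refine ⟨κ, hκ, (∑ j ∈ Finset.range J, ⌈b (a j) / κ⌉₊) + 1, ?_⟩
  intro V _ G hG hS hn hdens
  have hn1 : (1 : ℝ) ≤ (Fintype.card V : ℝ) := by
    exact_mod_cast le_trans (Nat.le_add_left _ _) hn
  obtain ⟨j, hj, M, hM, hMs⟩ := scales (dg G) a hamono J (κ * (Fintype.card V : ℝ)) (by
    rw [sum_dg]
    have h1 := ecount_le_of_sparse hS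
    have h2 : 2 * (β + 1) / κ < (J : ℝ) := by
      rw [hJ]
      push_cast
      exact Nat.lt_floor_add_one _
    rw [div_lt_iff₀ hκ] at h2
    have h3 : 2 * (β + 1) * (Fintype.card V : ℝ) < J * κ * (Fintype.card V : ℝ) :=
      mul_lt_mul_of_pos_right h2 (by linarith)
    push_cast
    nlinarith)
  rw [ha] at hM
  refine Core_main β κ ε hβ hκ hκ1 hκε (a j) (Φ (a j)) (R (a j)) (KK (R (a j))) d
    (E (R (a j))) (hE0 _) hdle (hΦ1 _) (hR _) (hE _) (hKK _) (K' (a j)) rfl (hΦ2 _) G hG hS ?_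
    M hM hMs hdens
  have h1 : ⌈b (a j) / κ⌉₊ ≤ Fintype.card V := by
    refine le_trans ?_ hn
    refine le_trans ?_ (Nat.le_add_right _ _)
    exact Finset.single_le_sum (f := fun j => ⌈b (a j) / κ⌉₊) (fun _ _ => Nat.zero_le _)
      (Finset.mem_range.mpr hj)
  have h2 : b (a j) / κ ≤ (Fintype.card V : ℝ) :=
    (Nat.le_ceil _).trans (by exact_mod_cast h1)
  rw [div_le_iff₀ hκ] at h2
  calc _ = b (a j) := rfl
    _ ≤ _ := by linarith

end Pool.Agent.W_MP_03ad1b_co
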