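import Mathlib

/-!
# Critical densities of minor-closed classes: definitions
-/

set_option autoImplicit false

namespace Pool.Agent.W_MP_03ad1b_co

/-! ### Definitions of the problem -/

/-- `H` is a minor of `G`: there are pairwise disjoint branch sets `B w` (one for each vertex `w` of
`H`), inducing connected (in particular non-empty) subgraphs of `G`, such that there is an edge of
`G` between `B w` and `B w'` whenever `w` and `w'` are adjacent in `H`. -/
def IsMinor {W V : Type} (H : SimpleGraph W) (G : SimpleGraph V) : Prop :=
  ∃ B : W → Set V, (∀ w, (G.induce (B w)).Connected) ∧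
    (∀ w w', w ≠ w' → Disjoint (B w) (B w')) ∧
    ∀ w w', H.Adj w w' → ∃ x ∈ B w, ∃ y ∈ B w', G.Adj x y

/-- A finite simple graph with at least one vertex; its vertex set is `{0, …, v - 1}`. -/
structure FinGraph where
  /-- the number of vertices -/
  v : ℕ
  /-- there is a vertex -/
  pos : 0 < v
  /-- the graph -/
  G : SimpleGraph (Fin v)

/-- The number of edges of a graph. -/
noncomputable def ecount {V : Type} (G : SimpleGraph V) : ℕ := G.edgeSet.ncard

/-- The density `e(G) / v(G)`. -/
noncomputable def FinGraph.density (G : FinGraph) : ℝ := (ecount G.G : ℝ) / (G.v : ℝ)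

/-- A proper minor-closed class of graphs: it is not empty, it is not the class of all graphs, and it
contains every minor of each of its members (in particular it is closed under isomorphism). -/
structure ProperMinorClosed (A : Set FinGraph) : Prop where
  nonempty : A.Nonempty
  ne_univ : A ≠ Set.univ
  closed : ∀ G ∈ A, ∀ H : FinGraph, IsMinor H.G G.G → H ∈ A

/-- `β` is the critical density of the class `A`: the supremum of the densities of its members. -/
def IsCriticalDensity (A : Set FinGraph) (β : ℝ) : Prop := IsLUB (FinGraph.density '' A) β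

/-- `M` is an excluded minor for `A`: it is not in `A`, but all its proper minors are. -/
def IsExcludedMinor (A : Set FinGraph) (M : FinGraph) : Prop :=
  M ∉ A ∧ ∀ H : FinGraph, IsMinor H.G M.G → ¬ Nonempty (H.G ≃g M.G) → H ∈ A

/-- `2`-connected graphs: at least three vertices, connected, no cut vertex. -/
def TwoConnected (M : FinGraph) : Prop :=
  3 ≤ M.v ∧ M.G.Connected ∧ ∀ x : Fin M.v, (M.G.induce {x}ᶜ).Connected

/-- The set `B` of the critical densities of all proper minor-closed classes. -/
def critB : Set ℝ := {β | ∃ A : Set FinGraph, ProperMinorClosed A ∧ IsCriticalDensity A β}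

/-- The set `B₂` of the critical densities of the proper minor-closed classes all of whose excluded
minors are `2`-connected. -/
def critB2 : Set ℝ := {β | ∃ A : Set FinGraph, ProperMinorClosed A ∧
  (∀ M, IsExcludedMinor A M → TwoConnected M) ∧ IsCriticalDensity A β}

/-! ### Models of minors as labelings -/

section Models

variable {V : Type}

/-- The edges of `G` between vertices with the same label. -/
def fib (G : SimpleGraph V) (f : V → Option V) : SimpleGraph V where
  Adj x y := G.Adj x y ∧ f x = f y ∧ f x ≠ none
  symm := ⟨fun _ _ h => ⟨h.1.symm, h.2.1.symm, h.2.1 ▸ h.2.2⟩⟩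
  loopless := ⟨fun _ h => h.1.ne rfl⟩

/-- The graph on the labels: two labels are adjacent if there is an edge of `G` between vertices with
these labels. -/
def quot (G : SimpleGraph V) (f : V → Option V) : SimpleGraph V where
  Adj y z := y ≠ z ∧ ∃ a b, f a = some y ∧ f b = some z ∧ G.Adj a b
  symm := ⟨fun _ _ h => ⟨h.1.symm, by
    obtain ⟨_, a, b, ha, hb, hab⟩ := h
    exact ⟨b, a, hb, ha, hab.symm⟩⟩⟩
  loopless := ⟨fun _ h => h.1 rfl⟩

/-- A labeling that describes a minor: each label is a vertex with this label, and all vertices with
the same label are connected to the label by edges between vertices with this label. -/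
structure Model (G : SimpleGraph V) (f : V → Option V) : Prop where
  idem : ∀ x y, f x = some y → f y = some y
  conn : ∀ x y, f x = some y → (fib G f).Reachable x y

open Classical in
/-- The set of the labels. -/
noncomputable def lab [Fintype V] (f : V → Option V) : Finset V :=
  Finset.univ.filter fun y => f y = some y

/-- All minors `H` of `G` satisfy `e(H) ≤ β v(H) + 1`. -/
def Sparse [Fintype V] (β : ℝ) (G : SimpleGraph V) : Prop :=
  ∀ f : V → Option V, Model G f → (ecount (quot G f) : ℝ) ≤ β * ((lab f).card : ℝ) + 1

open Classical in
/-- The neighbours in `X` of the part with label `i`. -/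
noncomputable def nbr (G : SimpleGraph V) (X : Finset V) (g : V → V) (i : V) : Finset V :=
  X.filter fun x => ∃ c, g c = i ∧ G.Adj c x

/-- The subgraph of `G` consisting of the edges inside the parts with label in `S` and the edges
between these parts and `N`. -/
def grp (G : SimpleGraph V) (g : V → V) (N S : Finset V) : SimpleGraph V where
  Adj x y := G.Adj x y ∧ ((g x ∈ S ∧ g x = g y) ∨ (g x ∈ S ∧ y ∈ N) ∨ (x ∈ N ∧ g y ∈ S))
  symm := ⟨fun x y h => ⟨h.1.symm, by
    rcases h.2 with ⟨h1, h2⟩ | ⟨h1, h2⟩ | ⟨h1, h2⟩
    · exact Or.inl ⟨h2 ▸ h1, h2.symm⟩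
    · exact Or.inr (Or.inr ⟨h2, h1⟩)
    · exact Or.inr (Or.inl ⟨h2, h1⟩)⟩⟩
  loopless := ⟨fun _ h => h.1.ne rfl⟩

end Models

end Pool.Agent.W_MP_03ad1b_co
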