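import Mathlib

set_option autoImplicit false

namespace Pool.Agent.W_MP_03ad1b_co

theorem Discrete_one (x : ℝ) : ∃ η : ℝ, 0 < η ∧ ∀ p : ℤ, (p : ℝ) - x ≠ 0 → η ≤ |(p : ℝ) - x| := by
  have hfl : (Int.floor x : ℝ) + Int.fract x = x := Int.floor_add_fract x
  have h1 : Int.fract x < 1 := Int.fract_lt_one x
  rcases eq_or_lt_of_le (Int.fract_nonneg x) with h0 | h0
  · refine ⟨1, one_pos, fun p hp => ?_⟩
    have hx : x = (Int.floor x : ℝ) := by rw [← h0] at hfl; linarith
    have h2 : p - Int.floor x ≠ 0 := by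
      intro h
      apply hp
      rw [hx]
      have : ((p - Int.floor x : ℤ) : ℝ) = 0 := by rw [h]; simp
      push_cast at this
      exact this
    have h3 : (1 : ℤ) ≤ |p - Int.floor x| := Int.one_le_abs h2
    have h4 : (1 : ℝ) ≤ |((p - Int.floor x : ℤ) : ℝ)| := by exact_mod_cast h3
    push_cast at h4
    rw [← hx] at h4
    exact h4
  · refine ⟨min (Int.fract x) (1 - Int.fract x), lt_min h0 (by linarith), fun p _ => ?_⟩
    rcases le_or_gt p (Int.floor x) with h | h
    · have h2 : (p : ℝ) ≤ (Int.floor x : ℝ) := by exact_mod_cast h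
      have h3 : Int.fract x ≤ |(p : ℝ) - x| := by
        rw [abs_sub_comm]
        exact le_trans (by linarith) (le_abs_self _)
      exact (min_le_left _ _).trans h3
    · have h2 : (Int.floor x : ℝ) + 1 ≤ (p : ℝ) := by exact_mod_cast h
      have h3 : 1 - Int.fract x ≤ |(p : ℝ) - x| := le_trans (by linarith) (le_abs_self _)
      exact (min_le_right _ _).trans h3

theorem discrete (β : ℝ) (r : ℕ) : ∃ η : ℝ, 0 < η ∧ ∀ (p : ℤ) (q : ℕ), q ≤ r →
    (p : ℝ) - β * q ≠ 0 → η ≤ |(p : ℝ) - β * q| := by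
  induction r with
  | zero =>
    obtain ⟨η, hη, h⟩ := Discrete_one (β * (0 : ℕ))
    refine ⟨η, hη, fun p q hq hp => ?_⟩
    obtain rfl : q = 0 := Nat.le_zero.1 hq
    exact h p hp
  | succ r ih =>
    obtain ⟨η, hη, h⟩ := ih
    obtain ⟨η', hη', h'⟩ := Discrete_one (β * ((r + 1 : ℕ) : ℝ))
    refine ⟨min η η', lt_min hη hη', fun p q hq hp => ?_⟩
    rcases Nat.le_or_eq_of_le_succ hq with hq | rfl
    · exact (min_le_left _ _).trans (h p q hq hp)
    · exact (min_le_right _ _).trans (h' p hp)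

end Pool.Agent.W_MP_03ad1b_co
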