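import Pool.Agent.W_MP_03ad1b_co.Minor

/-!
# `B₂` is contained in the set of accumulation points of `B`
-/

set_option autoImplicit false

namespace Pool.Agent.W_MP_03ad1b_co

/-- Every graph that is not in the class has a minor that is an excluded minor. -/
theorem exists_excluded (A : Set FinGraph) (G : FinGraph) (hG : G ∉ A) :
    ∃ M : FinGraph, IsMinor M.G G.G ∧ IsExcludedMinor A M := by
  classical
  have hex : ∃ n : ℕ, ∃ M : FinGraph, IsMinor M.G G.G ∧ M ∉ A ∧ M.v + ecount M.G = n :=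
    ⟨_, G, IsMinor.refl _, hG, rfl⟩
  obtain ⟨M, hM1, hM2, hM3⟩ := Nat.find_spec hex
  refine ⟨M, hM1, hM2, ?_⟩
  intro H hH hiso
  by_contra hHA
  have h1 : H.v ≤ M.v := by simpa using hH.card_le
  have h2 : ecount H.G ≤ ecount M.G := hH.ecount_le
  have h3 : Nat.find hex ≤ H.v + ecount H.G :=
    Nat.find_min' hex ⟨H, hH.trans hM1, hHA, rfl⟩
  refine hiso (hH.iso_of_eq ?_ ?_)
  · simp
    omega
  · omega

/-! ### Gluing -/

/-- the vertices of two copies of a graph glued at `x` -/
abbrev Double_V {V : Type} (x : V) : Type := {p : V × V // p.1 = x ∨ p.2 = x}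

/-- the first copy -/
def double_i1 {V : Type} (x : V) : V ↪ Double_V x where
  toFun a := ⟨(a, x), Or.inr rfl⟩
  inj' a b h := by
    have := congrArg (fun w : Double_V x => w.1.1) h
    exact this

/-- the second copy -/
def double_i2 {V : Type} (x : V) : V ↪ Double_V x where
  toFun a := ⟨(x, a), Or.inl rfl⟩
  inj' a b h := by
    have := congrArg (fun w : Double_V x => w.1.2) h
    exact this

/-- two copies of `G` glued at `x` -/
def double_G {V : Type} (G : SimpleGraph V) (x : V) : SimpleGraph (Double_V x) :=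
  G.map (double_i1 x) ⊔ G.map (double_i2 x)

theorem double_adj {V : Type} (G : SimpleGraph V) (x : V) (w w' : Double_V x) :
    (double_G G x).Adj w w' ↔ (G.Adj w.1.1 w'.1.1 ∧ w.1.2 = x ∧ w'.1.2 = x) ∨
      (G.Adj w.1.2 w'.1.2 ∧ w.1.1 = x ∧ w'.1.1 = x) := by
  simp only [double_G, SimpleGraph.sup_adj, SimpleGraph.map_adj]
  constructor
  · rintro (⟨a, b, h, rfl, rfl⟩ | ⟨a, b, h, rfl, rfl⟩)
    · exact Or.inl ⟨h, rfl, rfl⟩
    · exact Or.inr ⟨h, rfl, rfl⟩
  · rintro (⟨h, h1, h2⟩ | ⟨h, h1, h2⟩)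
    · refine Or.inl ⟨w.1.1, w'.1.1, h, ?_, ?_⟩
      · exact Subtype.ext (Prod.ext rfl h1.symm)
      · exact Subtype.ext (Prod.ext rfl h2.symm)
    · refine Or.inr ⟨w.1.2, w'.1.2, h, ?_, ?_⟩
      · exact Subtype.ext (Prod.ext h1.symm rfl)
      · exact Subtype.ext (Prod.ext h2.symm rfl)

theorem double_card {V : Type} [Fintype V] [DecidableEq V] (x : V) :
    Fintype.card (Double_V x) + 1 = 2 * Fintype.card V := by
  have e1 : Fintype.card (Double_V x) =
      (Finset.univ.image (fun a : V => (a, x)) ∪ Finset.univ.image (fun a : V => (x, a))).card := by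
    rw [Fintype.card_subtype]
    congr 1
    ext ⟨a, b⟩
    simp only [Finset.mem_filter, Finset.mem_univ, true_and, Finset.mem_union, Finset.mem_image,
      Prod.mk.injEq]
    constructor
    · rintro (h | h)
      · exact Or.inr ⟨b, h.symm, rfl⟩
      · exact Or.inl ⟨a, rfl, h.symm⟩
    · rintro (⟨c, h1, h2⟩ | ⟨c, h1, h2⟩)
      · exact Or.inr h2.symm
      · exact Or.inl h1.symm
  have e2 : (Finset.univ.image (fun a : V => (a, x)) ∩ Finset.univ.image (fun a : V => (x, a))) =
      {(x, x)} := by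
    ext ⟨a, b⟩
    simp only [Finset.mem_inter, Finset.mem_image, Finset.mem_univ, true_and, Prod.mk.injEq,
      Finset.mem_singleton]
    constructor
    · rintro ⟨⟨c, h1, h2⟩, ⟨c', h3, h4⟩⟩
      exact ⟨h3.symm, h2.symm⟩
    · rintro ⟨rfl, rfl⟩
      exact ⟨⟨_, rfl, rfl⟩, ⟨_, rfl, rfl⟩⟩
  have e3 := Finset.card_union_add_card_inter (Finset.univ.image (fun a : V => (a, x)))
    (Finset.univ.image (fun a : V => (x, a)))
  rw [e2, Finset.card_image_of_injective _ (fun a b h => (Prod.mk.inj h).1),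
    Finset.card_image_of_injective _ (fun a b h => (Prod.mk.inj h).2), Finset.card_univ,
    Finset.card_singleton, ← e1] at e3
  omega

theorem double_ecount {V : Type} [Fintype V] (G : SimpleGraph V) (x : V) :
    ecount (double_G G x) = 2 * ecount G := by
  classical
  have hfin : G.edgeSet.Finite := Set.toFinite _
  unfold ecount double_G
  rw [SimpleGraph.edgeSet_sup, SimpleGraph.edgeSet_map, SimpleGraph.edgeSet_map,
    Set.ncard_union_eq ?_ (hfin.image _) (hfin.image _),
    Set.ncard_image_of_injective _ (Function.Embedding.injective _),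
    Set.ncard_image_of_injective _ (Function.Embedding.injective _)]
  · ring
  · rw [Set.disjoint_left]
    rintro _ ⟨e, he, rfl⟩ ⟨e', he', h⟩
    induction e using Sym2.ind with
    | _ a b =>
    induction e' using Sym2.ind with
    | _ a' b' =>
    rw [SimpleGraph.mem_edgeSet] at he he'
    simp only [Function.Embedding.sym2Map_apply, Sym2.map_mk, Sym2.eq_iff] at h
    rcases h with ⟨h1, h2⟩ | ⟨h1, h2⟩
    · have h3 := congrArg (fun w : Double_V x => w.1.2) h1
      have h4 := congrArg (fun w : Double_V x => w.1.2) h2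
      simp only [double_i1, double_i2, Function.Embedding.coeFn_mk] at h3 h4
      exact he'.ne (h3.trans h4.symm)
    · have h3 := congrArg (fun w : Double_V x => w.1.2) h1
      have h4 := congrArg (fun w : Double_V x => w.1.2) h2
      simp only [double_i1, double_i2, Function.Embedding.coeFn_mk] at h3 h4
      exact he'.ne (h3.trans h4.symm)

/-- a property which is constant along edges is constant on connected graphs -/
theorem double_const {V : Type} (G : SimpleGraph V) (Q : V → Prop)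
    (hQ : ∀ a b, G.Adj a b → (Q a → Q b)) {a b : V} (h : G.Reachable a b) (ha : Q a) : Q b := by
  obtain ⟨w⟩ := h
  induction w with
  | nil => exact ha
  | cons hadj _ ih => exact ih (hQ _ _ hadj ha)

/-- the image of a connected set under a weak homomorphism is connected -/
theorem double_image {W V : Type} (D : SimpleGraph W) (G : SimpleGraph V) (p : W → V)
    (hp : ∀ w w', D.Adj w w' → p w = p w' ∨ G.Adj (p w) (p w')) (B : Set W)
    (hB : (D.induce B).Connected) : (G.induce (p '' B)).Connected := by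
  have hr : ∀ a b : B, (D.induce B).Reachable a b →
      (G.induce (p '' B)).Reachable ⟨p a, ⟨a, a.2, rfl⟩⟩ ⟨p b, ⟨b, b.2, rfl⟩⟩ := by
    rintro a b ⟨w⟩
    induction w with
    | nil => exact SimpleGraph.Reachable.refl _
    | @cons u v w hadj _ ih =>
      refine SimpleGraph.Reachable.trans ?_ ih
      rw [SimpleGraph.comap_adj] at hadj
      rcases hp _ _ hadj with h | h
      · have : (⟨p u, ⟨u, u.2, rfl⟩⟩ : (p '' B : Set V)) = ⟨p v, ⟨v, v.2, rfl⟩⟩ := Subtype.ext h
        rw [this]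
      · refine SimpleGraph.Adj.reachable ?_
        rw [SimpleGraph.comap_adj]
        exact h
  rw [SimpleGraph.connected_iff]
  refine ⟨?_, ?_⟩
  · rintro ⟨_, ⟨a, ha, rfl⟩⟩ ⟨_, ⟨b, hb, rfl⟩⟩
    exact hr ⟨a, ha⟩ ⟨b, hb⟩ (hB.preconnected _ _)
  · obtain ⟨a⟩ := hB.nonempty
    exact ⟨⟨p a, ⟨a, a.2, rfl⟩⟩⟩

/-- projecting to one side -/
theorem double_side {U W V : Type} (M : SimpleGraph U) (D : SimpleGraph W) (G : SimpleGraph V)
    (p : W → V) (hp : ∀ w w', D.Adj w w' → p w = p w' ∨ G.Adj (p w) (p w')) (S : Set W)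
    (hS : ∀ w ∈ S, ∀ w', p w = p w' → w = w') (B : U → Set W)
    (h₁ : ∀ u, (D.induce (B u)).Connected) (h₂ : ∀ u u', u ≠ u' → Disjoint (B u) (B u'))
    (h₃ : ∀ u u', M.Adj u u' → ∃ x ∈ B u, ∃ y ∈ B u', D.Adj x y) (u0 : U)
    (hu0 : ∀ u, u ≠ u0 → B u ⊆ S) : IsMinor M G := by
  have hinj : ∀ u u' w w', u ≠ u' → w ∈ B u → w' ∈ B u' → p w ≠ p w' := by
    intro u u' w w' huu hw hw' h
    have : w = w' := by
      by_cases hu : u = u0
      · have hu' : u' ≠ u0 := fun h' => huu (hu.trans h'.symm)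
        exact (hS w' (hu0 u' hu' hw') w h.symm).symm
      · exact hS w (hu0 u hu hw) w' h
    subst this
    exact Set.disjoint_left.1 (h₂ u u' huu) hw hw'
  refine ⟨fun u => p '' (B u), fun u => double_image D G p hp (B u) (h₁ u), ?_, ?_⟩
  · intro u u' huu
    rw [Set.disjoint_left]
    rintro _ ⟨w, hw, rfl⟩ ⟨w', hw', h⟩
    exact hinj u u' w w' huu hw hw' h.symm
  · intro u u' huu
    obtain ⟨w, hw, w', hw', hadj⟩ := h₃ u u' huu
    refine ⟨p w, ⟨w, hw, rfl⟩, p w', ⟨w', hw', rfl⟩, ?_⟩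
    rcases hp w w' hadj with h | h
    · exact absurd h (hinj u u' w w' huu.ne hw hw')
    · exact h

/-- a graph without a cut vertex which is a minor of the double is a minor of the graph -/
theorem double_minor {U V : Type} (M : SimpleGraph U) (G : SimpleGraph V) (x : V)
    (hne : Nonempty U) (hM : ∀ u : U, (M.induce {u}ᶜ).Connected)
    (hm : IsMinor M (double_G G x)) : IsMinor M G := by
  obtain ⟨B, h₁, h₂, h₃⟩ := hm
  set o : Double_V x := ⟨(x, x), Or.inl rfl⟩ with ho
  obtain ⟨u0, hu0⟩ : ∃ u0, ∀ u, u ≠ u0 → o ∉ B u := by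
    by_cases h : ∃ u, o ∈ B u
    · obtain ⟨u, hu⟩ := h
      refine ⟨u, fun u' hu' hmem => ?_⟩
      exact Set.disjoint_left.1 (h₂ u' u hu') hmem hu
    · push Not at h
      obtain ⟨u⟩ := hne
      exact ⟨u, fun u' _ => h u'⟩
  -- adjacent vertices different from `o` are on the same side
  have hadj : ∀ w w' : Double_V x, (double_G G x).Adj w w' → w ≠ o → w' ≠ o →
      (w.1.2 = x → w'.1.2 = x) := by
    intro w w' h hw hw' hwx
    rw [double_adj] at h
    rcases h with ⟨_, _, h⟩ | ⟨_, h, _⟩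
    · exact h
    · exact absurd (Subtype.ext (Prod.ext h hwx)) hw
  have hB : ∀ u, u ≠ u0 → ∀ w ∈ B u, ∀ w' ∈ B u, w.1.2 = x → w'.1.2 = x := by
    intro u hu w hw w' hw' hwx
    refine double_const ((double_G G x).induce (B u)) (fun w => w.1.1.2 = x) ?_
      ((h₁ u).preconnected ⟨w, hw⟩ ⟨w', hw'⟩) hwx
    intro a b hab
    rw [SimpleGraph.comap_adj] at hab
    refine hadj _ _ hab ?_ ?_
    · intro h
      exact hu0 u hu (h ▸ a.2)
    · intro h
      exact hu0 u hu (h ▸ b.2)
  have hne' : ∀ u, ∃ w, w ∈ B u := fun u => by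
    obtain ⟨w⟩ := (h₁ u).nonempty
    exact ⟨w.1, w.2⟩
  have hU : ∀ u, u ≠ u0 → ∀ u', u' ≠ u0 → (∀ w ∈ B u, w.1.2 = x) → ∀ w ∈ B u', w.1.2 = x := by
    intro u hu u' hu' h
    refine double_const (M.induce {u0}ᶜ) (fun u => ∀ w ∈ B u, w.1.2 = x) ?_
      ((hM u0).preconnected ⟨u, hu⟩ ⟨u', hu'⟩) h
    intro a b hab ha w hw
    rw [SimpleGraph.comap_adj] at hab
    obtain ⟨w1, hw1, w2, hw2, h12⟩ := h₃ _ _ hab
    refine hB b b.2 w2 hw2 w hw ?_
    refine hadj w1 w2 h12 ?_ ?_ (ha w1 hw1)
    · intro h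
      exact hu0 a a.2 (h ▸ hw1)
    · intro h
      exact hu0 b b.2 (h ▸ hw2)
  by_cases hside : ∃ u, u ≠ u0 ∧ ∀ w ∈ B u, w.1.2 = x
  · obtain ⟨u, hu, hux⟩ := hside
    refine double_side M (double_G G x) G (fun w => w.1.1) ?_ {w | w.1.2 = x ∧ w.1.1 ≠ x} ?_ B
      h₁ h₂ h₃ u0 ?_
    · intro w w' h
      rw [double_adj] at h
      rcases h with ⟨h, _, _⟩ | ⟨_, h1, h2⟩
      · exact Or.inr h
      · exact Or.inl (h1.trans h2.symm)
    · rintro w ⟨h1, h2⟩ w' h
      have h3 : w'.1.2 = x := by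
        rcases w'.2 with h' | h'
        · exact absurd (h.trans h') h2
        · exact h'
      exact Subtype.ext (Prod.ext h (h1.trans h3.symm))
    · intro u' hu' w hw
      have h1 := hU u hu u' hu' hux w hw
      refine ⟨h1, fun h2 => ?_⟩
      have : w = o := Subtype.ext (Prod.ext h2 h1)
      exact hu0 u' hu' (this ▸ hw)
  · push Not at hside
    refine double_side M (double_G G x) G (fun w => w.1.2) ?_ {w | w.1.1 = x ∧ w.1.2 ≠ x} ?_ B
      h₁ h₂ h₃ u0 ?_
    · intro w w' h
      rw [double_adj] at h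
      rcases h with ⟨_, h1, h2⟩ | ⟨h, _, _⟩
      · exact Or.inl (h1.trans h2.symm)
      · exact Or.inr h
    · rintro w ⟨h1, h2⟩ w' h
      have h3 : w'.1.1 = x := by
        rcases w'.2 with h' | h'
        · exact h'
        · exact absurd (h.trans h') h2
      exact Subtype.ext (Prod.ext (h1.trans h3.symm) h)
    · intro u' hu' w hw
      obtain ⟨w', hw', hw'x⟩ := hside u' hu'
      have h2 : w.1.2 ≠ x := fun h => hw'x (hB u' hu' w hw w' hw' h)
      refine ⟨?_, h2⟩
      rcases w.2 with h' | h'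
      · exact h'
      · exact absurd h' h2

/-- If all excluded minors are `2`-connected, then two copies of `G ∈ A` may be glued at a vertex. -/
theorem exists_double (A : Set FinGraph) (hA : ProperMinorClosed A)
    (h2 : ∀ M, IsExcludedMinor A M → TwoConnected M) (G : FinGraph) (hG : G ∈ A) :
    ∃ D ∈ A, D.v + 1 = 2 * G.v ∧ ecount D.G = 2 * ecount G.G := by
  classical
  set x : Fin G.v := ⟨0, G.pos⟩ with hx
  have hcard : Fintype.card (Double_V x) + 1 = 2 * G.v := by
    rw [double_card, Fintype.card_fin]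
  have hpos : 0 < Fintype.card (Double_V x) := by
    have := G.pos
    omega
  set e : Double_V x ≃ Fin (Fintype.card (Double_V x)) := Fintype.equivFin _ with he
  set D : FinGraph := ⟨Fintype.card (Double_V x), hpos, (double_G G.G x).map e.toEmbedding⟩ with hD
  have iso : double_G G.G x ≃g D.G := SimpleGraph.Iso.map e (double_G G.G x)
  refine ⟨D, ?_, hcard, ?_⟩
  · by_contra hDA
    obtain ⟨M, hM1, hM2⟩ := exists_excluded A D hDA
    obtain ⟨hv, hc, hc2⟩ := h2 M hM2
    have hM3 : IsMinor M.G (double_G G.G x) := hM1.trans (IsMinor.of_iso iso.symm)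
    have hM4 : IsMinor M.G G.G := double_minor M.G G.G x ⟨⟨0, M.pos⟩⟩ hc2 hM3
    exact hM2.1 (hA.closed G hG M hM4)
  · rw [← ecount_iso iso, double_ecount]

theorem double_ecount_top (n : ℕ) : ecount (⊤ : SimpleGraph (Fin n)) = n.choose 2 := by
  classical
  unfold ecount
  rw [Set.ncard_eq_toFinset_card']
  have := SimpleGraph.card_edgeFinset_top_eq_card_choose_two (V := Fin n)
  rw [Fintype.card_fin] at this
  rw [← this]
  congr 1

theorem critB2_subset : critB2 ⊆ derivedSet critB := by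
  rintro β ⟨A, hA, h2, hβ⟩
  -- `K₂` is in the class
  have hK2 : (⟨2, by norm_num, ⊤⟩ : FinGraph) ∈ A := by
    by_contra h
    obtain ⟨M, hM1, hM2⟩ := exists_excluded A _ h
    have h3 : M.v ≤ 2 := by simpa using hM1.card_le
    have h4 := (h2 M hM2).1
    omega
  have hβ0 : 0 < β := by
    have h1 : (⟨2, by norm_num, ⊤⟩ : FinGraph).density ≤ β := hβ.1 ⟨_, hK2, rfl⟩
    have h3 : (⟨2, by norm_num, ⊤⟩ : FinGraph).density = 1 / 2 := by
      unfold FinGraph.density
      rw [double_ecount_top]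
      norm_num
    rw [h3] at h1
    linarith
  have hlt : ∀ G ∈ A, G.density < β := by
    intro G hG
    refine lt_of_le_of_ne (hβ.1 ⟨G, hG, rfl⟩) ?_
    intro heq
    obtain ⟨D, hD, hDv, hDe⟩ := exists_double A hA h2 G hG
    have hDβ : D.density ≤ β := hβ.1 ⟨D, hD, rfl⟩
    rw [← heq] at hDβ
    have hv : (0 : ℝ) < G.v := by exact_mod_cast G.pos
    have hDv0 : (0 : ℝ) < D.v := by exact_mod_cast D.pos
    have hDv' : (D.v : ℝ) = 2 * G.v - 1 := by
      have : ((D.v + 1 : ℕ) : ℝ) = ((2 * G.v : ℕ) : ℝ) := by rw [hDv]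
      push_cast at this
      linarith
    have hDe' : (ecount D.G : ℝ) = 2 * ecount G.G := by
      rw [hDe]
      push_cast
      ring
    have he : (0 : ℝ) < ecount G.G := by
      have : 0 < G.density := heq ▸ hβ0
      unfold FinGraph.density at this
      by_contra hcon
      have h0 : (ecount G.G : ℝ) = 0 := le_antisymm (not_lt.1 hcon) (by positivity)
      rw [h0] at this
      simp at this
    unfold FinGraph.density at hDβ
    rw [div_le_div_iff₀ hDv0 hv, hDe', hDv'] at hDβ
    nlinarith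
  rw [mem_derivedSet, accPt_iff_nhds]
  intro U hU
  obtain ⟨ε, hε, hball⟩ := Metric.mem_nhds_iff.1 hU
  obtain ⟨_, ⟨G, hG, rfl⟩, hG1, hG2⟩ := hβ.exists_between (show β - ε < β by linarith)
  have hG3 := hlt G hG
  -- the densest minor
  set S : Set ℝ := {r | ∃ H : FinGraph, IsMinor H.G G.G ∧ H.density = r} with hS
  have hSfin : S.Finite := by
    refine Set.Finite.subset (Finset.finite_toSet
      ((Finset.range (ecount G.G + 1) ×ˢ Finset.range (G.v + 1)).image
        (fun p : ℕ × ℕ => (p.1 : ℝ) / (p.2 : ℝ)))) ?_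
    rintro _ ⟨H, hH, rfl⟩
    have h1 : H.v ≤ G.v := by simpa using hH.card_le
    have h3 : ecount H.G ≤ ecount G.G := hH.ecount_le
    rw [Finset.mem_coe, Finset.mem_image]
    refine ⟨(ecount H.G, H.v), ?_, rfl⟩
    rw [Finset.mem_product, Finset.mem_range, Finset.mem_range]
    constructor
    · simp only
      omega
    · simp only
      omega
  obtain ⟨_, ⟨H0, hH0, rfl⟩, hmax⟩ := Set.exists_max_image S id hSfin
    ⟨G.density, G, IsMinor.refl _, rfl⟩
  simp only [id] at hmax
  have hH0A : H0 ∈ A := hA.closed G hG H0 hH0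
  have hb1 : G.density ≤ H0.density := hmax _ ⟨G, IsMinor.refl _, rfl⟩
  have hb2 := hlt H0 hH0A
  refine ⟨H0.density, ⟨hball ?_, ?_⟩, hb2.ne⟩
  · rw [Metric.mem_ball, Real.dist_eq, abs_lt]
    constructor <;> linarith
  · set C : Set FinGraph := {F | ∀ H : FinGraph, IsMinor H.G F.G → H.density ≤ H0.density} with hC
    have hH0C : H0 ∈ C := fun H hH => hmax _ ⟨H, hH.trans hH0, rfl⟩
    refine ⟨C, ⟨⟨H0, hH0C⟩, ?_, ?_⟩, ?_, ?_⟩
    · intro huniv
      obtain ⟨n, hn⟩ := exists_nat_gt (2 * H0.density + 1)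
      have hd0 : 0 ≤ H0.density := by
        unfold FinGraph.density
        positivity
      have hn1 : (1 : ℝ) < n := by linarith
      have hn0 : 0 < n := by
        rcases Nat.eq_zero_or_pos n with h | h
        · subst h
          norm_num at hn1
        · exact h
      have hmem : (⟨n, hn0, ⊤⟩ : FinGraph) ∈ C := by
        rw [huniv]
        trivial
      have h1 := hmem _ (IsMinor.refl _)
      have h3 : (⟨n, hn0, ⊤⟩ : FinGraph).density = ((n : ℝ) - 1) / 2 := by
        unfold FinGraph.density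
        rw [double_ecount_top]
        simp only
        rw [Nat.cast_choose_two]
        have : (n : ℝ) ≠ 0 := by positivity
        field_simp
      rw [h3] at h1
      linarith
    · intro F hF H hH H' hH'
      exact hF H' (hH'.trans hH)
    · rintro _ ⟨F, hF, rfl⟩
      exact hF F (IsMinor.refl _)
    · intro r hr
      exact hr ⟨H0, hH0C, rfl⟩

end Pool.Agent.W_MP_03ad1b_co
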