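import Pool.Agent.W_MP_03ad1b_co.Core
import Pool.Agent.W_MP_03ad1b_co.Acc
import Pool.Agent.W_MP_03ad1b_co.ClassC
import Pool.Agent.W_MP_03ad1b_co.Double
import Pool.Agent.W_MP_03ad1b_co.Conv

/-!
# The theorem `B₂ = B'`
-/

set_option autoImplicit false

namespace Pool.Agent.W_MP_03ad1b_co

theorem Final_one_le (β : ℝ) (hβ : β ∈ derivedSet critB) : 1 ≤ β := by
  by_contra hlt
  push Not at hlt
  obtain ⟨n, hn⟩ := exists_nat_gt (2 / (1 - β))
  obtain ⟨G, hG, hc, -, hs⟩ := acc_graph β hβ 1 one_pos n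
  have h1 : (ecount G.G : ℝ) ≤ β * (G.v : ℝ) + 1 := hs G (IsMinor.refl _)
  have h2 := hc.card_vert_le_card_edgeSet_add_one
  rw [Nat.card_eq_fintype_card, Fintype.card_fin] at h2
  have h3 : (G.v : ℝ) ≤ (ecount G.G : ℝ) + 1 := by
    have : G.v ≤ ecount G.G + 1 := h2
    exact_mod_cast this
  have hpos : 0 < 1 - β := sub_pos.mpr hlt
  rw [div_lt_iff₀ hpos] at hn
  have hGn : (n : ℝ) ≤ G.v := by exact_mod_cast hG
  nlinarith

theorem Final_sparse (β : ℝ) (G : FinGraph)
    (hs : ∀ H : FinGraph, IsMinor H.G G.G → (ecount H.G : ℝ) ≤ β * (H.v : ℝ) + 1) :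
    Sparse β G.G := by
  intro f hf
  rcases Nat.eq_zero_or_pos (lab f).card with h0 | hpos
  · have hl : lab f = ∅ := Finset.card_eq_zero.mp h0
    have hnone : ∀ x y, f x ≠ some y := by
      intro x y hxy
      have hy : y ∈ lab f := by
        unfold lab
        simp [hf.idem x y hxy]
      rw [hl] at hy
      exact absurd hy (Finset.notMem_empty _)
    have hb : quot G.G f = ⊥ := by
      ext y z
      simp only [SimpleGraph.bot_adj, iff_false]
      rintro ⟨-, a, b, ha, -⟩
      exact hnone a y ha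
    have he : ecount (quot G.G f) = 0 := by
      unfold ecount
      rw [hb, SimpleGraph.edgeSet_bot, Set.ncard_empty]
    rw [he, h0]
    norm_num
  · obtain ⟨H, hH, he⟩ := minor_of_model G.G f hf (lab f).card rfl
    have h := hs ⟨(lab f).card, hpos, H⟩ hH
    rw [← he]
    exact h

theorem Final_ecount_induce {V : Type} (F : SimpleGraph V) (U : Set V)
    (hF : ∀ x y, F.Adj x y → x ∈ U ∧ y ∈ U) : ecount (F.induce U) = ecount F := by
  unfold ecount
  have h : Sym2.map (Subtype.val : U → V) '' (F.induce U).edgeSet = F.edgeSet := by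
    ext e
    constructor
    · rintro ⟨e', he', rfl⟩
      induction e' using Sym2.ind with
      | _ x y => exact he'
    · induction e using Sym2.ind with
      | _ x y =>
        intro h
        have hxy : F.Adj x y := h
        exact ⟨s(⟨x, (hF x y hxy).1⟩, ⟨y, (hF x y hxy).2⟩), hxy, rfl⟩
  rw [← h, Set.ncard_image_of_injective _ (Sym2.map.injective Subtype.val_injective)]

theorem Final_push {V W : Type} (F : SimpleGraph V) (U : Set V) (H : SimpleGraph W)
    (h : IsMinor H (F.induce U)) : ∃ B : W → Set V, (∀ w, B w ⊆ U) ∧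
      (∀ w, (F.induce (B w)).Connected) ∧
      (∀ w w', w ≠ w' → Disjoint (B w) (B w')) ∧
      ∀ w w', H.Adj w w' → ∃ x ∈ B w, ∃ y ∈ B w', F.Adj x y := by
  obtain ⟨B, h1, h2, h3⟩ := h
  refine ⟨fun w => Subtype.val '' B w, ?_, ?_, ?_, ?_⟩
  · rintro w _ ⟨x, -, rfl⟩
    exact x.2
  · intro w
    let e : (F.induce U).induce (B w) ≃g F.induce (Subtype.val '' B w) :=
      { toEquiv := Equiv.Set.image Subtype.val (B w) Subtype.val_injective
        map_rel_iff' := by
          intro a b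
          rfl }
    exact e.connected_iff.mp (h1 w)
  · intro w w' hw
    exact (Set.disjoint_image_iff Subtype.val_injective).mpr (h2 w w' hw)
  · intro w w' hw
    obtain ⟨x, hx, y, hy, hxy⟩ := h3 w w' hw
    exact ⟨x, ⟨x, hx, rfl⟩, y, ⟨y, hy, rfl⟩, hxy⟩

theorem Final_exists (β : ℝ) (hβ : β ∈ derivedSet critB) (ε : ℝ) (hε : 0 < ε) :
    ∃ F ∈ classC β, β - ε ≤ F.density := by
  have h1 := Final_one_le β hβ
  obtain ⟨δ, hδ, n₀, hcore⟩ := core β h1 ε hε
  obtain ⟨G, hGn, hGc, hGd, hGs⟩ := acc_graph β hβ δ hδ n₀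
  obtain ⟨N, U, F, hNU, hU, hFU, hden, hmod⟩ := hcore (Fin G.v) G.G hGc (Final_sparse β G hGs)
    (by rwa [Fintype.card_fin]) (by rwa [Fintype.card_fin])
  let e : (U : Set (Fin G.v)) ≃ Fin U.card := U.equivFin
  let K : SimpleGraph (Fin U.card) :=
    (F.induce (U : Set (Fin G.v))).comap e.symm.toEmbedding
  let i : K ≃g F.induce (U : Set (Fin G.v)) := SimpleGraph.Iso.comap e.symm _
  have hUpos : 0 < U.card := Finset.card_pos.mpr hU
  have heK : ecount K = ecount F := by
    rw [ecount_iso i]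
    exact Final_ecount_induce F _ (fun x y h => hFU x y h)
  refine ⟨⟨U.card, hUpos, K⟩, ?_, ?_⟩
  · intro H hH
    have hH' : IsMinor H.G (F.induce (U : Set (Fin G.v))) := hH.trans (IsMinor.of_iso i)
    obtain ⟨B, hBU, hB1, hB2, hB3⟩ := Final_push F _ H.G hH'
    obtain ⟨f, hf1, hf2, hf3, hf4, hf5⟩ := model_of_minor H.G F B hB1 hB2 hB3 (N : Set (Fin G.v))
    have hcard : (lab f).card = H.v := by rw [hf4, Fintype.card_fin]
    have hne : (lab f).Nonempty := by
      rw [← Finset.card_pos, hcard]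
      exact H.pos
    have h := hmod f hf1 (fun x hx => by
      obtain ⟨w, hw⟩ := hf2 x hx
      exact hBU w hw) (fun x hx y hy => hf3 x hx y hy) hne
    rw [hcard] at h
    have h5 : (ecount H.G : ℝ) ≤ (ecount (quot F f) : ℝ) := by exact_mod_cast hf5
    exact h5.trans h
  · unfold FinGraph.density
    have hUr : (0:ℝ) < (U.card : ℝ) := by exact_mod_cast hUpos
    show β - ε ≤ (ecount K : ℝ) / (U.card : ℝ)
    rw [heK, le_div_iff₀ hUr]
    exact hden

theorem derived_subset : derivedSet critB ⊆ critB2 := by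
  intro β hβ
  have h1 := Final_one_le β hβ
  refine ⟨classC β, classC_proper β h1, fun M hM => classC_excluded β h1 M hM, ?_, ?_⟩
  · rintro _ ⟨G, hG, rfl⟩
    have h := hG G (IsMinor.refl _)
    have hv : (0:ℝ) < (G.v : ℝ) := by exact_mod_cast G.pos
    unfold FinGraph.density
    rw [div_le_iff₀ hv]
    nlinarith
  · intro b hb
    refine le_of_forall_pos_sub_le ?_
    intro ε hε
    obtain ⟨F, hF, hd⟩ := Final_exists β hβ ε hε
    exact hd.trans (hb ⟨F, hF, rfl⟩)

theorem critB2_eq : critB2 = derivedSet critB :=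
  Set.Subset.antisymm critB2_subset derived_subset

end Pool.Agent.W_MP_03ad1b_co
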